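import Pool.Agent.H29.TG.Key3

/-!
Induction over the scales for sets of edges which matter together for the connection of two
points: as in `TG/Key3`, but the groups with both roots have four arms (weight `w`) if there are
elements outside of the group.
-/

set_option autoImplicit false
set_option linter.unusedSectionVars false

namespace Pool.Agent.H29.TL

open H974 Finset
open Pool.Agent.NH39.W (dm conn psi)
open Pool.Agent.H29.TH (Wf kcmp kstp kcmp_sub mem_kcmp self_kcmp kcmp_step kcmp_far kcmp_ind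
  dm_le_of' ds_le_dm' dm_mono')
open Pool.Agent.H29.TG (KS tt rt Adm tt_nn rt_sub dm_union3 gd_merge_psi gd_ind kcmp_conn3
  conn_zero3 conn_diam adm_cmp)

/-- The hypotheses. -/
structure KS4 {E : Type} [DecidableEq E] (ds : E → E → ℕ) (V0 V : Finset E) (o z : E) (N : ℕ)
    (q : ℝ) (w v : ℕ → ℝ) (Ds : Finset E → Finset E → Prop) (C W : ℝ) : Prop where
  ks : KS ds V0 V o z N q w v Ds C W
  hoz : 1 ≤ ds o z
  annb : ∀ (r D : ℕ), 1 ≤ r → r ≤ D → D ≤ N → ∃ Ch : Finset E → Prop,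
      (∀ F F' : Finset E, (∀ e, r ≤ ds e o → ds e o ≤ D → (e ∈ F ↔ e ∈ F')) → (Ch F ↔ Ch F')) ∧
      (∀ S F : Finset E, S ⊆ V0 → F ⊆ V → o ∈ S → z ∈ S →
        (∀ y ∈ S, ds y o < r ∨ D < ds y o) → ds z o < r → (∃ y ∈ S, D < ds y o) → Ds S F →
        Ch F) ∧
      Pr (fun _ => q) V Ch ≤ C * (w D / w r)

/-- The weight of a group. -/
def uv {E : Type} [DecidableEq E] (o z : E) (w v : ℕ → ℝ) (S : Finset E) : ℕ → ℝ :=
  if o ∈ S then (if z ∈ S then w else v) else (if z ∈ S then v else w)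

/-- There are an event and a forest on `S`. -/
def Gf {E : Type} [DecidableEq E] (ds : E → E → ℕ) (V0 V : Finset E) (o z : E) (N : ℕ) (q : ℝ)
    (w v : ℕ → ℝ) (Ds : Finset E → Finset E → Prop) (T0 a : ℝ) (st : Prop) (t τ s k : ℕ)
    (S : Finset E) (x : E) : Prop :=
  ∃ (Ev : Finset E → Prop) (par : E → E) (rk : E → ℕ),
    (∀ F F' : Finset E, (∀ e, (∃ v ∈ S, ds e v ≤ t / 2) → (e ∈ F ↔ e ∈ F')) → (Ev F ↔ Ev F')) ∧
    (∀ S' : Finset E, S' ⊆ V0 → S ⊆ S' → o ∈ S' → z ∈ S' →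
      (∀ v ∈ S, ∀ w ∈ S' \ S, t < ds v w) → (st → S' ≠ S) → ∀ F : Finset E, F ⊆ V → Ds S' F →
      Ev F) ∧
    (∀ y ∈ S \ rt o z S x, par y ∈ S ∧ rk (par y) < rk y ∧ ds y (par y) ≤ τ) ∧
    Pr (fun _ => q) V Ev ≤ tt o z T0 S *
      (a ^ k * (∏ y ∈ S \ rt o z S x, psi w N (ds y (par y))) * psi (uv o z w v S) N s)

section
variable {E : Type} [DecidableEq E] {ds : E → E → ℕ} {V0 V : Finset E} {o z : E} {N : ℕ} {q : ℝ}
  {w v : ℕ → ℝ} {Ds : Finset E → Finset E → Prop} {C W T0 a : ℝ}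

theorem uvw (H : KS ds V0 V o z N q w v Ds C W) (S : Finset E) : Wf w (uv o z w v S) W := by
  unfold uv
  split_ifs
  · exact H.ww
  · exact H.wv
  · exact H.wv
  · exact H.ww

/-- monotonicity -/
theorem gf_mono (H : KS ds V0 V o z N q w v Ds C W) (hT : 0 ≤ T0) {st st' : Prop}
    {t τ τ' s s' k k' : ℕ}
    {S : Finset E} {x : E} (h : Gf ds V0 V o z N q w v Ds T0 a st t τ s k S x) (hst : st → st')
    (hτ : τ ≤ τ') (hs : s' ≤ s) (hk : k ≤ k') (ha : 1 ≤ a) :
    Gf ds V0 V o z N q w v Ds T0 a st' t τ' s' k' S x := by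
  obtain ⟨Ev, par, rk, h1, h2, h3, h4⟩ := h
  refine ⟨Ev, par, rk, h1, fun S' a1 a2 a3 a4 a5 a6 => h2 S' a1 a2 a3 a4 a5 (fun h => a6 (hst h)),
    fun y hy => ?_, h4.trans ?_⟩
  · obtain ⟨e1, e2, e3⟩ := h3 y hy
    exact ⟨e1, e2, e3.trans hτ⟩
  · refine mul_le_mul_of_nonneg_left ?_ (tt_nn hT S)
    refine mul_le_mul ?_ ((uvw H S).panti hs) ((uvw H S).ppos _).le (H.prod_nn ha _ _ _)
    refine mul_le_mul_of_nonneg_right ?_ (Finset.prod_nonneg fun _ _ => (H.ww.ppos _).le)
    exact pow_le_pow_right₀ ha hk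

/-- comparison of the bounds -/
theorem gf_step (H : KS ds V0 V o z N q w v Ds C W) {P T : ℝ} {k : ℕ} {S : Finset E}
    {g : ℕ → ℝ} {f : E → ℕ} {s s' : ℕ} (hT : 0 ≤ T) (ha : 1 ≤ a)
    (h : P ≤ T * (a ^ k * (∏ y ∈ S, psi w N (f y)) * psi g N s))
    (h2 : psi g N s ≤ a * psi g N s') :
    P ≤ T * (a ^ (k + 1) * (∏ y ∈ S, psi w N (f y)) * psi g N s') := by
  refine h.trans (mul_le_mul_of_nonneg_left ?_ hT)
  calc a ^ k * (∏ y ∈ S, psi w N (f y)) * psi g N s
      ≤ a ^ k * (∏ y ∈ S, psi w N (f y)) * (a * psi g N s') :=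
        mul_le_mul_of_nonneg_left h2 (H.prod_nn ha _ _ _)
    _ = _ := by rw [pow_succ]; ring

/-- all kinds of annuli -/
theorem KS4.ann (H4 : KS4 ds V0 V o z N q w v Ds C W) {S : Finset E} (hSV : S ⊆ V0) {x : E}
    (hA : Adm o z S x) {r D : ℕ} (h1 : 1 ≤ r) (h2 : r ≤ D)
    (h3 : D ≤ N) :
    ∃ Ch : Finset E → Prop,
      (∀ F F' : Finset E, (∀ e, r ≤ ds e x → ds e x ≤ D → (e ∈ F ↔ e ∈ F')) → (Ch F ↔ Ch F')) ∧
      (∀ S' F : Finset E, S' ⊆ V0 → F ⊆ V → x ∈ S' → o ∈ S' → z ∈ S' →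
        (∀ y ∈ S', ds y x < r ∨ D < ds y x) → (z ∈ S → ds z x < r) → (o ∈ S ∨ D < ds o x) →
        (z ∈ S ∨ D < ds z x) → (∃ y ∈ S', D < ds y x) → Ds S' F → Ch F) ∧
      Pr (fun _ => q) V Ch ≤ C * (uv o z w v S D / uv o z w v S r) := by
  have H := H4.ks
  obtain ⟨hx, hxo, hxz⟩ := hA
  by_cases ho : o ∈ S
  · have hxo' := hxo ho
    subst hxo'
    by_cases hz : z ∈ S
    · obtain ⟨Ch, c1, c2, c3⟩ := H4.annb r D h1 h2 h3
      refine ⟨Ch, c1, fun S' F a1 a2 _ a4 a5 a6 a7 _ _ a10 a11 =>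
        c2 S' F a1 a2 a4 a5 a6 (a7 hz) a10 a11, ?_⟩
      unfold uv
      rw [if_pos ho, if_pos hz]
      exact c3
    · obtain ⟨Ch, c1, c2, c3⟩ := H.anno r D h1 h2 h3
      refine ⟨Ch, c1, fun S' F a1 a2 _ a4 a5 a6 _ _ a9 _ a11 =>
        c2 S' F a1 a2 a4 a5 a6 (a9.resolve_left hz) a11, ?_⟩
      unfold uv
      rw [if_pos ho, if_neg hz]
      exact c3
  · by_cases hz : z ∈ S
    · have hxz' := hxz ho hz
      subst hxz'
      obtain ⟨Ch, c1, c2, c3⟩ := H.annz r D h1 h2 h3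
      refine ⟨Ch, c1, fun S' F a1 a2 _ a4 a5 a6 _ a8 _ _ a11 =>
        c2 S' F a1 a2 a4 a5 a6 (a8.resolve_left ho) a11, ?_⟩
      unfold uv
      rw [if_neg ho, if_pos hz]
      exact c3
    · obtain ⟨Ch, c1, c2, c3⟩ := H.annw x (hSV hx) r D h1 h2 h3
      refine ⟨Ch, c1, fun S' F a1 a2 a3 a4 a5 a6 _ a8 a9 _ a11 =>
        c2 S' F a1 a2 a3 a4 a5 a6 (a8.resolve_left ho) (a9.resolve_left hz) a11, ?_⟩
      unfold uv
      rw [if_neg ho, if_neg hz]
      exact c3

theorem exists_out {S S' : Finset E} (h : S ⊆ S') (hne : S' ≠ S) : ∃ y ∈ S', y ∉ S := by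
  by_contra hc
  push Not at hc
  exact hne (Finset.Subset.antisymm hc h)

/-- BASE -/
theorem gf_base (H4 : KS4 ds V0 V o z N q w v Ds C W) (ha : C * W ^ 2 ≤ a) {t' : ℕ}
    {S : Finset E} {x : E} (hSV : S ⊆ V0) (hA : Adm o z S x)
    (ht' : t' ≤ N) (hall : ∀ y ∈ S, ds y x = 0) :
    Gf ds V0 V o z N q w v Ds T0 a True t' 0 (max t' (dm ds S)) 1 S x := by
  have H := H4.ks
  have hC := H.hC
  have hW := H.hW
  have hu := uvw H S
  have hx := hA.1
  have hdm : dm ds S = 0 := by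
    apply Nat.le_zero.mp
    apply dm_le_of'
    intro u hu v hv
    have h1 := H.dt u x v
    rw [H.dc x v, hall u hu, hall v hv] at h1
    exact h1
  have hb : ¬ (o ∈ S ∧ z ∈ S) := by
    intro hb
    have h1 := H.dt o x z
    rw [H.dc x z, hall o hb.1, hall z hb.2] at h1
    have := H4.hoz
    omega
  have ha1 : 1 ≤ a := by
    refine le_trans ?_ ha
    have : 1 ≤ W ^ 2 := by nlinarith
    nlinarith
  rw [hdm, max_eq_left (Nat.zero_le _)]
  have hprod : ∏ y ∈ S \ rt o z S x, psi w N (ds y ((fun _ => x) y)) = 1 := by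
    refine Finset.prod_eq_one fun y hy => ?_
    simp only [hall y (mem_sdiff.1 hy).1]
    exact H.ww.pzero
  have hxr : x ∈ rt o z S x := by
    unfold rt
    rw [if_neg hb]
    exact mem_singleton_self _
  have htree : ∀ y ∈ S \ rt o z S x, (fun _ => x) y ∈ S ∧
      (fun y => if y = x then 0 else 1) ((fun _ => x) y) < (fun y => if y = x then 0 else 1) y ∧
      ds y ((fun _ => x) y) ≤ 0 := by
    intro y hy
    obtain ⟨hy1, hy2⟩ := mem_sdiff.1 hy
    have hyx : y ≠ x := fun h => hy2 (h ▸ hxr)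
    refine ⟨hx, ?_, (hall y hy1).le⟩
    simp [hyx]
  have e1 : tt o z T0 S = 1 := by unfold tt; rw [if_neg hb]
  by_cases hD : 1 ≤ t' / 2
  · obtain ⟨Ch, hloc, himp, hpr⟩ := H4.ann hSV hA le_rfl hD (by omega : t' / 2 ≤ N)
    refine ⟨Ch, fun _ => x, fun y => if y = x then 0 else 1, ?_, ?_, htree, ?_⟩
    · intro F F' hFF
      exact hloc F F' fun e he he' => hFF e ⟨x, hx, he'⟩
    · intro S' hS'V hSS' hoS' hzS' hfar hne F hFV hF
      have hout : ∀ y ∈ S', y ∉ S → t' / 2 < ds y x := by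
        intro y hy hyS
        have := hfar x hx y (mem_sdiff.mpr ⟨hy, hyS⟩)
        rw [H.dc]
        omega
      refine himp S' F hS'V hFV (hSS' hx) hoS' hzS' ?_ ?_ ?_ ?_ ?_ hF
      · intro y hy
        by_cases hyS : y ∈ S
        · left
          rw [hall y hyS]
          exact Nat.one_pos
        · exact Or.inr (hout y hy hyS)
      · intro hz
        rw [hall z hz]
        exact Nat.one_pos
      · by_cases ho : o ∈ S
        · exact Or.inl ho
        · exact Or.inr (hout o hoS' ho)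
      · by_cases hz : z ∈ S
        · exact Or.inl hz
        · exact Or.inr (hout z hzS' hz)
      · obtain ⟨y, hy, hyS⟩ := exists_out hSS' (hne trivial)
        exact ⟨y, hy, hout y hy hyS⟩
    · rw [hprod, pow_one, mul_one, e1, one_mul, hu.pmid (by omega) ht']
      rw [hu.one, div_one] at hpr
      have h1 : uv o z w v S (t' / 2) ≤ W * uv o z w v S t' := hu.dbl _ _ hD (by omega) (by omega)
      have h2 := hu.pos t' (by omega)
      calc Pr (fun _ => q) V Ch ≤ C * uv o z w v S (t' / 2) := hpr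
        _ ≤ C * (W * uv o z w v S t') := mul_le_mul_of_nonneg_left h1 (by linarith)
        _ = (C * W) * uv o z w v S t' := by ring
        _ ≤ a * uv o z w v S t' := by
            refine mul_le_mul_of_nonneg_right (le_trans ?_ ha) h2.le
            have : W ≤ W ^ 2 := by nlinarith
            exact mul_le_mul_of_nonneg_left this (by linarith)
  · refine ⟨fun _ => True, fun _ => x, fun y => if y = x then 0 else 1, fun _ _ _ => Iff.rfl,
      fun _ _ _ _ _ _ _ _ _ _ => trivial, htree, ?_⟩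
    rw [hprod, pow_one, mul_one, e1, one_mul]
    have h1 : psi (uv o z w v S) N t' = 1 := by
      unfold psi
      rw [show max 1 (min t' N) = 1 by omega]
      exact hu.one
    rw [h1, mul_one]
    exact (Pr_le_one H.ok _ _).trans ha1

/-- START -/
theorem gf_start (H : KS ds V0 V o z N q w v Ds C W) (hT : 0 ≤ T0) (ha1 : 1 ≤ a)
    (ha : C * W ^ 2 ≤ a) {t k : ℕ} {R : Finset E} {x : E} {st : Prop}
    (h : Gf ds V0 V o z N q w v Ds T0 a st t (t + 1) (max t (dm ds R)) k R x) :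
    Gf ds V0 V o z N q w v Ds T0 a st t (t + 1) (max (t + 1) (dm ds R)) (k + 1) R x := by
  obtain ⟨Ev, par, rk, h1, h2, h3, h4⟩ := h
  refine ⟨Ev, par, rk, h1, h2, h3, gf_step H (tt_nn hT R) ha1 h4 ?_⟩
  have hC := H.hC
  have hW := H.hW
  refine ((uvw H R).pdbl H.hN (s' := max (t + 1) (dm ds R)) (by omega) (by omega)).trans ?_
  refine mul_le_mul_of_nonneg_right (le_trans ?_ ha) ((uvw H R).ppos _).le
  nlinarith

/-- the implications for two groups -/
theorem gf_imp (H : KS ds V0 V o z N q w v Ds C W) {t : ℕ} {U R : Finset E} {st st' : Prop}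
    {Ev Ev' : Finset E → Prop} (hUne : U.Nonempty) (hRne : R.Nonempty)
    (hfar : ∀ v ∈ U, ∀ w ∈ R, t < ds v w)
    (g2 : ∀ S' : Finset E, S' ⊆ V0 → U ⊆ S' → o ∈ S' → z ∈ S' →
      (∀ v ∈ U, ∀ w ∈ S' \ U, t < ds v w) → (st → S' ≠ U) → ∀ F : Finset E, F ⊆ V → Ds S' F →
      Ev F)
    (g2' : ∀ S' : Finset E, S' ⊆ V0 → R ⊆ S' → o ∈ S' → z ∈ S' →
      (∀ v ∈ R, ∀ w ∈ S' \ R, t < ds v w) → (st' → S' ≠ R) → ∀ F : Finset E, F ⊆ V → Ds S' F →
      Ev' F) :
    ∀ S' : Finset E, S' ⊆ V0 → U ∪ R ⊆ S' → o ∈ S' → z ∈ S' →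
      (∀ v ∈ U ∪ R, ∀ w ∈ S' \ (U ∪ R), t < ds v w) → (False → S' ≠ U ∪ R) →
      ∀ F : Finset E, F ⊆ V → Ds S' F → Ev F ∧ Ev' F := by
  intro S' hS'V hSS' hoS' hzS' hfar' _ F hFV hF
  have hself : ∀ v ∈ U, v ∉ R := by
    intro v hv hvR
    have := hfar v hv v hvR
    rw [H.d0] at this
    omega
  obtain ⟨u0, hu0⟩ := hUne
  obtain ⟨b0, hb0⟩ := hRne
  constructor
  · refine g2 S' hS'V (subset_union_left.trans hSS') hoS' hzS' (fun v hv y hy => ?_)
      (fun _ h => ?_) F hFV hF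
    · obtain ⟨hy1, hy2⟩ := mem_sdiff.mp hy
      by_cases hyR : y ∈ R
      · exact hfar v hv y hyR
      · refine hfar' v (mem_union_left _ hv) y (mem_sdiff.mpr ⟨hy1, ?_⟩)
        rw [mem_union, not_or]
        exact ⟨hy2, hyR⟩
    · have h1 : b0 ∈ S' := hSS' (mem_union_right _ hb0)
      rw [h] at h1
      exact hself b0 h1 hb0
  · refine g2' S' hS'V (subset_union_right.trans hSS') hoS' hzS' (fun v hv y hy => ?_)
      (fun _ h => ?_) F hFV hF
    · obtain ⟨hy1, hy2⟩ := mem_sdiff.mp hy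
      by_cases hyU : y ∈ U
      · rw [H.dc]
        exact hfar y hyU v hv
      · refine hfar' v (mem_union_right _ hv) y (mem_sdiff.mpr ⟨hy1, ?_⟩)
        rw [mem_union, not_or]
        exact ⟨hyU, hy2⟩
    · have h1 : u0 ∈ S' := hSS' (mem_union_left _ hu0)
      rw [h] at h1
      exact hself u0 hu0 h1

/-- MERGE with a group without a root -/
theorem gf_merge (H : KS ds V0 V o z N q w v Ds C W) (hT : 0 ≤ T0) (ha1 : 1 ≤ a)
    (ha : C * W ^ 2 ≤ a) {st st' : Prop}
    {t k k' : ℕ} {U R : Finset E} {x b u : E} (hoR : o ∉ R) (hzR : z ∉ R)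
    (hx : x ∈ U) (hu : u ∈ U) (hb : b ∈ R)
    (hbu : ds b u ≤ t + 1) (hfar : ∀ v ∈ U, ∀ w ∈ R, t < ds v w)
    (hU : Gf ds V0 V o z N q w v Ds T0 a st t (t + 1) (max (t + 1) (dm ds U)) k U x)
    (hR : Gf ds V0 V o z N q w v Ds T0 a st' t (t + 1) (max t (dm ds R)) k' R b) :
    Gf ds V0 V o z N q w v Ds T0 a False t (t + 1) (max (t + 1) (dm ds (U ∪ R))) (k + k' + 1)
      (U ∪ R) x := by
  classical
  have hC := H.hC
  have hW := H.hW
  obtain ⟨Ev, par, rk, g1, g2, g3, g4⟩ := hU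
  obtain ⟨Ev', par', rk', g1', g2', g3', g4'⟩ := hR
  have huR : uv o z w v R = w := by unfold uv; rw [if_neg hoR, if_neg hzR]
  have htR : tt o z T0 R = 1 := by unfold tt; rw [if_neg (fun h => hoR h.1)]
  have hrR : rt o z R b = {b} := by unfold rt; rw [if_neg (fun h => hoR h.1)]
  have ho : o ∈ U ∪ R ↔ o ∈ U := by
    rw [mem_union]; exact ⟨fun h => h.resolve_right hoR, Or.inl⟩
  have hz : z ∈ U ∪ R ↔ z ∈ U := by
    rw [mem_union]; exact ⟨fun h => h.resolve_right hzR, Or.inl⟩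
  have huU : uv o z w v (U ∪ R) = uv o z w v U := by
    unfold uv
    simp only [ho, hz]
  have htU : tt o z T0 (U ∪ R) = tt o z T0 U := by
    unfold tt
    simp only [ho, hz]
  have hrU : rt o z (U ∪ R) x = rt o z U x := by
    unfold rt
    simp only [ho, hz]
  have hrs := rt_sub (o := o) (z := z) hx
  rw [huR, htR, one_mul, hrR] at g4'
  rw [hrR] at g3'
  have hUR : ∀ v ∈ R, v ∉ U := by
    intro v hv hvU
    have := hfar v hvU v hv
    rw [H.d0] at this
    omega
  have hdisj : Disjoint U R := Finset.disjoint_right.mpr hUR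
  have hbU : b ∉ U := hUR b hb
  refine ⟨fun F => Ev F ∧ Ev' F, fun y => if y ∈ U then par y else if y = b then u else par' y,
    fun y => if y ∈ U then rk y else rk u + 1 + rk' y, ?_,
    gf_imp H ⟨x, hx⟩ ⟨b, hb⟩ hfar g2 g2', ?_, ?_⟩
  · intro F F' hFF
    refine and_congr (g1 F F' fun e he => hFF e ?_) (g1' F F' fun e he => hFF e ?_)
    · obtain ⟨v, hv, h⟩ := he
      exact ⟨v, mem_union_left _ hv, h⟩
    · obtain ⟨v, hv, h⟩ := he
      exact ⟨v, mem_union_right _ hv, h⟩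
  · rw [hrU]
    intro y hy
    obtain ⟨hy, hyx⟩ := mem_sdiff.1 hy
    by_cases hyU : y ∈ U
    · obtain ⟨e1, e2, e3⟩ := g3 y (mem_sdiff.2 ⟨hyU, hyx⟩)
      simp only [if_pos hyU, if_pos e1]
      exact ⟨mem_union_left _ e1, e2, e3⟩
    · have hyR : y ∈ R := (mem_union.mp hy).resolve_left hyU
      by_cases hyb : y = b
      · simp only [if_neg hyU, if_pos hyb, if_pos hu]
        exact ⟨mem_union_left _ hu, by omega, by rw [hyb]; exact hbu⟩
      · obtain ⟨e1, e2, e3⟩ := g3' y (mem_sdiff.2 ⟨hyR, fun h => hyb (mem_singleton.1 h)⟩)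
        simp only [if_neg hyU, if_neg hyb, if_neg (hUR _ e1)]
        exact ⟨mem_union_right _ e1, by omega, e3⟩
  · rw [gd_ind H hfar g1 g1', huU, htU, hrU]
    have hprod : ∏ y ∈ (U ∪ R) \ rt o z U x,
        psi w N (ds y (if y ∈ U then par y else if y = b then u else par' y)) =
        (∏ y ∈ U \ rt o z U x, psi w N (ds y (par y))) *
          (psi w N (ds b u) * ∏ y ∈ R \ {b}, psi w N (ds y (par' y))) := by
      have e1 : (U ∪ R) \ rt o z U x = (U \ rt o z U x) ∪ R := by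
        ext y
        simp only [mem_sdiff, mem_union]
        constructor
        · rintro ⟨h2 | h2, h1⟩
          · exact Or.inl ⟨h2, h1⟩
          · exact Or.inr h2
        · rintro (⟨h1, h2⟩ | h2)
          · exact ⟨Or.inl h1, h2⟩
          · exact ⟨Or.inr h2, fun h => hUR y h2 (hrs h)⟩
      rw [e1, Finset.prod_union (hdisj.mono_left sdiff_subset)]
      congr 1
      · refine Finset.prod_congr rfl fun y hy => ?_
        rw [if_pos (mem_sdiff.1 hy).1]
      · rw [← Finset.mul_prod_erase R _ hb, Finset.sdiff_singleton_eq_erase]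
        congr 1
        · rw [if_neg hbU, if_pos rfl]
        · refine Finset.prod_congr rfl fun y hy => ?_
          rw [mem_erase] at hy
          rw [if_neg (hUR y hy.2), if_neg hy.1]
    rw [hprod]
    have hm := gd_merge_psi H (uvw H U) hu hb hbu
    have n1 := H.prod_nn ha1 k (U \ rt o z U x) fun y => ds y (par y)
    have n2 := H.prod_nn ha1 k' (R \ {b}) fun y => ds y (par' y)
    have n3 := H.ww.ppos (N := N) (ds b u)
    have n4 := (uvw H U).ppos (N := N) (max (t + 1) (dm ds (U ∪ R)))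
    have n5 := tt_nn (o := o) (z := z) hT U
    obtain ⟨P1, hP1⟩ : ∃ P1, P1 = ∏ y ∈ U \ rt o z U x, psi w N (ds y (par y)) := ⟨_, rfl⟩
    obtain ⟨P2, hP2⟩ : ∃ P2, P2 = ∏ y ∈ R \ {b}, psi w N (ds y (par' y)) := ⟨_, rfl⟩
    rw [← hP1] at g4 n1 ⊢
    rw [← hP2] at g4' n2 ⊢
    obtain ⟨T, hTT⟩ : ∃ T, T = tt o z T0 U := ⟨_, rfl⟩
    rw [← hTT] at g4 n5 ⊢
    have h5 : W ^ 2 ≤ a := le_trans (by nlinarith) ha
    have q1 := (uvw H U).ppos (N := N) (max (t + 1) (dm ds U))
    have q2 := H.ww.ppos (N := N) (max t (dm ds R))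
    calc Pr (fun _ => q) V Ev * Pr (fun _ => q) V Ev'
        ≤ (T * (a ^ k * P1 * psi (uv o z w v U) N (max (t + 1) (dm ds U)))) *
          (a ^ k' * P2 * psi w N (max t (dm ds R))) :=
          mul_le_mul g4 g4' (Pr_nonneg H.ok _ _) (mul_nonneg n5 (mul_nonneg n1 q1.le))
      _ = T * ((a ^ k * P1) * (a ^ k' * P2)) *
          (psi (uv o z w v U) N (max (t + 1) (dm ds U)) * psi w N (max t (dm ds R))) := by ring
      _ ≤ T * ((a ^ k * P1) * (a ^ k' * P2)) *
          (W ^ 2 * (psi w N (ds b u) * psi (uv o z w v U) N (max (t + 1) (dm ds (U ∪ R))))) :=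
          mul_le_mul_of_nonneg_left hm (mul_nonneg n5 (mul_nonneg n1 n2))
      _ ≤ T * ((a ^ k * P1) * (a ^ k' * P2)) *
          (a * (psi w N (ds b u) * psi (uv o z w v U) N (max (t + 1) (dm ds (U ∪ R))))) := by
          refine mul_le_mul_of_nonneg_left ?_ (mul_nonneg n5 (mul_nonneg n1 n2))
          exact mul_le_mul_of_nonneg_right h5 (by positivity)
      _ = _ := by rw [pow_succ, pow_add]; ring

/-- MERGE of the groups of the two roots -/
theorem gf_merge2 (H : KS ds V0 V o z N q w v Ds C W) (ha1 : 1 ≤ a)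
    (ha : C * W ^ 2 ≤ a) {st st' : Prop}
    {t k k' : ℕ} {U R : Finset E} (hoU : o ∈ U) (hzU : z ∉ U) (hoR : o ∉ R) (hzR : z ∈ R)
    (hfar : ∀ v ∈ U, ∀ w ∈ R, t < ds v w)
    (hT0 : psi v N (t + 1) ^ 2 ≤ T0 * psi w N (max (t + 1) (dm ds (U ∪ R))))
    (hU : Gf ds V0 V o z N q w v Ds T0 a st t (t + 1) (max (t + 1) (dm ds U)) k U o)
    (hR : Gf ds V0 V o z N q w v Ds T0 a st' t (t + 1) (max t (dm ds R)) k' R z) :
    Gf ds V0 V o z N q w v Ds T0 a False t (t + 1) (max (t + 1) (dm ds (U ∪ R))) (k + k' + 1)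
      (U ∪ R) o := by
  classical
  have hC := H.hC
  have hW := H.hW
  obtain ⟨Ev, par, rk, g1, g2, g3, g4⟩ := hU
  obtain ⟨Ev', par', rk', g1', g2', g3', g4'⟩ := hR
  have huR : uv o z w v R = v := by unfold uv; rw [if_neg hoR, if_pos hzR]
  have htR : tt o z T0 R = 1 := by unfold tt; rw [if_neg (fun h => hoR h.1)]
  have hrR : rt o z R z = {z} := by unfold rt; rw [if_neg (fun h => hoR h.1)]
  have huU : uv o z w v U = v := by unfold uv; rw [if_pos hoU, if_neg hzU]
  have htU : tt o z T0 U = 1 := by unfold tt; rw [if_neg (fun h => hzU h.2)]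
  have hrU : rt o z U o = {o} := by unfold rt; rw [if_neg (fun h => hzU h.2)]
  have hob : o ∈ U ∪ R := mem_union_left _ hoU
  have hzb : z ∈ U ∪ R := mem_union_right _ hzR
  have hu2 : uv o z w v (U ∪ R) = w := by unfold uv; rw [if_pos hob, if_pos hzb]
  have ht2 : tt o z T0 (U ∪ R) = T0 := by unfold tt; rw [if_pos ⟨hob, hzb⟩]
  have hr2 : rt o z (U ∪ R) o = {o, z} := by unfold rt; rw [if_pos ⟨hob, hzb⟩]
  rw [huR, htR, one_mul, hrR] at g4'
  rw [hrR] at g3'
  rw [huU, htU, one_mul, hrU] at g4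
  rw [hrU] at g3
  have hUR : ∀ v ∈ R, v ∉ U := by
    intro v hv hvU
    have := hfar v hvU v hv
    rw [H.d0] at this
    omega
  have hdisj : Disjoint U R := Finset.disjoint_right.mpr hUR
  refine ⟨fun F => Ev F ∧ Ev' F, fun y => if y ∈ U then par y else par' y,
    fun y => if y ∈ U then rk y else rk' y, ?_, gf_imp H ⟨o, hoU⟩ ⟨z, hzR⟩ hfar g2 g2', ?_, ?_⟩
  · intro F F' hFF
    refine and_congr (g1 F F' fun e he => hFF e ?_) (g1' F F' fun e he => hFF e ?_)
    · obtain ⟨v, hv, h⟩ := he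
      exact ⟨v, mem_union_left _ hv, h⟩
    · obtain ⟨v, hv, h⟩ := he
      exact ⟨v, mem_union_right _ hv, h⟩
  · rw [hr2]
    intro y hy
    obtain ⟨hy, hyx⟩ := mem_sdiff.1 hy
    rw [mem_insert, mem_singleton, not_or] at hyx
    by_cases hyU : y ∈ U
    · obtain ⟨e1, e2, e3⟩ := g3 y (mem_sdiff.2 ⟨hyU, fun h => hyx.1 (mem_singleton.1 h)⟩)
      simp only [if_pos hyU, if_pos e1]
      exact ⟨mem_union_left _ e1, e2, e3⟩
    · have hyR : y ∈ R := (mem_union.mp hy).resolve_left hyU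
      obtain ⟨e1, e2, e3⟩ := g3' y (mem_sdiff.2 ⟨hyR, fun h => hyx.2 (mem_singleton.1 h)⟩)
      simp only [if_neg hyU, if_neg (hUR _ e1)]
      exact ⟨mem_union_right _ e1, e2, e3⟩
  · rw [gd_ind H hfar g1 g1', hu2, ht2, hr2]
    have hprod : ∏ y ∈ (U ∪ R) \ {o, z}, psi w N (ds y (if y ∈ U then par y else par' y)) =
        (∏ y ∈ U \ {o}, psi w N (ds y (par y))) * ∏ y ∈ R \ {z}, psi w N (ds y (par' y)) := by
      have e1 : (U ∪ R) \ {o, z} = (U \ {o}) ∪ (R \ {z}) := by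
        ext y
        simp only [mem_sdiff, mem_union, mem_insert, mem_singleton, not_or]
        constructor
        · rintro ⟨h2 | h2, h1⟩
          · exact Or.inl ⟨h2, h1.1⟩
          · exact Or.inr ⟨h2, h1.2⟩
        · rintro (⟨h1, h2⟩ | ⟨h1, h2⟩)
          · exact ⟨Or.inl h1, h2, fun h => hzU (h ▸ h1)⟩
          · exact ⟨Or.inr h1, fun h => hoR (h ▸ h1), h2⟩
      rw [e1, Finset.prod_union (hdisj.mono sdiff_subset sdiff_subset)]
      congr 1
      · refine Finset.prod_congr rfl fun y hy => ?_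
        rw [if_pos (mem_sdiff.1 hy).1]
      · refine Finset.prod_congr rfl fun y hy => ?_
        rw [if_neg (hUR y (mem_sdiff.1 hy).1)]
    rw [hprod]
    have n1 := H.prod_nn ha1 k (U \ {o}) fun y => ds y (par y)
    have n2 := H.prod_nn ha1 k' (R \ {z}) fun y => ds y (par' y)
    obtain ⟨P1, hP1⟩ : ∃ P1, P1 = ∏ y ∈ U \ {o}, psi w N (ds y (par y)) := ⟨_, rfl⟩
    obtain ⟨P2, hP2⟩ : ∃ P2, P2 = ∏ y ∈ R \ {z}, psi w N (ds y (par' y)) := ⟨_, rfl⟩
    rw [← hP1] at g4 n1 ⊢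
    rw [← hP2] at g4' n2 ⊢
    have q1 := H.wv.ppos (N := N) (max (t + 1) (dm ds U))
    have q2 := H.wv.ppos (N := N) (max t (dm ds R))
    have q3 := H.wv.ppos (N := N) (t + 1)
    have e1 : psi v N (max (t + 1) (dm ds U)) ≤ psi v N (t + 1) := H.wv.panti (le_max_left _ _)
    have e2 : psi v N (max t (dm ds R)) ≤ psi v N t := H.wv.panti (le_max_left _ _)
    have e3 : psi v N t ≤ W * psi v N (t + 1) := H.wv.pdbl H.hN (by omega) (by omega)
    obtain ⟨Z, hZ⟩ : ∃ Z, Z = psi w N (max (t + 1) (dm ds (U ∪ R))) := ⟨_, rfl⟩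
    rw [← hZ] at hT0 ⊢
    have e4 : psi v N (max (t + 1) (dm ds U)) * psi v N (max t (dm ds R)) ≤ a * (T0 * Z) := by
      calc psi v N (max (t + 1) (dm ds U)) * psi v N (max t (dm ds R))
          ≤ psi v N (t + 1) * (W * psi v N (t + 1)) :=
            mul_le_mul e1 (e2.trans e3) q2.le q3.le
        _ = W * psi v N (t + 1) ^ 2 := by ring
        _ ≤ a * (T0 * Z) := by
            apply mul_le_mul _ hT0 (by positivity) (by linarith)
            refine le_trans ?_ ha
            have : W ≤ W ^ 2 := by nlinarith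
            nlinarith
    calc Pr (fun _ => q) V Ev * Pr (fun _ => q) V Ev'
        ≤ (a ^ k * P1 * psi v N (max (t + 1) (dm ds U))) *
          (a ^ k' * P2 * psi v N (max t (dm ds R))) :=
          mul_le_mul g4 g4' (Pr_nonneg H.ok _ _) (mul_nonneg n1 q1.le)
      _ = ((a ^ k * P1) * (a ^ k' * P2)) *
          (psi v N (max (t + 1) (dm ds U)) * psi v N (max t (dm ds R))) := by ring
      _ ≤ ((a ^ k * P1) * (a ^ k' * P2)) * (a * (T0 * Z)) :=
          mul_le_mul_of_nonneg_left e4 (mul_nonneg n1 n2)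
      _ = _ := by rw [pow_succ, pow_add]; ring

/-- OUT -/
theorem gf_out (H4 : KS4 ds V0 V o z N q w v Ds C W) (hT : 0 ≤ T0) (ha1 : 1 ≤ a)
    (ha : C * W ^ 2 ≤ a)
    {t t' k : ℕ} {S : Finset E} {x : E} (hSV : S ⊆ V0) (hA : Adm o z S x)
    (htt : t + 1 ≤ t') (ht' : t' ≤ N)
    (hG : Gf ds V0 V o z N q w v Ds T0 a True t (t + 1) (max (t + 1) (dm ds S)) k S x) :
    Gf ds V0 V o z N q w v Ds T0 a True t' (t + 1) (max t' (dm ds S)) (k + 1) S x := by
  classical
  have H := H4.ks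
  have hC := H.hC
  have hW := H.hW
  have hu := uvw H S
  have hx := hA.1
  have hWa : W ≤ a := le_trans (by nlinarith) ha
  obtain ⟨Ev, par, rk, g1, g2, g3, g4⟩ := hG
  obtain ⟨s, hs⟩ : ∃ s, s = max (t + 1) (dm ds S) := ⟨_, rfl⟩
  obtain ⟨r, hr⟩ : ∃ r, r = dm ds S + t / 2 + 1 := ⟨_, rfl⟩
  obtain ⟨D, hD⟩ : ∃ D, D = t' / 2 := ⟨_, rfl⟩
  rw [← hs] at g4
  have hloc : ∀ F F' : Finset E, (∀ e, (∃ v ∈ S, ds e v ≤ t' / 2) → (e ∈ F ↔ e ∈ F')) →
      (Ev F ↔ Ev F') := by
    intro F F' hFF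
    refine g1 F F' fun e he => hFF e ?_
    obtain ⟨v, hv, h⟩ := he
    exact ⟨v, hv, by omega⟩
  have himp : ∀ S' : Finset E, S' ⊆ V0 → S ⊆ S' → o ∈ S' → z ∈ S' →
      (∀ v ∈ S, ∀ w ∈ S' \ S, t' < ds v w) → (True → S' ≠ S) → ∀ F : Finset E, F ⊆ V →
      Ds S' F → Ev F := by
    intro S' hS'V hSS' hoS' hzS' hfar hne F hFV hF
    refine g2 S' hS'V hSS' hoS' hzS' (fun v hv y hy => ?_) hne F hFV hF
    have := hfar v hv y hy
    omega
  have hTs := tt_nn (o := o) (z := z) hT S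
  rcases le_or_gt r D with hrD | hrD
  · obtain ⟨Ch, c1, c2, c3⟩ := H4.ann hSV hA (by omega : 1 ≤ r) hrD (by omega)
    refine ⟨fun F => Ev F ∧ Ch F, par, rk, ?_, ?_, g3, ?_⟩
    · intro F F' hFF
      exact and_congr (hloc F F' hFF) (c1 F F' fun e _ he' => hFF e ⟨x, hx, by omega⟩)
    · intro S' hS'V hSS' hoS' hzS' hfar hne F hFV hF
      have hin : ∀ y ∈ S, ds y x < r := by
        intro y hyS
        have := ds_le_dm' (ds := ds) hyS hx
        omega
      have hout : ∀ y ∈ S', y ∉ S → D < ds y x := by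
        intro y hy hyS
        have := hfar x hx y (mem_sdiff.mpr ⟨hy, hyS⟩)
        rw [H.dc]
        omega
      refine ⟨himp S' hS'V hSS' hoS' hzS' hfar hne F hFV hF,
        c2 S' F hS'V hFV (hSS' hx) hoS' hzS' ?_ (fun hz => hin z hz) ?_ ?_ ?_ hF⟩
      · intro y hy
        by_cases hyS : y ∈ S
        · exact Or.inl (hin y hyS)
        · exact Or.inr (hout y hy hyS)
      · by_cases ho : o ∈ S
        · exact Or.inl ho
        · exact Or.inr (hout o hoS' ho)
      · by_cases hz : z ∈ S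
        · exact Or.inl hz
        · exact Or.inr (hout z hzS' hz)
      · obtain ⟨y, hy, hyS⟩ := exists_out hSS' (hne trivial)
        exact ⟨y, hy, hout y hy hyS⟩
    · have hind : Pr (fun _ => q) V (fun F => Ev F ∧ Ch F) =
          Pr (fun _ => q) V Ev * Pr (fun _ => q) V Ch := by
        refine Pr_indep (S := V.filter fun e => ∃ v ∈ S, ds e v ≤ t / 2)
          (T := V.filter fun e => r ≤ ds e x ∧ ds e x ≤ D) (filter_subset _ _)
          (filter_subset _ _) ?_ ?_ ?_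
        · rw [Finset.disjoint_left]
          intro e he1 he2
          obtain ⟨v, hv, h1⟩ := (mem_filter.mp he1).2
          have h2 := (mem_filter.mp he2).2
          have h3 := H.dt e v x
          have h4 := ds_le_dm' (ds := ds) hv hx
          omega
        · intro F hF
          refine g1 _ _ fun e he => ?_
          rw [mem_inter, mem_filter]
          exact ⟨fun h => ⟨h, hF h, he⟩, fun h => h.1⟩
        · intro F hF
          refine c1 _ _ fun e he he' => ?_
          rw [mem_inter, mem_filter]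
          exact ⟨fun h => ⟨h, hF h, he, he'⟩, fun h => h.1⟩
      rw [hind]
      have hmax : max t' (dm ds S) = t' := by omega
      rw [hmax, hu.pmid (by omega) ht']
      rw [hu.pmid (s := s) (by omega) (by omega)] at g4
      obtain ⟨zz, hz⟩ : ∃ zz, zz = uv o z w v S := ⟨_, rfl⟩
      rw [← hz] at g4 c3 hu ⊢
      have zr := hu.pos r (by omega)
      have zs := hu.pos s (by omega)
      have zD := hu.pos D (by omega)
      have zt := hu.pos t' (by omega)
      have u1 : zz s ≤ W * zz r := by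
        rcases le_total s r with h | h
        · exact hu.dbl s r (by omega) h (by omega)
        · refine (hu.mono r s (by omega) h).trans ?_
          nlinarith
      have u2 : zz D ≤ W * zz t' := hu.dbl D t' (by omega) (by omega) (by omega)
      have u3 : zz s * (C * (zz D / zz r)) ≤ a * zz t' := by
        calc zz s * (C * (zz D / zz r)) ≤ (W * zz r) * (C * (zz D / zz r)) :=
              mul_le_mul_of_nonneg_right u1 (by positivity)
          _ = C * W * zz D := by field_simp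
          _ ≤ C * W * (W * zz t') := mul_le_mul_of_nonneg_left u2 (by positivity)
          _ = (C * W ^ 2) * zz t' := by ring
          _ ≤ a * zz t' := mul_le_mul_of_nonneg_right ha zt.le
      have hprod := H.prod_nn ha1 k (S \ rt o z S x) fun y => ds y (par y)
      obtain ⟨T, hTT⟩ : ∃ T, T = tt o z T0 S := ⟨_, rfl⟩
      rw [← hTT] at g4 hTs ⊢
      calc Pr (fun _ => q) V Ev * Pr (fun _ => q) V Ch
          ≤ (T * (a ^ k * (∏ y ∈ S \ rt o z S x, psi w N (ds y (par y))) * zz s)) *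
            (C * (zz D / zz r)) :=
            mul_le_mul g4 c3 (Pr_nonneg H.ok _ _) (mul_nonneg hTs (mul_nonneg hprod zs.le))
        _ = T * (a ^ k * (∏ y ∈ S \ rt o z S x, psi w N (ds y (par y))) *
            (zz s * (C * (zz D / zz r)))) := by ring
        _ ≤ T * (a ^ k * (∏ y ∈ S \ rt o z S x, psi w N (ds y (par y))) * (a * zz t')) :=
            mul_le_mul_of_nonneg_left (mul_le_mul_of_nonneg_left u3 hprod) hTs
        _ = _ := by rw [pow_succ]; ring
  · refine ⟨Ev, par, rk, hloc, himp, g3, gf_step H hTs ha1 g4 ?_⟩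
    refine (hu.pdbl H.hN (s' := max t' (dm ds S)) (by omega) (by omega)).trans ?_
    exact mul_le_mul_of_nonneg_right hWa (hu.ppos _).le

/-- the growth of the component of `x` by merging the other components -/
theorem gf_grow (H : KS ds V0 V o z N q w v Ds C W) (hT : 0 ≤ T0) (ha1 : 1 ≤ a)
    (ha : C * W ^ 2 ≤ a) {t : ℕ}
    {S : Finset E} {x : E} (hA : Adm o z S x) (hc : conn ds (t + 1) S)
    (hT0 : o ∈ S → z ∈ S → t < ds o z → ∀ s ≤ max (t + 1) (dm ds S),
      psi v N (t + 1) ^ 2 ≤ T0 * psi w N s)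
    (hcmp : ∀ b ∈ S, Adm o z (kcmp ds t S b) b →
      Gf ds V0 V o z N q w v Ds T0 a True t (t + 1) (max t (dm ds (kcmp ds t S b)))
      (4 * (kcmp ds t S b).card - 3) (kcmp ds t S b) b) :
    ∀ m : ℕ, ∀ U : Finset E, (S \ U).card = m → U ⊆ S → U ≠ S → x ∈ U →
      (∀ y ∈ U, ∀ z ∈ S, z ∉ U → t < ds y z) →
      Gf ds V0 V o z N q w v Ds T0 a True t (t + 1) (max (t + 1) (dm ds U)) (4 * U.card - 2) U
        x →
      Gf ds V0 V o z N q w v Ds T0 a False t (t + 1) (max (t + 1) (dm ds S)) (4 * S.card - 4) S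
        x := by
  intro m
  induction m using Nat.strong_induction_on with
  | _ m ihm =>
    intro U hUm hUS hUne hxU hcl hG
    have hne : (S \ U).Nonempty := by
      rw [Finset.sdiff_nonempty]
      intro h
      exact hUne (Finset.Subset.antisymm hUS h)
    obtain ⟨u, hu, b, hb', hub⟩ := hc U hUS ⟨x, hxU⟩ hne
    obtain ⟨hbS, hbU⟩ := Finset.mem_sdiff.1 hb'
    have hRS := kcmp_sub (ds := ds) t S b
    have hbR : b ∈ kcmp ds t S b := self_kcmp hbS
    have hRU : ∀ z ∈ kcmp ds t S b, z ∉ U := by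
      refine kcmp_ind hbS hbU ?_
      intro v hv w hw hvU hvw hwU
      have := hcl w hwU v (hRS hv) hvU
      rw [H.dc] at this
      omega
    have hoR : o ∉ kcmp ds t S b := by
      intro h
      have := hA.2.1 (hRS h)
      subst this
      exact hRU _ h hxU
    have hdisj : Disjoint U (kcmp ds t S b) := by
      rw [Finset.disjoint_right]
      exact hRU
    have hfar : ∀ v ∈ U, ∀ w ∈ kcmp ds t S b, t < ds v w := fun v hv w hw =>
      hcl v hv w (hRS hw) (hRU w hw)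
    have hcard : (U ∪ kcmp ds t S b).card = U.card + (kcmp ds t S b).card :=
      Finset.card_union_of_disjoint hdisj
    have hc1 : 1 ≤ U.card := Finset.card_pos.2 ⟨x, hxU⟩
    have hc2 : 1 ≤ (kcmp ds t S b).card := Finset.card_pos.2 ⟨b, hbR⟩
    have e : 4 * U.card - 2 + (4 * (kcmp ds t S b).card - 3) + 1 =
        4 * (U ∪ kcmp ds t S b).card - 4 := by omega
    have hU'S : U ∪ kcmp ds t S b ⊆ S := Finset.union_subset hUS hRS
    have hM : Gf ds V0 V o z N q w v Ds T0 a False t (t + 1)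
        (max (t + 1) (dm ds (U ∪ kcmp ds t S b)))
        (4 * (U ∪ kcmp ds t S b).card - 4) (U ∪ kcmp ds t S b) x := by
      by_cases hzR : z ∈ kcmp ds t S b
      · -- the group of the other root
        have hzS : z ∈ S := hRS hzR
        have hzU : z ∉ U := hRU z hzR
        have hoS : o ∈ S := by
          by_contra hoS
          have := hA.2.2 hoS hzS
          subst this
          exact hzU hxU
        have hxo := hA.2.1 hoS
        subst hxo
        -- the component of `b` is the component of `z`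
        have hce : kcmp ds t S z = kcmp ds t S b := by
          ext y
          rw [mem_kcmp, mem_kcmp]
          have h1 := (mem_kcmp.1 hzR).2
          have hsym : ∀ u v : E, Relation.ReflTransGen (kstp ds t S) u v →
              Relation.ReflTransGen (kstp ds t S) v u := by
            intro u v h
            induction h with
            | refl => exact Relation.ReflTransGen.refl
            | tail _ hbc ih =>
              refine Relation.ReflTransGen.head ⟨hbc.2.1, hbc.1, ?_⟩ ih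
              rw [H.dc]
              exact hbc.2.2
          constructor
          · rintro ⟨k1, k2⟩
            exact ⟨k1, h1.trans k2⟩
          · rintro ⟨k1, k2⟩
            exact ⟨k1, (hsym _ _ h1).trans k2⟩
        have hcz := hcmp z hzS (by
          rw [hce]
          exact ⟨hzR, fun h => absurd h hoR, fun _ _ => rfl⟩)
        rw [hce] at hcz
        have hM := gf_merge2 H ha1 ha hxU hzU hoR hzR hfar
          (hT0 hoS hzS (hfar _ hxU _ hzR) _ (max_le_max le_rfl (dm_mono' hU'S))) hG hcz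
        rw [e] at hM
        exact hM
      · have hM := gf_merge H hT ha1 ha hoR hzR hxU hu hbR
          (by rw [H.dc]; exact hub) hfar hG (hcmp b hbS
            ⟨hbR, fun h => absurd h hoR, fun _ h => absurd h hzR⟩)
        rw [e] at hM
        exact hM
    by_cases hfin : U ∪ kcmp ds t S b = S
    · rw [hfin] at hM
      exact hM
    · refine ihm (S \ (U ∪ kcmp ds t S b)).card ?_ (U ∪ kcmp ds t S b) rfl hU'S hfin
        (Finset.mem_union_left _ hxU) ?_
        (gf_mono H hT hM (fun h => h.elim) le_rfl le_rfl (by omega) ha1)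
      · rw [← hUm]
        apply Finset.card_lt_card
        rw [Finset.ssubset_iff_of_subset
          (Finset.sdiff_subset_sdiff (Finset.Subset.refl S) Finset.subset_union_left)]
        exact ⟨b, hb', fun h => (Finset.mem_sdiff.1 h).2 (Finset.mem_union_right _ hbR)⟩
      · intro y hy z hz hzn
        rw [Finset.mem_union, not_or] at hzn
        rcases Finset.mem_union.1 hy with hy | hy
        · exact hcl y hy z hz hzn.1
        · exact kcmp_far hy hz hzn.2

/-- one step of the induction -/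
theorem gf_one (H4 : KS4 ds V0 V o z N q w v Ds C W) (hT : 0 ≤ T0) (ha1 : 1 ≤ a)
    (ha : C * W ^ 2 ≤ a) {n0 : ℕ}
    (hT0 : ∀ t s : ℕ, t < ds o z → ds o z ≤ n0 * (t + 1) → s ≤ max (t + 1) (n0 * (t + 1)) →
      psi v N (t + 1) ^ 2 ≤ T0 * psi w N s) {t : ℕ}
    (ih : ∀ (t' : ℕ) (S : Finset E) (x : E), S ⊆ V0 → S.card ≤ n0 → Adm o z S x → t ≤ t' →
      t' ≤ N → conn ds t S →
      Gf ds V0 V o z N q w v Ds T0 a True t' t (max t' (dm ds S)) (4 * S.card - 3) S x)
    {S : Finset E} {x : E} (hSV : S ⊆ V0) (hSn : S.card ≤ n0) (hA : Adm o z S x)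
    (ht : t + 1 ≤ N) (hc : conn ds (t + 1) S) (hall : kcmp ds t S x ≠ S) :
    Gf ds V0 V o z N q w v Ds T0 a False t (t + 1) (max (t + 1) (dm ds S)) (4 * S.card - 4) S
        x := by
  have H := H4.ks
  have hcmp : ∀ b ∈ S, Adm o z (kcmp ds t S b) b →
      Gf ds V0 V o z N q w v Ds T0 a True t (t + 1) (max t (dm ds (kcmp ds t S b)))
      (4 * (kcmp ds t S b).card - 3) (kcmp ds t S b) b := by
    intro b hb' hab
    exact gf_mono H hT (ih t (kcmp ds t S b) b ((kcmp_sub _ _ _).trans hSV)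
      ((Finset.card_le_card (kcmp_sub _ _ _)).trans hSn) hab le_rfl
      (by omega) (kcmp_conn3 H hb')) id (Nat.le_succ t) le_rfl le_rfl ha1
  have h1 := gf_start H hT ha1 ha (hcmp x hA.1 (adm_cmp hA))
  have hc1 : 1 ≤ (kcmp ds t S x).card := Finset.card_pos.2 ⟨x, self_kcmp hA.1⟩
  have e1 : 4 * (kcmp ds t S x).card - 3 + 1 = 4 * (kcmp ds t S x).card - 2 := by omega
  rw [e1] at h1
  have hdia : dm ds S ≤ n0 * (t + 1) := by
    apply dm_le_of'
    intro u hu v hv
    exact (conn_diam H hc hu v hv).trans (Nat.mul_le_mul_right _ hSn)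
  exact gf_grow H hT ha1 ha hA hc (fun hoS hzS hlt s hs => by
      apply hT0 t s hlt
      · exact (conn_diam H hc hoS z hzS).trans (Nat.mul_le_mul_right _ hSn)
      · exact hs.trans (max_le_max le_rfl hdia)) hcmp _
    (kcmp ds t S x) rfl (kcmp_sub t S x) hall
    (self_kcmp hA.1) (fun y hy z hz hzn => kcmp_far hy hz hzn) h1

/-- KEY' -/
theorem gf_key (H4 : KS4 ds V0 V o z N q w v Ds C W) (hT : 0 ≤ T0) (ha1 : 1 ≤ a)
    (ha : C * W ^ 2 ≤ a) {n0 : ℕ}
    (hT0 : ∀ t s : ℕ, t < ds o z → ds o z ≤ n0 * (t + 1) → s ≤ max (t + 1) (n0 * (t + 1)) →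
      psi v N (t + 1) ^ 2 ≤ T0 * psi w N s) :
    ∀ (t t' : ℕ) (S : Finset E) (x : E), S ⊆ V0 → S.card ≤ n0 → Adm o z S x → t ≤ t' → t' ≤ N →
      conn ds t S →
      Gf ds V0 V o z N q w v Ds T0 a True t' t (max t' (dm ds S)) (4 * S.card - 3) S x := by
  have H := H4.ks
  intro t
  induction t with
  | zero =>
    intro t' S x hSV _ hA _ ht' hc
    have h0 := conn_zero3 H hA.1 hc
    have hcard : 1 ≤ S.card := Finset.card_pos.2 ⟨x, hA.1⟩
    exact gf_mono H hT (gf_base H4 ha hSV hA ht' h0) id le_rfl le_rfl (by omega) ha1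
  | succ t ih =>
    intro t' S x hSV hSn hA htt' ht' hc
    by_cases hall : kcmp ds t S x = S
    · have hct : conn ds t S := by
        rw [← hall]
        exact kcmp_conn3 H hA.1
      exact gf_mono H hT (ih t' S x hSV hSn hA (by omega) ht' hct) id (Nat.le_succ t) le_rfl
        le_rfl ha1
    · have h2 := gf_one H4 hT ha1 ha hT0 ih hSV hSn hA (by omega) hc hall
      have h3 := gf_out H4 hT ha1 ha hSV hA htt' ht'
        (gf_mono H hT h2 (fun h => h.elim) le_rfl le_rfl le_rfl ha1)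
      have hc2 : 1 ≤ S.card := Finset.card_pos.2 ⟨x, hA.1⟩
      exact gf_mono H hT h3 id le_rfl le_rfl (by omega) ha1

/-- KEY for a set with both roots, of diameter at most `N`. -/
theorem key4 (H4 : KS4 ds V0 V o z N q w v Ds C W) (hT : 0 ≤ T0) (ha1 : 1 ≤ a)
    (ha : C * W ^ 2 ≤ a)
    (hdiam : ∀ x ∈ V0, ∀ y ∈ V0, ds x y ≤ N) {S : Finset E} (hSV : S ⊆ V0) (ho : o ∈ S)
    (hz : z ∈ S)
    (hT0 : ∀ t s : ℕ, t < ds o z → ds o z ≤ S.card * (t + 1) →
      s ≤ max (t + 1) (S.card * (t + 1)) → psi v N (t + 1) ^ 2 ≤ T0 * psi w N s) :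
    ∃ (par : E → E) (rk : E → ℕ), (∀ y ∈ S \ {o, z}, par y ∈ S ∧ rk (par y) < rk y) ∧
      Pr (fun _ => q) V (Ds S) ≤
        T0 * (a ^ (4 * S.card) * (∏ y ∈ S \ {o, z}, psi w N (ds y (par y))) *
          psi w N (dm ds S)) := by
  classical
  have H := H4.ks
  have hc : conn ds N S := by
    intro A hA hne hne'
    obtain ⟨x, hx⟩ := hne
    obtain ⟨y, hy⟩ := hne'
    exact ⟨x, hx, y, hy, hdiam x (hSV (hA hx)) y (hSV (mem_sdiff.1 hy).1)⟩
  have hex : ∃ n, conn ds n S := ⟨N, hc⟩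
  obtain ⟨n, hn⟩ : ∃ n, n = Nat.find hex := ⟨_, rfl⟩
  have hn1 : conn ds n S := by rw [hn]; exact Nat.find_spec hex
  have hn2 : n ≤ N := by rw [hn]; exact Nat.find_min' hex hc
  have hn3 : ∀ m, m < n → ¬ conn ds m S := by
    intro m hm
    rw [hn] at hm
    exact Nat.find_min hex hm
  have hA : Adm o z S o := ⟨ho, fun _ => rfl, fun h => absurd ho h⟩
  rcases n with _ | t
  · have h0 := conn_zero3 H ho hn1 z hz
    rw [H.dc] at h0
    have := H4.hoz
    omega
  have hall : kcmp ds t S o ≠ S := by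
    intro h
    apply hn3 t (by omega)
    rw [← h]
    exact kcmp_conn3 H ho
  have hr : rt o z S o = {o, z} := by unfold rt; rw [if_pos ⟨ho, hz⟩]
  obtain ⟨Ev, par, rk, -, g2, g3, g4⟩ := gf_mono H hT
    (gf_one H4 hT ha1 ha hT0 (gf_key H4 hT ha1 ha hT0 t) hSV le_rfl hA hn2 hn1 hall)
    id le_rfl (le_max_right _ _) (k' := 4 * S.card) (by omega) ha1
  rw [hr] at g3 g4
  refine ⟨par, rk, fun y hy => ⟨(g3 y hy).1, (g3 y hy).2.1⟩, ?_⟩
  refine (Pr_mono H.ok (B := Ev) fun F hFV hF => ?_).trans (g4.trans (le_of_eq ?_))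
  · refine g2 S hSV (Finset.Subset.refl S) ho hz (fun v _ y hy => ?_) (fun h => h.elim) F hFV hF
    rw [Finset.sdiff_self] at hy
    exact absurd hy (Finset.notMem_empty y)
  · have e1 : tt o z T0 S = T0 := by unfold tt; rw [if_pos ⟨ho, hz⟩]
    have e2 : uv o z w v S = w := by
      unfold uv
      rw [if_pos ho, if_pos hz]
    rw [e1, e2]

end

end Pool.Agent.H29.TL
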