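import Pool.Agent.H29.TG.SetT
import Pool.Agent.H29.TL.Key4

/-!
The annuli for the two-point function on both sides of the critical point.
-/

set_option autoImplicit false

namespace Pool.Agent.H29.TL

open H974 hiding WW
open H12S H389NS Finset
open Pool.Agent.NH39 (dd InB OutB ann_cross A4a_congr)
open Pool.Agent.NH39.W (Dl sg_zero wt WW WW_one wt_one wt_pos wt_anti wt_doub wt_ratio psi psi_le
  psi_nn lam_nonneg lam_le_one)
open Pool.Agent.H29.TH (oo ps dd_self dd_comm dd_tri ann_dd blk_sub_box congr_ann A4_local Cr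
  pr_Cr Wf vt vt_one vt_pos vt_anti vt_doub vt_rel barm_le mem_boxE_dd dd_box oo_mem eight_le_WW)
open Pool.Agent.H29.TG (ro fT Dsr CrC dl_w dl_v CrC_local hC le_hC W3 W3_one wf_wt3)

/-- A pivotal edge outside, both points inside: four arms through the annulus. -/
theorem det4b {L : ℕ} {x : Vtx} {y : Edg} {r D : ℕ} (hrD : r ≤ D) (hDL : D ≤ L)
    (hx : dd (ro x) oo < r) (hy : D < dd y oo) {G : Finset Edg}
    (h1 : Reach ((↑(insert y G) : Set Edg) ∩ ↑(boxE L)) (0, 0) x)
    (h2 : ¬ Reach ((↑G : Set Edg) ∩ ↑(boxE L)) (0, 0) x) :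
    A4a (ps oo) r D (↑G : Set Edg) := by
  obtain ⟨H, hH⟩ : ∃ H : Set Edg, H = (↑G : Set Edg) ∩ ↑(boxE L) := ⟨_, rfl⟩
  have hR' : Reach (insert y H) (0, 0) x := by
    refine h1.mono ?_
    rintro e ⟨he1, he2⟩
    rw [Finset.coe_insert] at he1
    rcases he1 with he1 | he1
    · exact Or.inl he1
    · right; rw [hH]; exact ⟨he1, he2⟩
  have hno : ¬ Reach H (0, 0) x := by rw [hH]; exact h2
  have hs : OutB (ps oo) D (src y) := by
    obtain ⟨a, b, t⟩ := y
    unfold dd oo at hy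
    unfold OutB ps oo
    simp only at hy ⊢
    rcases lt_max_iff.1 hy with h | h
    · left; rw [le_abs]; simp only [src_mk]; omega
    · right; rw [le_abs]; simp only [src_mk]; omega
  have ht : OutB (ps oo) D (tgt y) := by
    obtain ⟨a, b, _ | _⟩ := y
    · unfold dd oo at hy
      unfold OutB ps oo
      simp only [tgt_false] at hy ⊢
      rcases lt_max_iff.1 hy with h | h
      · left; rw [le_abs]; omega
      · right; rw [le_abs]; omega
    · unfold dd oo at hy
      unfold OutB ps oo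
      simp only [tgt_true] at hy ⊢
      rcases lt_max_iff.1 hy with h | h
      · left; rw [le_abs]; omega
      · right; rw [le_abs]; omega
  have ho : InB (ps oo) r (0, 0) := by
    unfold InB ps oo
    simp
  have hxi : InB (ps oo) r x := by
    unfold dd ro oo at hx
    unfold InB ps oo
    simp only at hx ⊢
    rw [abs_le, abs_le]
    omega
  have hr0 : blk (ps oo) D ⊆ boxE L := by
    apply blk_sub_box (x := oo)
    · unfold oo; simp only [abs_zero]; omega
    · unfold oo; simp only [abs_zero]; omega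
  have key : ∀ a b : Vtx, OutB (ps oo) D a → OutB (ps oo) D b → Reach H (0, 0) a →
      Reach H b x → A4a (ps oo) r D (↑G : Set Edg) := by
    intro a b ha hb ra rb
    obtain ⟨u1, hu1, w1, hw1, p1, p2⟩ := ann_cross hrD ho ha ra
    obtain ⟨u2, hu2, w2, hw2, p3, p4⟩ := ann_cross hrD hxi hb rb.symm
    have hsub : H ∩ ↑(blk (ps oo) D \ blk (ps oo) r) ⊆
        (↑G : Set Edg) ∩ ↑(blk (ps oo) D \ blk (ps oo) r) := by
      rw [hH]
      rintro e ⟨⟨k1, -⟩, k2⟩
      exact ⟨k1, k2⟩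
    have hsub2 : (↑G : Set Edg) ∩ ↑(blk (ps oo) D \ blk (ps oo) r) ⊆ H := by
      rw [hH]
      rintro e ⟨k1, k2⟩
      refine ⟨k1, ?_⟩
      rw [Finset.mem_coe, mem_sdiff] at k2
      exact hr0 k2.1
    refine ⟨u1, hu1, u2, hu2, ⟨w1, hw1, p1.mono hsub⟩, ⟨w2, hw2, p3.mono hsub⟩, ?_⟩
    intro hc
    apply hno
    have q1 : Reach H u1 w1 := p1.mono Set.inter_subset_left
    have q2 : Reach H u2 w2 := p3.mono Set.inter_subset_left
    have q3 : Reach H u1 u2 := hc.mono hsub2
    exact (((p2.trans q1.symm).trans q3).trans q2).trans p4.symm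
  rcases reach_insert hR' with h | ⟨k1, k2⟩ | ⟨k1, k2⟩
  · exact absurd (h.mono Set.sdiff_subset) hno
  · exact key _ _ hs ht (k1.mono Set.sdiff_subset) (k2.mono Set.sdiff_subset)
  · exact key _ _ ht hs (k1.mono Set.sdiff_subset) (k2.mono Set.sdiff_subset)

/-- The annuli around the groups with both roots. -/
theorem dl_b {L : ℕ} {x : Vtx} {y : Edg} {r D : ℕ} (hrD : r ≤ D) (hDL : D ≤ L)
    (hx : dd (ro x) oo < r) (hy : D < dd y oo) {S F : Finset Edg}
    (hyS : y ∈ S) (hS : ∀ z ∈ S, dd z oo < r ∨ D < dd z oo) (hD : Dl (fT L x) S F ≠ 0) :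
    A4a (ps oo) r D (↑F : Set Edg) := by
  by_contra hno
  apply hD
  unfold Dl
  refine sg_zero hyS (fun T => fT L x ((F \ S) ∪ T)) ?_
  intro T hT
  have hTS : T ⊆ S := hT.trans (erase_subset _ _)
  show fT L x ((F \ S) ∪ insert y T) = fT L x ((F \ S) ∪ T)
  rw [Finset.union_insert]
  unfold fT
  apply ind_congr
  constructor
  · intro h
    by_contra hc
    have h4 := det4b hrD hDL hx hy h hc
    rw [A4a_congr (congr_ann hTS hS)] at h4
    exact hno h4
  · intro h
    refine h.mono (Set.inter_subset_inter_left _ ?_)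
    exact_mod_cast subset_insert _ _

/-- The parameter of the one-arm weight. -/
noncomputable def qm (q : ℝ) : ℝ := max q (1/2)

theorem qm_half (q : ℝ) : 1/2 ≤ qm q := le_max_right _ _

theorem qm_one {q : ℝ} (h : q ≤ 1) : qm q ≤ 1 := max_le h (by norm_num)

/-- The one-arm bound for one annulus. -/
theorem hC_up : ∃ C : ℝ, 1 ≤ C ∧ ∀ q : ℝ, 0 ≤ q → q ≤ 1 → ∀ r D : ℕ, 1 ≤ r → r ≤ D →
    hC q r D ≤ C * (vt (qm q) D / vt (qm q) r) := by
  obtain ⟨C, hC1, h⟩ := barm_le
  refine ⟨C, hC1, ?_⟩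
  intro q q0 q1 r D hr hrD
  have h1 : hC q r D ≤ barm q r D := pr_Cr q0 q1 le_rfl hrD
  have h2 : barm q r D ≤ barm (qm q) r D :=
    barm_mono_param q0 (le_max_left _ _) (qm_one q1) r D
  exact (h1.trans h2).trans (h (qm q) (qm_half q) (qm_one q1) r D hr hrD)

theorem wf_vq {q : ℝ} (h1 : q ≤ 1) : Wf (wt q) (vt (qm q)) W3 where
  one := vt_one (qm_half q) (qm_one h1)
  pos := fun _ hr => vt_pos hr
  mono := fun _ _ hr hs => vt_anti hr hs
  dbl := fun r s hr hs h8 => by
    have h3 := vt_doub (qm_half q) hr hs (by norm_num : 1 ≤ 8) h8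
    have h4 := WW_one
    have h5 := vt_pos (p := qm q) (hr.trans hs)
    push_cast at h3
    refine h3.trans (mul_le_mul_of_nonneg_right ?_ h5.le)
    unfold W3
    linarith
  rel := fun r s hr hs => by
    have hr0 : (0:ℝ) < r := by exact_mod_cast hr
    have hs0 : (0:ℝ) < s := by exact_mod_cast (by omega : 0 < s)
    have hrs : (r:ℝ) ≤ s := by exact_mod_cast hs
    have hW := W3_one
    have w1 := wt_pos q hr
    have v1 := vt_pos (p := qm q) hr
    have v2 := vt_pos (p := qm q) (hr.trans hs)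
    have hl := lam_nonneg q
    have h3 := wt_ratio (q := q) hr hs
    have h4 := vt_rel (qm_half q) hr hs
    have hx1 : (r:ℝ) / s ≤ 1 := (div_le_one hs0).2 hrs
    have h5 : ((r:ℝ) / s) ^ (5/4 : ℝ) ≤ ((r:ℝ) / s) ^ (5/48 : ℝ) :=
      Real.rpow_le_rpow_of_exponent_ge (by positivity) hx1 (by norm_num)
    have h6 : (1 + |q - 1/2| ^ (4/3 : ℝ) * r) / (1 + |q - 1/2| ^ (4/3 : ℝ) * s) ≤ 1 := by
      rw [div_le_one (by positivity)]
      have := mul_le_mul_of_nonneg_left hrs hl
      linarith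
    have h7 : wt q s / wt q r ≤ ((r:ℝ) / s) ^ (5/48 : ℝ) := by
      rw [h3]
      exact (mul_le_of_le_one_right (by positivity) h6).trans h5
    rw [div_le_iff₀ w1] at h7
    have hnn : 0 ≤ ((r:ℝ) / s) ^ (5/48 : ℝ) := by positivity
    calc wt q s * vt (qm q) r ≤ (((r:ℝ) / s) ^ (5/48 : ℝ) * wt q r) * vt (qm q) r :=
          mul_le_mul_of_nonneg_right h7 v1.le
      _ = wt q r * (((r:ℝ) / s) ^ (5/48 : ℝ) * vt (qm q) r) := by ring
      _ ≤ wt q r * vt (qm q) s := mul_le_mul_of_nonneg_left h4 w1.le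
      _ ≤ W3 * (wt q r * vt (qm q) s) := by
          have := mul_pos w1 v2
          nlinarith

theorem dd_ro_pos {x : Vtx} (hx : x ≠ (0, 0)) : 1 ≤ dd oo (ro x) := by
  by_contra h
  apply hx
  unfold dd oo ro at h
  simp only at h
  have h1 : x.1 = 0 := by omega
  have h2 : x.2 = 0 := by omega
  exact Prod.ext h1 h2

theorem kset4 : ∃ C : ℝ, 1 ≤ C ∧ ∀ p : ℝ, 0 ≤ p → p ≤ 1 → ∀ M L : ℕ, 1 ≤ M → 3 * M ≤ L →
    ∀ x : Vtx, x ≠ (0, 0) → ro x ∈ boxE M →
    KS4 dd (boxE M) (boxE L) oo (ro x) (2 * M) p (wt p) (vt (qm p)) (Dsr L x) C W3 := by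
  obtain ⟨C1, hC1, hpl⟩ := Pool.Agent.NH39.W.pl
  obtain ⟨C2, hC2, hba⟩ := hC_up
  refine ⟨max C1 C2, le_max_of_le_left hC1, ?_⟩
  intro p hp0 hp2 M L hM hL x hx0 hx
  have ok := okq hp0 hp2
  have sub : ∀ S : Finset Edg, ∀ T' ⊆ S, S \ {oo, ro x} ⊆ T' → ∀ y ∈ S, y ≠ oo → y ≠ ro x →
      y ∈ T' := by
    intro S T' _ h2 y hy h3 h4
    apply h2
    rw [mem_sdiff, mem_insert, mem_singleton, not_or]
    exact ⟨hy, h3, h4⟩
  refine ⟨⟨dd_self, dd_comm, fun a b c => dd_tri a b c, by omega, hp0, hp2, wf_wt3 p,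
    wf_vq hp2, ?_, ?_, ?_, le_max_of_le_left hC1, W3_one⟩, dd_ro_pos hx0, ?_⟩
  · intro y hy r D hr hrD hDN
    have hy' := mem_boxE_dd hy
    have b1 : |y.1| + D ≤ L := by omega
    have b2 : |y.2.1| + D ≤ L := by omega
    refine ⟨fun F => A4a (ps y) r D (↑F : Set Edg), fun F F' h => A4_local h, ?_, ?_⟩
    · intro S F _ _ hyS _ _ hS h0 h0' hD
      obtain ⟨T', t1, t2, t3⟩ := hD
      have n1 : y ≠ oo := by
        intro h
        rw [h, dd_self] at h0
        omega
      have n2 : y ≠ ro x := by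
        intro h
        rw [h, dd_self] at h0'
        omega
      exact dl_w hr hrD b1 b2 h0 h0' (sub S T' t1 t2 y hyS n1 n2)
        (fun z hz => hS z (t1 hz)) t3
    · have h1 := Pool.Agent.NH39.NC.le_hQ (d := r) ok (blk_sub_box b1 b2)
      have h2 := hpl p hp0 hp2 r D hr hrD
      refine (h1.trans h2).trans (mul_le_mul_of_nonneg_right (le_max_left _ _) ?_)
      have := wt_pos p hr
      have := wt_pos p (hr.trans hrD)
      positivity
  · intro r D hr hrD hDN
    refine ⟨CrC (0, 0) r D, fun F F' h => CrC_local (e := oo) h, ?_, ?_⟩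
    · intro S F _ _ _ _ hS h0 hD
      obtain ⟨T', t1, t2, t3⟩ := hD
      exact dl_v (e := oo) (e' := ro x) hrD (Or.inl ⟨rfl, rfl⟩) h0 (fun y hy => hS y (t1 hy)) t3
    · have hsub : blk (0, 0) D ⊆ boxE L := by
        rw [S4C_blk0]
        exact boxE_mono (by omega)
      refine ((le_hC ok hsub).trans (hba p hp0 hp2 r D hr hrD)).trans
        (mul_le_mul_of_nonneg_right (le_max_right _ _) ?_)
      have := vt_pos (p := qm p) hr
      have := vt_pos (p := qm p) (hr.trans hrD)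
      positivity
  · intro r D hr hrD hDN
    have hx' := mem_boxE_dd hx
    have b1 : |(ro x).1| + D ≤ L := by omega
    have b2 : |(ro x).2.1| + D ≤ L := by omega
    refine ⟨CrC x r D, fun F F' h => CrC_local (e := ro x) h, ?_, ?_⟩
    · intro S F _ _ _ _ hS h0 hD
      obtain ⟨T', t1, t2, t3⟩ := hD
      exact dl_v (e := ro x) (e' := oo) hrD (Or.inr ⟨rfl, rfl⟩) h0 (fun y hy => hS y (t1 hy)) t3
    · refine ((le_hC ok (blk_sub_box b1 b2)).trans (hba p hp0 hp2 r D hr hrD)).trans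
        (mul_le_mul_of_nonneg_right (le_max_right _ _) ?_)
      have := vt_pos (p := qm p) hr
      have := vt_pos (p := qm p) (hr.trans hrD)
      positivity
  · intro r D hr hrD hDN
    have b1 : |oo.1| + D ≤ L := by unfold oo; simp only [abs_zero]; omega
    have b2 : |oo.2.1| + D ≤ L := by unfold oo; simp only [abs_zero]; omega
    refine ⟨fun F => A4a (ps oo) r D (↑F : Set Edg), fun F F' h => A4_local (x := oo) h, ?_, ?_⟩
    · intro S F _ _ _ _ hS hz hex hD
      obtain ⟨T', t1, t2, t3⟩ := hD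
      obtain ⟨y, hyS, hy⟩ := hex
      have n1 : y ≠ oo := by
        intro h
        rw [h, dd_self] at hy
        omega
      have n2 : y ≠ ro x := by
        intro h
        rw [h] at hy
        omega
      exact dl_b hrD (by omega) hz hy (sub S T' t1 t2 y hyS n1 n2) (fun z hz => hS z (t1 hz)) t3
    · have h1 := Pool.Agent.NH39.NC.le_hQ (d := r) ok (blk_sub_box (x := oo) b1 b2)
      have h2 := hpl p hp0 hp2 r D hr hrD
      refine (h1.trans h2).trans (mul_le_mul_of_nonneg_right (le_max_left _ _) ?_)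
      have := wt_pos p hr
      have := wt_pos p (hr.trans hrD)
      positivity

end Pool.Agent.H29.TL
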