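import Pool.Agent.H29.TL.TotL

/-!
The sums of the coefficients of the expansion of the two-point function in the parameter.
-/

set_option autoImplicit false

namespace Pool.Agent.H29.TL

open H974 hiding WW
open H12S H389NS Finset
open Pool.Agent.NH39 (dd)
open Pool.Agent.NH39.W (Dl wt wt_pos wt_anti psi psi_nn lam_nonneg)
open Pool.Agent.H29.TH (oo dd_box oo_mem Ex_Dl_le vt vt_pos)
open Pool.Agent.H29.TG (ro fT Dsr fT_abs sum_out)

theorem Vx_nn (p : ℝ) (M : ℕ) (x : Vtx) : 0 ≤ Vx p M x := by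
  unfold Vx
  exact div_nonneg (sq_nonneg _) (psi_nn p _ _)

theorem coef : ∃ B : ℝ, 1 ≤ B ∧ ∀ p : ℝ, 0 ≤ p → p ≤ 1 → ∀ M L : ℕ, 1 ≤ M → 3 * M ≤ L →
    ∀ x : Vtx, x ≠ (0, 0) → ro x ∈ boxE M →
    (∀ Y : ℝ, 0 < Y → B * Y ≤ xq p M →
      ∑ S ∈ (boxE M).powerset.filter (fun S => 2 ≤ S.card),
        Y ^ S.card * |Ex (fun _ => p) (boxE L) (Dl (fT L x) S)| ≤
        B * Vx p M x * Y ^ (5/3 : ℝ)) ∧
    ∑ S ∈ (boxE M).powerset.filter (fun S => S.card = 1),
      |Ex (fun _ => p) (boxE L) (Dl (fT L x) S)| ≤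
        B * Vx p M x * (dd oo (ro x) : ℝ) ^ (-(1/2) : ℝ) := by
  obtain ⟨K, hK, ht⟩ := tot
  refine ⟨32 * K, by linarith, ?_⟩
  intro p hp0 hp2 M L hM hL x hx0 hx
  have ok := okq hp0 hp2
  have hxq := xq_pos p hM
  have hxq1 := xq_le hp0 hp2 hM
  obtain ⟨t1, t2⟩ := ht p hp0 hp2 M L hM hL x hx0 hx
  have hV0 := Vx_nn p M x
  obtain ⟨V, hV⟩ : ∃ V, V = Vx p M x := ⟨_, rfl⟩
  rw [← hV] at hV0 t1 t2 ⊢
  obtain ⟨P, hP⟩ : ∃ P : Finset Edg, P = {oo, ro x} := ⟨_, rfl⟩
  have hPc : P.card ≤ 2 := by rw [hP]; exact Finset.card_le_two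
  rw [← hP] at t1 t2
  have hd1 : 1 ≤ dd oo (ro x) := dd_ro_pos hx0
  have hd2 : (1:ℝ) ≤ dd oo (ro x) := by exact_mod_cast hd1
  have hdr : (dd oo (ro x) : ℝ) ^ (-(1/2) : ℝ) ≤ 1 :=
    Real.rpow_le_one_of_one_le_of_nonpos hd2 (by norm_num)
  have hdr0 : 0 < (dd oo (ro x) : ℝ) ^ (-(1/2) : ℝ) := by positivity
  obtain ⟨dr, hdrr⟩ : ∃ dr, dr = (dd oo (ro x) : ℝ) ^ (-(1/2) : ℝ) := ⟨_, rfl⟩
  rw [← hdrr] at hdr hdr0 t2 ⊢
  obtain ⟨g, hg⟩ : ∃ g : Finset Edg → ℝ, g = fun A =>
    Pr (fun _ => p) (boxE L) (Dsr L x (A ∪ P)) := ⟨_, rfl⟩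
  have hg0 : ∀ A, 0 ≤ g A := by intro A; rw [hg]; exact Pr_nonneg ok _ _
  have t1' : ∀ Y : ℝ, 0 < Y → K * Y ≤ xq p M →
      ∑ A ∈ (boxE M \ P).powerset.filter (fun A => 2 ≤ A.card), Y ^ A.card * g A ≤
        K * V * Y ^ (5/3 : ℝ) := by rw [hg]; exact t1
  have t2' : ∑ A ∈ (boxE M \ P).powerset.filter (fun A => A.card ≤ 1), g A ≤ K * V * dr := by
    rw [hg]; exact t2
  have h2P : (2:ℝ) ^ P.card ≤ 4 := by
    calc (2:ℝ) ^ P.card ≤ 2 ^ 2 := pow_le_pow_right₀ (by norm_num) hPc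
      _ = 4 := by norm_num
  -- one set
  have hone : ∀ S : Finset Edg, |Ex (fun _ => p) (boxE L) (Dl (fT L x) S)| ≤
      2 ^ S.card * g (S \ P) := by
    intro S
    have k1 := Ex_Dl_le ok (V := boxE L) (fT_abs L x) S
    refine k1.trans (mul_le_mul_of_nonneg_left ?_ (by positivity))
    rw [hg]
    apply Pr_mono ok
    intro F _ hF
    refine ⟨S, ?_, ?_, hF⟩
    · rw [sdiff_union_self_eq_union]
      exact subset_union_left
    · intro e he
      rw [mem_sdiff, mem_union] at he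
      rcases he.1 with h | h
      · exact (mem_sdiff.1 h).1
      · rw [hP] at h
        exact absurd h he.2
  constructor
  · intro Y hY hYx
    obtain ⟨y, hy⟩ : ∃ y : ℝ, y = 2 * Y := ⟨_, rfl⟩
    have hy0 : 0 < y := by rw [hy]; positivity
    have hKy : K * y ≤ xq p M := by rw [hy]; nlinarith
    have hy1 : y ≤ 1 := by nlinarith
    have h1 := t1' y hy0 hKy
    have hso := sum_out (boxE M) P (fun A => y ^ (max A.card 2) * g A) (fun A => by
      have := hg0 A
      positivity)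
    have h2 : ∑ S ∈ (boxE M).powerset.filter (fun S => 2 ≤ S.card),
        Y ^ S.card * |Ex (fun _ => p) (boxE L) (Dl (fT L x) S)| ≤
        ∑ S ∈ (boxE M).powerset, y ^ (max (S \ P).card 2) * g (S \ P) := by
      have h3 : ∑ S ∈ (boxE M).powerset.filter (fun S => 2 ≤ S.card),
          Y ^ S.card * |Ex (fun _ => p) (boxE L) (Dl (fT L x) S)| ≤
          ∑ S ∈ (boxE M).powerset.filter (fun S => 2 ≤ S.card),
            y ^ (max (S \ P).card 2) * g (S \ P) := by
        apply Finset.sum_le_sum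
        intro S hS
        rw [mem_filter] at hS
        have h4 : max (S \ P).card 2 ≤ S.card := max_le (Finset.card_le_card sdiff_subset) hS.2
        have h5 : y ^ S.card ≤ y ^ (max (S \ P).card 2) :=
          pow_le_pow_of_le_one hy0.le hy1 h4
        calc Y ^ S.card * |Ex (fun _ => p) (boxE L) (Dl (fT L x) S)|
            ≤ Y ^ S.card * (2 ^ S.card * g (S \ P)) :=
              mul_le_mul_of_nonneg_left (hone S) (by positivity)
          _ = y ^ S.card * g (S \ P) := by rw [hy, mul_pow]; ring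
          _ ≤ _ := mul_le_mul_of_nonneg_right h5 (hg0 _)
      refine h3.trans ?_
      apply Finset.sum_le_sum_of_subset_of_nonneg (filter_subset _ _)
      intro S _ _
      exact mul_nonneg (by positivity) (hg0 _)
    refine h2.trans (hso.trans ?_)
    have h6 : ∑ A ∈ (boxE M \ P).powerset, y ^ (max A.card 2) * g A ≤
        K * V * y ^ (5/3 : ℝ) + y ^ 2 * (K * V * dr) := by
      rw [← Finset.sum_filter_add_sum_filter_not (boxE M \ P).powerset (fun A => 2 ≤ A.card)]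
      apply add_le_add
      · refine le_trans (le_of_eq ?_) h1
        apply Finset.sum_congr rfl
        intro A hA
        rw [mem_filter] at hA
        rw [max_eq_left hA.2]
      · refine le_trans ?_ (mul_le_mul_of_nonneg_left t2' (by positivity))
        rw [Finset.mul_sum]
        have e : (boxE M \ P).powerset.filter (fun A => ¬ 2 ≤ A.card) =
            (boxE M \ P).powerset.filter (fun A => A.card ≤ 1) := by
          apply Finset.filter_congr
          intro A _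
          omega
        rw [e]
        apply Finset.sum_le_sum
        intro A hA
        rw [mem_filter] at hA
        rw [max_eq_right (by omega : A.card ≤ 2)]
    have e1 : y ^ 2 ≤ y ^ (5/3 : ℝ) := by
      rw [← Real.rpow_natCast]
      exact Real.rpow_le_rpow_of_exponent_ge hy0 hy1 (by norm_num)
    have e2 : y ^ (5/3 : ℝ) ≤ 4 * Y ^ (5/3 : ℝ) := by
      rw [hy, Real.mul_rpow (by norm_num) hY.le]
      apply mul_le_mul_of_nonneg_right _ (by positivity)
      have := Real.rpow_le_rpow_of_exponent_le (show (1:ℝ) ≤ 2 by norm_num)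
        (show (5/3 : ℝ) ≤ 2 by norm_num)
      refine this.trans ?_
      norm_num
    have hKV : 0 ≤ K * V := by positivity
    have e3 : y ^ 2 * (K * V * dr) ≤ K * V * y ^ (5/3 : ℝ) := by
      calc y ^ 2 * (K * V * dr) ≤ y ^ (5/3 : ℝ) * (K * V * 1) :=
            mul_le_mul e1 (mul_le_mul_of_nonneg_left hdr hKV) (by positivity) (by positivity)
        _ = _ := by ring
    have e4 : ∑ A ∈ (boxE M \ P).powerset, y ^ (max A.card 2) * g A ≤
        8 * (K * V * Y ^ (5/3 : ℝ)) := by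
      have := mul_le_mul_of_nonneg_left e2 hKV
      linarith
    have e5 : 0 ≤ ∑ A ∈ (boxE M \ P).powerset, y ^ (max A.card 2) * g A :=
      Finset.sum_nonneg (fun A _ => mul_nonneg (by positivity) (hg0 A))
    calc 2 ^ P.card * ∑ A ∈ (boxE M \ P).powerset, y ^ (max A.card 2) * g A
        ≤ 4 * (8 * (K * V * Y ^ (5/3 : ℝ))) := mul_le_mul h2P e4 e5 (by norm_num)
      _ = _ := by ring
  · have hso := sum_out (boxE M) P (fun A => if A.card ≤ 1 then g A else 0) (fun A => by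
      split_ifs
      · exact hg0 A
      · exact le_rfl)
    have h2 : ∑ S ∈ (boxE M).powerset.filter (fun S => S.card = 1),
        |Ex (fun _ => p) (boxE L) (Dl (fT L x) S)| ≤
        2 * ∑ S ∈ (boxE M).powerset, (if (S \ P).card ≤ 1 then g (S \ P) else 0) := by
      rw [Finset.mul_sum]
      have h3 : ∑ S ∈ (boxE M).powerset.filter (fun S => S.card = 1),
          |Ex (fun _ => p) (boxE L) (Dl (fT L x) S)| ≤
          ∑ S ∈ (boxE M).powerset.filter (fun S => S.card = 1),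
            2 * (if (S \ P).card ≤ 1 then g (S \ P) else 0) := by
        apply Finset.sum_le_sum
        intro S hS
        rw [mem_filter] at hS
        have h4 : (S \ P).card ≤ 1 := (Finset.card_le_card sdiff_subset).trans hS.2.le
        rw [if_pos h4]
        have := hone S
        rw [hS.2, pow_one] at this
        exact this
      refine h3.trans ?_
      apply Finset.sum_le_sum_of_subset_of_nonneg (filter_subset _ _)
      intro S _ _
      split_ifs
      · have := hg0 (S \ P)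
        positivity
      · simp
    have h5 : ∑ A ∈ (boxE M \ P).powerset, (if A.card ≤ 1 then g A else 0) ≤ K * V * dr := by
      rw [← Finset.sum_filter]
      exact t2'
    have h6 : 0 ≤ ∑ A ∈ (boxE M \ P).powerset, (if A.card ≤ 1 then g A else 0) :=
      Finset.sum_nonneg (fun A _ => by
        split_ifs
        · exact hg0 A
        · exact le_rfl)
    have h7 : 2 ^ P.card * ∑ A ∈ (boxE M \ P).powerset, (if A.card ≤ 1 then g A else 0) ≤
        4 * (K * V * dr) := mul_le_mul h2P h5 h6 (by norm_num)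
    have hKV : 0 ≤ K * V * dr := by positivity
    calc ∑ S ∈ (boxE M).powerset.filter (fun S => S.card = 1),
        |Ex (fun _ => p) (boxE L) (Dl (fT L x) S)| ≤
        2 * ∑ S ∈ (boxE M).powerset, (if (S \ P).card ≤ 1 then g (S \ P) else 0) := h2
      _ ≤ 2 * (4 * (K * V * dr)) := mul_le_mul_of_nonneg_left (hso.trans h7) (by norm_num)
      _ ≤ _ := by linarith

/-- The prefactor, independent of the box. -/
noncomputable def Vp (p : ℝ) (x : Vtx) : ℝ :=
  vt (qm p) (dd oo (ro x)) ^ 2 / wt p (dd oo (ro x))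

theorem Vx_eq (p : ℝ) {M : ℕ} (hM : 1 ≤ M) {x : Vtx} (hx0 : x ≠ (0, 0)) (hx : ro x ∈ boxE M) :
    Vx p M x = Vp p x := by
  have hd1 : 1 ≤ dd oo (ro x) := dd_ro_pos hx0
  have hdN : dd oo (ro x) ≤ 2 * M := dd_box (oo_mem hM) hx
  unfold Vx Vp psi
  rw [min_eq_left hdN, max_eq_right hd1]

theorem Vp_pos (p : ℝ) {x : Vtx} (hx0 : x ≠ (0, 0)) : 0 < Vp p x := by
  have hd1 : 1 ≤ dd oo (ro x) := dd_ro_pos hx0
  have h1 := vt_pos (p := qm p) hd1
  have h2 := wt_pos p hd1
  unfold Vp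
  positivity

/-- The prefactor below the correlation length. -/
theorem Vp_le {p : ℝ} {x : Vtx} (hx0 : x ≠ (0, 0))
    (h : |p - 1/2| ≤ (dd oo (ro x) : ℝ) ^ (-(3/4) : ℝ)) :
    Vp p x ≤ 2 * (dd oo (ro x) : ℝ) ^ (25/24 : ℝ) := by
  have hd1 : 1 ≤ dd oo (ro x) := dd_ro_pos hx0
  obtain ⟨d, hd⟩ : ∃ d : ℕ, d = dd oo (ro x) := ⟨_, rfl⟩
  unfold Vp
  rw [← hd] at hd1 h ⊢
  have hd0 : (0:ℝ) < d := by exact_mod_cast hd1
  have hl := lam_nonneg p
  -- the one-arm weight
  have e1 : vt (qm p) d = (d:ℝ) ^ (-(5/48) : ℝ) := by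
    unfold vt
    apply max_eq_left
    have h1 : 0 ≤ qm p - 1/2 := by have := qm_half p; linarith
    have h2 : qm p - 1/2 ≤ (d:ℝ) ^ (-(3/4) : ℝ) := by
      unfold qm
      rcases le_total p (1/2) with h3 | h3
      · rw [max_eq_right h3, sub_self]; positivity
      · rw [max_eq_left h3]
        exact (le_abs_self _).trans h
    refine (Real.rpow_le_rpow h1 h2 (by norm_num)).trans (le_of_eq ?_)
    rw [← Real.rpow_mul hd0.le]
    norm_num
  have e2 : |p - 1/2| ^ (4/3 : ℝ) * d ≤ 1 := by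
    have h1 : |p - 1/2| ^ (4/3 : ℝ) ≤ ((d:ℝ) ^ (-(3/4) : ℝ)) ^ (4/3 : ℝ) :=
      Real.rpow_le_rpow (abs_nonneg _) h (by norm_num)
    rw [← Real.rpow_mul hd0.le] at h1
    have h2 : (-(3/4) * (4/3) : ℝ) = -1 := by norm_num
    rw [h2, Real.rpow_neg_one] at h1
    have := mul_le_mul_of_nonneg_right h1 hd0.le
    rwa [inv_mul_cancel₀ hd0.ne'] at this
  have e3 : (d:ℝ) ^ (-(5/4) : ℝ) / 2 ≤ wt p d := by
    unfold wt
    rw [div_eq_mul_inv]
    apply mul_le_mul_of_nonneg_left _ (by positivity)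
    rw [inv_eq_one_div, div_le_div_iff₀ (by norm_num) (by positivity)]
    linarith
  rw [e1]
  have e4 : 0 < (d:ℝ) ^ (-(5/4) : ℝ) / 2 := by positivity
  refine (div_le_div_of_nonneg_left (by positivity) e4 e3).trans (le_of_eq ?_)
  have e5 : ((d:ℝ) ^ (-(5/48) : ℝ)) ^ 2 = (d:ℝ) ^ (-(5/24) : ℝ) := by
    rw [← Real.rpow_natCast, ← Real.rpow_mul hd0.le]
    norm_num
  have e6 : (d:ℝ) ^ (-(5/24) : ℝ) = (d:ℝ) ^ (25/24 : ℝ) * (d:ℝ) ^ (-(5/4) : ℝ) := by
    rw [← Real.rpow_add hd0]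
    norm_num
  rw [e5, e6]
  field_simp

end Pool.Agent.H29.TL
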