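import Mathlib

/-!
A function whose second derivative has an integrable singularity.
-/

set_option autoImplicit false

namespace Pool.Agent.H29.TL

open Filter Topology
open scoped ContDiff

theorem hd_of {g : ℝ → ℝ} {s : ℝ} (h : ContDiffAt ℝ ∞ g s) : HasDerivAt g (deriv g s) s :=
  (h.differentiableAt (by simp)).hasDerivAt

theorem cd_deriv {g : ℝ → ℝ} {a b s : ℝ} (hs : s ∈ Set.Ioo a b)
    (h : ∀ s ∈ Set.Ioo a b, ContDiffAt ℝ ∞ g s) : HasDerivAt (deriv g) (deriv (deriv g) s) s := by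
  have h1 : ContDiffAt ℝ ∞ (deriv g) s := by
    have h2 : ContDiffOn ℝ ∞ g (Set.Ioo a b) := fun y hy => (h y hy).contDiffWithinAt
    have h3 := h2.deriv_of_isOpen isOpen_Ioo (m := ∞) (by simp)
    exact h3.contDiffAt (isOpen_Ioo.mem_nhds hs)
  exact hd_of h1

theorem pow_hd {s β c : ℝ} (hs : 0 < s) : HasDerivAt (fun t : ℝ => c * t ^ β) (c * (β * s ^ (β - 1))) s :=
  (Real.hasDerivAt_rpow_const (Or.inl hs.ne')).const_mul c

/-- Monotonicity. -/
theorem mono_of {g g' : ℝ → ℝ} {a b : ℝ} (h : ∀ s ∈ Set.Ioo a b, HasDerivAt g (g' s) s)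
    (h0 : ∀ s ∈ Set.Ioo a b, 0 ≤ g' s) {s t : ℝ} (hs : s ∈ Set.Ioo a b) (ht : t ∈ Set.Ioo a b)
    (hst : s ≤ t) : g s ≤ g t := by
  have h1 : MonotoneOn g (Set.Ioo a b) := by
    apply monotoneOn_of_deriv_nonneg (convex_Ioo a b)
    · exact fun s hs => (h s hs).continuousAt.continuousWithinAt
    · rw [interior_Ioo]
      exact fun s hs => (h s hs).differentiableAt.differentiableWithinAt
    · rw [interior_Ioo]
      intro s hs
      rw [(h s hs).deriv]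
      exact h0 s hs
  exact h1 hs ht hst

/-- One side. -/
theorem one_side {g : ℝ → ℝ} {D δ : ℝ} (hδ : 0 < δ) (hD : 0 ≤ D)
    (hc : ContinuousWithinAt g (Set.Ioi 0) 0)
    (hs : ∀ s ∈ Set.Ioo 0 δ, ContDiffAt ℝ ∞ g s)
    (h2 : ∀ s ∈ Set.Ioo 0 δ, |deriv (deriv g) s| ≤ D * s ^ (-(1/3) : ℝ)) :
    ∃ a : ℝ, (∀ s ∈ Set.Ioo 0 δ, |deriv g s - a| ≤ 2 * D * s ^ (2/3 : ℝ)) ∧
      ∀ s ∈ Set.Ioo 0 δ, |g s - g 0 - a * s| ≤ 2 * D * s ^ (5/3 : ℝ) := by
  have hd1 : ∀ s ∈ Set.Ioo 0 δ, HasDerivAt g (deriv g s) s := fun s h => hd_of (hs s h)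
  have hd2 : ∀ s ∈ Set.Ioo 0 δ, HasDerivAt (deriv g) (deriv (deriv g) s) s :=
    fun s h => cd_deriv h hs
  have e1 : ((2:ℝ)/3 - 1) = -(1/3) := by norm_num
  have e2 : ((5:ℝ)/3 - 1) = 2/3 := by norm_num
  -- the first derivative
  have m1 : ∀ s t, s ∈ Set.Ioo 0 δ → t ∈ Set.Ioo 0 δ → s ≤ t →
      |deriv g t - deriv g s| ≤ 3/2 * D * (t ^ (2/3 : ℝ) - s ^ (2/3 : ℝ)) := by
    intro s t h3 h4 hst
    have a1 := mono_of (g := fun s => 3/2 * D * s ^ (2/3 : ℝ) + deriv g s)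
      (g' := fun s => 3/2 * D * (2/3 * s ^ ((2:ℝ)/3 - 1)) + deriv (deriv g) s)
      (fun s h => (pow_hd h.1).add (hd2 s h)) (fun s h => by
        have := (abs_le.1 (h2 s h)).1
        rw [e1]
        linarith) h3 h4 hst
    have a2 := mono_of (g := fun s => 3/2 * D * s ^ (2/3 : ℝ) - deriv g s)
      (g' := fun s => 3/2 * D * (2/3 * s ^ ((2:ℝ)/3 - 1)) - deriv (deriv g) s)
      (fun s h => (pow_hd h.1).sub (hd2 s h)) (fun s h => by
        have := (abs_le.1 (h2 s h)).2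
        rw [e1]
        linarith) h3 h4 hst
    rw [abs_le]
    constructor <;> linarith
  obtain ⟨sq, hsq⟩ : ∃ sq : ℕ → ℝ, sq = fun n : ℕ => δ / ((n:ℝ) + 2) := ⟨_, rfl⟩
  have sq0 : ∀ n, sq n ∈ Set.Ioo 0 δ := by
    intro n
    rw [hsq]
    constructor
    · show 0 < δ / ((n:ℝ) + 2)
      positivity
    · show δ / ((n:ℝ) + 2) < δ
      rw [div_lt_iff₀ (by positivity)]
      have : (0:ℝ) ≤ n := by positivity
      nlinarith
  have sq1 : Tendsto sq atTop (𝓝 0) := by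
    rw [hsq]
    apply Tendsto.div_atTop tendsto_const_nhds
    exact tendsto_atTop_add_const_right _ _ tendsto_natCast_atTop_atTop
  have sq2 : Antitone sq := by
    rw [hsq]
    intro n m hnm
    show δ / ((m:ℝ) + 2) ≤ δ / ((n:ℝ) + 2)
    have : (n:ℝ) ≤ m := by exact_mod_cast hnm
    exact div_le_div_of_nonneg_left hδ.le (by positivity) (by linarith)
  have sq3 : Tendsto (fun n => 3/2 * D * sq n ^ (2/3 : ℝ)) atTop (𝓝 0) := by
    have h3 := (sq1.rpow_const (p := (2/3 : ℝ)) (Or.inr (by norm_num))).const_mul (3/2 * D)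
    rw [Real.zero_rpow (by norm_num), mul_zero] at h3
    exact h3
  obtain ⟨a, ha⟩ : ∃ a, Tendsto (fun n => deriv g (sq n)) atTop (𝓝 a) := by
    apply cauchySeq_tendsto_of_complete
    rw [Metric.cauchySeq_iff']
    intro ε hε
    obtain ⟨N, hN⟩ := eventually_atTop.1 (sq3.eventually_lt_const hε)
    refine ⟨N, fun n hn => ?_⟩
    rw [dist_comm, Real.dist_eq]
    have h3 := m1 (sq n) (sq N) (sq0 n) (sq0 N) (sq2 hn)
    have h4 : 0 ≤ sq n ^ (2/3 : ℝ) := Real.rpow_nonneg (sq0 n).1.le _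
    have h5 := hN N le_rfl
    have h6 : 0 ≤ 3/2 * D * sq n ^ (2/3 : ℝ) := by positivity
    linarith
  have b1 : ∀ s ∈ Set.Ioo 0 δ, |deriv g s - a| ≤ 3/2 * D * s ^ (2/3 : ℝ) := by
    intro s hs'
    have h3 : Tendsto (fun n => |deriv g s - deriv g (sq n)|) atTop (𝓝 |deriv g s - a|) :=
      (tendsto_const_nhds.sub ha).abs
    apply le_of_tendsto h3
    filter_upwards [sq1.eventually_lt_const hs'.1] with n hn
    have h4 := m1 (sq n) s (sq0 n) hs' hn.le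
    have h5 : 0 ≤ sq n ^ (2/3 : ℝ) := Real.rpow_nonneg (sq0 n).1.le _
    have h6 : 0 ≤ 3/2 * D * sq n ^ (2/3 : ℝ) := by positivity
    linarith
  refine ⟨a, fun s hs' => ?_, ?_⟩
  · have h5 : 0 ≤ s ^ (2/3 : ℝ) := Real.rpow_nonneg hs'.1.le _
    have h6 : 0 ≤ D * s ^ (2/3 : ℝ) := by positivity
    have := b1 s hs'
    linarith
  -- the function
  have m2 : ∀ s t, s ∈ Set.Ioo 0 δ → t ∈ Set.Ioo 0 δ → s ≤ t →
      |(g t - a * t) - (g s - a * s)| ≤ 2 * D * (t ^ (5/3 : ℝ) - s ^ (5/3 : ℝ)) := by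
    intro s t h3 h4 hst
    have b2 : ∀ s ∈ Set.Ioo 0 δ, |deriv g s - a| ≤ 2 * D * (5/3 * s ^ (2/3 : ℝ)) := by
      intro s hs'
      have h5 : 0 ≤ s ^ (2/3 : ℝ) := Real.rpow_nonneg hs'.1.le _
      have h6 : 0 ≤ D * s ^ (2/3 : ℝ) := by positivity
      have := b1 s hs'
      linarith
    have k1 : ∀ s ∈ Set.Ioo 0 δ, HasDerivAt (fun s => g s - a * s) (deriv g s - a) s := by
      intro s hs'
      have := (hd1 s hs').sub ((hasDerivAt_id' s).const_mul a)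
      rw [mul_one] at this
      exact this
    have a1 := mono_of (g := fun s => 2 * D * s ^ (5/3 : ℝ) + (g s - a * s))
      (g' := fun s => 2 * D * (5/3 * s ^ ((5:ℝ)/3 - 1)) + (deriv g s - a))
      (fun s h => (pow_hd h.1).add (k1 s h)) (fun s h => by
        have := (abs_le.1 (b2 s h)).1
        rw [e2]
        linarith) h3 h4 hst
    have a2 := mono_of (g := fun s => 2 * D * s ^ (5/3 : ℝ) - (g s - a * s))
      (g' := fun s => 2 * D * (5/3 * s ^ ((5:ℝ)/3 - 1)) - (deriv g s - a))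
      (fun s h => (pow_hd h.1).sub (k1 s h)) (fun s h => by
        have := (abs_le.1 (b2 s h)).2
        rw [e2]
        linarith) h3 h4 hst
    rw [abs_le]
    constructor <;> linarith
  intro s hs'
  have sq4 : Tendsto sq atTop (𝓝[>] 0) :=
    tendsto_nhdsWithin_iff.2 ⟨sq1, Eventually.of_forall (fun n => (sq0 n).1)⟩
  have g1 : Tendsto (fun n => g (sq n)) atTop (𝓝 (g 0)) := hc.tendsto.comp sq4
  have g2 : Tendsto (fun n => a * sq n) atTop (𝓝 0) := by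
    have := sq1.const_mul a
    rwa [mul_zero] at this
  have h3 : Tendsto (fun n => |(g s - a * s) - (g (sq n) - a * sq n)|) atTop
      (𝓝 |(g s - a * s) - (g 0 - 0)|) :=
    (tendsto_const_nhds.sub (g1.sub g2)).abs
  have e3 : g s - g 0 - a * s = (g s - a * s) - (g 0 - 0) := by ring
  rw [e3]
  apply le_of_tendsto h3
  filter_upwards [sq1.eventually_lt_const hs'.1] with n hn
  have h4 := m2 (sq n) s (sq0 n) hs' hn.le
  have h5 : 0 ≤ sq n ^ (5/3 : ℝ) := Real.rpow_nonneg (sq0 n).1.le _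
  have h6 : 0 ≤ D * sq n ^ (5/3 : ℝ) := by positivity
  linarith

end Pool.Agent.H29.TL
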