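import Pool.Agent.H29.TL.LimL
import Pool.Agent.H29.TL.One

/-!
The two-point function near the critical point.
-/

set_option autoImplicit false

namespace Pool.Agent.H29.TL

open H974 hiding WW
open H12S hiding TP
open H389NS Finset Filter Topology MeasureTheory
open scoped ContDiff

/-- The bounds in the window. -/
theorem der_win : ∃ C : ℝ, 1 ≤ C ∧ ∀ x : Vtx, x ≠ (0, 0) → ∀ p : ℝ, 0 < p → p < 1 → p ≠ 1/2 →
    |p - 1/2| ≤ (nx x : ℝ) ^ (-(3/4) : ℝ) →
    ContDiffAt ℝ ∞ (tr x) p ∧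
    (∀ k : ℕ, 2 ≤ k → |iteratedDeriv k (tr x) p| ≤
      C ^ (k + 1) * k.factorial * ((nx x : ℝ) ^ (25/24 : ℝ) * |p - 1/2| ^ ((5:ℝ)/3 - k))) ∧
    |deriv (tr x) p| ≤ C * (nx x : ℝ) ^ (3/4 - 5/24 : ℝ) := by
  obtain ⟨C, hC, h⟩ := der_p
  refine ⟨2 * C, by linarith, ?_⟩
  intro x hx0 p hp0 hp1 hph hw
  obtain ⟨h1, h2, h3⟩ := h p hp0 hp1 hph x hx0
  have hV := Vp_le hx0 (p := p) (by rw [dd_nx]; exact hw)
  rw [dd_nx] at hV
  have hn1 : (1:ℝ) ≤ nx x := by exact_mod_cast nx_pos hx0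
  have hn0 : (0:ℝ) < nx x := by linarith
  have hs0 : 0 < |p - 1/2| := abs_pos.2 (sub_ne_zero.2 hph)
  refine ⟨h1, fun k hk => (h2 k hk).trans ?_, h3.trans ?_⟩
  · have e1 : 0 < |p - 1/2| ^ ((5:ℝ)/3 - k) := by positivity
    have e2 : 0 < (nx x : ℝ) ^ (25/24 : ℝ) := by positivity
    calc C ^ (k + 1) * k.factorial * (Vp p x * |p - 1/2| ^ ((5:ℝ)/3 - k))
        ≤ C ^ (k + 1) * k.factorial *
          ((2 * (nx x : ℝ) ^ (25/24 : ℝ)) * |p - 1/2| ^ ((5:ℝ)/3 - k)) := by
          apply mul_le_mul_of_nonneg_left _ (by positivity)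
          exact mul_le_mul_of_nonneg_right hV e1.le
      _ = 2 * C ^ (k + 1) * (k.factorial *
          ((nx x : ℝ) ^ (25/24 : ℝ) * |p - 1/2| ^ ((5:ℝ)/3 - k))) := by ring
      _ ≤ (2 * C) ^ (k + 1) * (k.factorial *
          ((nx x : ℝ) ^ (25/24 : ℝ) * |p - 1/2| ^ ((5:ℝ)/3 - k))) := by
          apply mul_le_mul_of_nonneg_right _ (by positivity)
          rw [mul_pow]
          apply mul_le_mul_of_nonneg_right _ (by positivity)
          have : (1:ℝ) ≤ 2 ^ k := one_le_pow₀ (by norm_num)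
          rw [pow_succ]
          linarith
      _ = _ := by ring
  · have e1 : 0 < (nx x : ℝ) ^ (-(1/2) : ℝ) := by positivity
    calc C * Vp p x * (nx x : ℝ) ^ (-(1/2) : ℝ)
        ≤ C * (2 * (nx x : ℝ) ^ (25/24 : ℝ)) * (nx x : ℝ) ^ (-(1/2) : ℝ) := by
          apply mul_le_mul_of_nonneg_right _ e1.le
          exact mul_le_mul_of_nonneg_left hV (by linarith)
      _ = 2 * C * ((nx x : ℝ) ^ (25/24 : ℝ) * (nx x : ℝ) ^ (-(1/2) : ℝ)) := by ring
      _ = _ := by
          rw [← Real.rpow_add hn0]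
          norm_num

/-- The expansion at the critical point. -/
theorem crit : ∃ C : ℝ, 1 ≤ C ∧ ∀ x : Vtx, x ≠ (0, 0) → ∃ a : ℝ, HasDerivAt (tr x) a (1/2) ∧
    ∀ p : ℝ, 0 < p → p < 1 → |p - 1/2| < (nx x : ℝ) ^ (-(3/4) : ℝ) →
      |deriv (tr x) p - a| ≤ C * ((nx x : ℝ) ^ (25/24 : ℝ) * |p - 1/2| ^ (2/3 : ℝ)) ∧
      |tr x p - tr x (1/2) - a * (p - 1/2)| ≤
        C * ((nx x : ℝ) ^ (25/24 : ℝ) * |p - 1/2| ^ (5/3 : ℝ)) := by
  obtain ⟨C, hC, h⟩ := der_win
  refine ⟨4 * C ^ 3, by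
    have : 1 ≤ C ^ 3 := one_le_pow₀ hC
    linarith, ?_⟩
  intro x hx0
  have hn1 : (1:ℝ) ≤ nx x := by exact_mod_cast nx_pos hx0
  have hn0 : (0:ℝ) < nx x := by linarith
  obtain ⟨W, hW⟩ : ∃ W : ℝ, W = (nx x : ℝ) ^ (25/24 : ℝ) := ⟨_, rfl⟩
  have hW0 : 0 < W := by rw [hW]; positivity
  obtain ⟨δ, hδ⟩ : ∃ δ : ℝ, δ = min (1/2) ((nx x : ℝ) ^ (-(3/4) : ℝ)) := ⟨_, rfl⟩
  have hδ0 : 0 < δ := by rw [hδ]; exact lt_min (by norm_num) (by positivity)
  have hδ1 : δ ≤ 1/2 := by rw [hδ]; exact min_le_left _ _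
  have hδ2 : δ ≤ (nx x : ℝ) ^ (-(3/4) : ℝ) := by rw [hδ]; exact min_le_right _ _
  obtain ⟨D, hD⟩ : ∃ D : ℝ, D = 2 * C ^ 3 * W := ⟨_, rfl⟩
  have hD0 : 0 ≤ D := by rw [hD]; positivity
  have hc : ContinuousAt (tr x) (1/2) :=
    (tr_cont x).continuousAt (Icc_mem_nhds (by norm_num) (by norm_num))
  have hk2 : ∀ p : ℝ, 0 < p → p < 1 → p ≠ 1/2 → |p - 1/2| < δ →
      ContDiffAt ℝ ∞ (tr x) p ∧ |deriv (deriv (tr x)) p| ≤ D * |p - 1/2| ^ (-(1/3) : ℝ) := by
    intro p hp0 hp1 hph hp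
    obtain ⟨h1, h2, h3⟩ := h x hx0 p hp0 hp1 hph (hp.le.trans hδ2)
    refine ⟨h1, ?_⟩
    have h4 := h2 2 le_rfl
    have e : iteratedDeriv 2 (tr x) p = deriv (deriv (tr x)) p := by
      rw [iteratedDeriv_succ, iteratedDeriv_one]
    rw [e, ← hW] at h4
    refine h4.trans (le_of_eq ?_)
    have e2 : ((5:ℝ)/3 - (2:ℕ)) = -(1/3) := by push_cast; norm_num
    rw [e2, hD]
    push_cast
    norm_num [Nat.factorial]
    ring
  -- right
  obtain ⟨a1, r1, r2⟩ := one_side (g := fun s => tr x (1/2 + s)) hδ0 hD0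
    (by
      apply ContinuousAt.continuousWithinAt
      apply ContinuousAt.comp (g := tr x) (f := fun s : ℝ => 1/2 + s)
      · rw [add_zero]; exact hc
      · fun_prop)
    (by
      intro s hs
      have h1 := (hk2 (1/2 + s) (by linarith [hs.1]) (by linarith [hs.2]) (by linarith [hs.1])
        (by rw [add_sub_cancel_left, abs_of_pos hs.1]; exact hs.2)).1
      exact ContDiffAt.comp (g := tr x) (f := fun s : ℝ => 1/2 + s) s h1 (by fun_prop))
    (by
      intro s hs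
      have h1 := (hk2 (1/2 + s) (by linarith [hs.1]) (by linarith [hs.2]) (by linarith [hs.1])
        (by rw [add_sub_cancel_left, abs_of_pos hs.1]; exact hs.2)).2
      rw [add_sub_cancel_left, abs_of_pos hs.1] at h1
      have e1 : deriv (fun s => tr x (1/2 + s)) = fun s => deriv (tr x) (1/2 + s) := by
        funext s
        exact deriv_comp_const_add (tr x) (1/2) s
      rw [e1, deriv_comp_const_add]
      exact h1)
  -- left
  have hleft : ∀ s ∈ Set.Ioo 0 δ, 0 < 1/2 - s ∧ 1/2 - s < 1 ∧ 1/2 - s ≠ 1/2 ∧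
      |1/2 - s - 1/2| < δ ∧ |1/2 - s - 1/2| = s := by
    intro s hs
    have e : |1/2 - s - 1/2| = s := by
      rw [show (1/2 - s - 1/2 : ℝ) = -s by ring, abs_neg, abs_of_pos hs.1]
    refine ⟨by linarith [hs.2], by linarith [hs.1], by linarith [hs.1], by rw [e]; exact hs.2, e⟩
  obtain ⟨a2, l1, l2⟩ := one_side (g := fun s => tr x (1/2 - s)) hδ0 hD0
    (by
      apply ContinuousAt.continuousWithinAt
      apply ContinuousAt.comp (g := tr x) (f := fun s : ℝ => 1/2 - s)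
      · rw [sub_zero]; exact hc
      · fun_prop)
    (by
      intro s hs
      obtain ⟨q1, q2, q3, q4, q5⟩ := hleft s hs
      have h1 := (hk2 (1/2 - s) q1 q2 q3 q4).1
      exact ContDiffAt.comp (g := tr x) (f := fun s : ℝ => 1/2 - s) s h1 (by fun_prop))
    (by
      intro s hs
      obtain ⟨q1, q2, q3, q4, q5⟩ := hleft s hs
      have h1 := (hk2 (1/2 - s) q1 q2 q3 q4).2
      rw [q5] at h1
      have e1 : deriv (fun s => tr x (1/2 - s)) = fun s => -deriv (tr x) (1/2 - s) := by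
        funext s
        exact deriv_comp_const_sub (tr x) (1/2) s
      rw [e1, deriv.fun_neg, deriv_comp_const_sub, neg_neg]
      exact h1)
  simp only [add_zero, sub_zero] at r2 l2
  -- the two slopes agree
  have hab : a1 + a2 = 0 := by
    obtain ⟨K, t, hK, ht, ht0, -, hs⟩ := sym_diff x hx0
    have h1 : Tendsto (fun n => (K + 4 * D) * t n ^ (2/3 : ℝ)) atTop (𝓝 0) := by
      have h3 := (ht.rpow_const (p := (2/3 : ℝ)) (Or.inr (by norm_num))).const_mul (K + 4 * D)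
      rw [Real.zero_rpow (by norm_num), mul_zero] at h3
      exact h3
    have h2 : |a1 + a2| ≤ 0 := by
      apply ge_of_tendsto h1
      filter_upwards [ht.eventually_lt_const hδ0] with n hn
      have hnI : t n ∈ Set.Ioo 0 δ := ⟨ht0 n, hn⟩
      have f1 := r2 _ hnI
      have f2 := l2 _ hnI
      have f3 := hs n
      obtain ⟨s, hs'⟩ : ∃ s, s = t n := ⟨_, rfl⟩
      have hs0 : 0 < s := by rw [hs']; exact ht0 n
      rw [← hs'] at f1 f2 f3 ⊢
      have e1 : s ^ (5/3 : ℝ) = s ^ (2/3 : ℝ) * s := by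
        have := Real.rpow_add_one hs0.ne' (2/3)
        rw [← this]
        norm_num
      have f4 : |(a1 + a2) * s| ≤ (K + 4 * D) * s ^ (5/3 : ℝ) := by
        rw [abs_le] at f1 f2 f3 ⊢
        constructor <;> linarith [f1.1, f1.2, f2.1, f2.2, f3.1, f3.2]
      rw [abs_mul, abs_of_pos hs0, e1, ← mul_assoc] at f4
      exact le_of_mul_le_mul_right f4 hs0
    exact abs_nonpos_iff.1 h2
  have ha2 : a2 = -a1 := by linarith
  -- the expansion
  have hex : ∀ p : ℝ, p ≠ 1/2 → |p - 1/2| < δ →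
      |deriv (tr x) p - a1| ≤ 2 * D * |p - 1/2| ^ (2/3 : ℝ) ∧
      |tr x p - tr x (1/2) - a1 * (p - 1/2)| ≤ 2 * D * |p - 1/2| ^ (5/3 : ℝ) := by
    intro p hph hp
    rcases lt_or_gt_of_ne hph with h1 | h1
    · obtain ⟨s, hs⟩ : ∃ s : ℝ, s = 1/2 - p := ⟨_, rfl⟩
      have e1 : |p - 1/2| = s := by rw [abs_sub_comm, ← hs, abs_of_pos (by rw [hs]; linarith)]
      have e2 : p = 1/2 - s := by rw [hs]; ring
      rw [e1] at hp ⊢
      have hsI : s ∈ Set.Ioo 0 δ := ⟨by rw [hs]; linarith, hp⟩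
      have f1 := l1 s hsI
      have f2 := l2 s hsI
      rw [deriv_comp_const_sub, ← e2, ha2] at f1
      rw [← e2, ha2] at f2
      constructor
      · have e3 : -deriv (tr x) p - -a1 = -(deriv (tr x) p - a1) := by ring
        rw [e3, abs_neg] at f1
        exact f1
      · have e3 : tr x p - tr x (1/2) - -a1 * s = tr x p - tr x (1/2) - a1 * (p - 1/2) := by
          rw [hs]; ring
        rw [e3] at f2
        exact f2
    · obtain ⟨s, hs⟩ : ∃ s : ℝ, s = p - 1/2 := ⟨_, rfl⟩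
      have e1 : |p - 1/2| = s := by rw [← hs, abs_of_pos (by rw [hs]; linarith)]
      have e2 : p = 1/2 + s := by rw [hs]; ring
      rw [e1] at hp ⊢
      have hsI : s ∈ Set.Ioo 0 δ := ⟨by rw [hs]; linarith, hp⟩
      have f1 := r1 s hsI
      have f2 := r2 s hsI
      rw [deriv_comp_const_add, ← e2] at f1
      rw [← e2] at f2
      refine ⟨f1, ?_⟩
      rw [← hs]
      exact f2
  have hda : HasDerivAt (tr x) a1 (1/2) := by
    rw [hasDerivAt_iff_isLittleO]
    have hO : (fun y => tr x y - tr x (1/2) - (y - 1/2) • a1) =O[𝓝 (1/2)]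
        (fun y => |y - 1/2| ^ (5/3 : ℝ)) := by
      apply Asymptotics.IsBigO.of_bound (2 * D)
      have hn : ∀ᶠ y : ℝ in 𝓝 (1/2), |y - 1/2| < δ := by
        have hcc : Continuous fun y : ℝ => |y - 1/2| := by fun_prop
        apply (hcc.tendsto (1/2)).eventually_lt_const
        rw [sub_self, abs_zero]
        exact hδ0
      filter_upwards [hn] with y hy
      rw [smul_eq_mul, mul_comm, Real.norm_eq_abs, Real.norm_eq_abs,
        abs_of_nonneg (Real.rpow_nonneg (abs_nonneg (y - 1/2)) (5/3 : ℝ))]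
      by_cases hyh : y = 1/2
      · rw [hyh]
        simp
      · exact (hex y hyh hy).2
    refine hO.trans_isLittleO ?_
    rw [Asymptotics.isLittleO_iff]
    intro ε hε
    have hcc : Continuous fun y : ℝ => |y - 1/2| ^ (2/3 : ℝ) := by
      apply Continuous.rpow_const (by fun_prop)
      intro _
      right
      norm_num
    have hn : ∀ᶠ y : ℝ in 𝓝 (1/2), |y - 1/2| ^ (2/3 : ℝ) < ε := by
      apply (hcc.tendsto (1/2)).eventually_lt_const
      rw [sub_self, abs_zero, Real.zero_rpow (by norm_num)]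
      exact hε
    filter_upwards [hn] with y hy
    rw [Real.norm_eq_abs, Real.norm_eq_abs,
        abs_of_nonneg (Real.rpow_nonneg (abs_nonneg (y - 1/2)) (5/3 : ℝ))]
    by_cases hyh : y = 1/2
    · rw [hyh]
      norm_num
    · have hy0 : 0 < |y - 1/2| := abs_pos.2 (sub_ne_zero.2 hyh)
      have e1 : |y - 1/2| ^ (5/3 : ℝ) = |y - 1/2| ^ (2/3 : ℝ) * |y - 1/2| := by
        have := Real.rpow_add_one hy0.ne' (2/3)
        rw [← this]
        norm_num
      rw [e1]
      exact mul_le_mul_of_nonneg_right hy.le hy0.le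
  refine ⟨a1, hda, ?_⟩
  intro p hp0 hp1 hp
  rw [← hW]
  have e4 : 4 * C ^ 3 * (W * |p - 1/2| ^ (2/3 : ℝ)) = 2 * D * |p - 1/2| ^ (2/3 : ℝ) := by
    rw [hD]; ring
  have e5 : 4 * C ^ 3 * (W * |p - 1/2| ^ (5/3 : ℝ)) = 2 * D * |p - 1/2| ^ (5/3 : ℝ) := by
    rw [hD]; ring
  rw [e4, e5]
  by_cases hph : p = 1/2
  · rw [hph, hda.deriv]
    norm_num
  · apply hex p hph
    rw [hδ]
    apply lt_min _ hp
    rw [abs_lt]
    constructor <;> linarith

/-- The two-point function is continuously differentiable. -/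
theorem tr_c1 {x : Vtx} (hx0 : x ≠ (0, 0)) : ContDiffOn ℝ 1 (tr x) (Set.Ioo 0 1) := by
  obtain ⟨C, hC, h⟩ := crit
  obtain ⟨a, h1, h2⟩ := h x hx0
  obtain ⟨C', -, h'⟩ := der_p
  have hn1 : (1:ℝ) ≤ nx x := by exact_mod_cast nx_pos hx0
  have hn0 : (0:ℝ) < nx x := by linarith
  have key : ContDiffOn ℝ (0 + 1) (tr x) (Set.Ioo 0 1) := by
    rw [contDiffOn_succ_iff_deriv_of_isOpen isOpen_Ioo]
    refine ⟨?_, by simp, ?_⟩
    · intro p hp
      by_cases hph : p = 1/2
      · rw [hph]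
        exact h1.differentiableAt.differentiableWithinAt
      · exact ((h' p hp.1 hp.2 hph x hx0).1.differentiableAt
          (by simp)).differentiableWithinAt
    · rw [contDiffOn_zero]
      intro p hp
      apply ContinuousAt.continuousWithinAt
      by_cases hph : p = 1/2
      · rw [hph]
        unfold ContinuousAt
        rw [h1.deriv, tendsto_iff_norm_sub_tendsto_zero]
        have hcc : Continuous fun y : ℝ => C * ((nx x : ℝ) ^ (25/24 : ℝ) *
            |y - 1/2| ^ (2/3 : ℝ)) := by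
          apply Continuous.mul continuous_const
          apply Continuous.mul continuous_const
          apply Continuous.rpow_const (by fun_prop)
          intro _
          right
          norm_num
        have h3 := hcc.tendsto (1/2)
        rw [sub_self, abs_zero, Real.zero_rpow (by norm_num), mul_zero, mul_zero] at h3
        refine squeeze_zero' (Eventually.of_forall (fun _ => norm_nonneg _)) ?_ h3
        have hn : ∀ᶠ y : ℝ in 𝓝 (1/2), |y - 1/2| < (nx x : ℝ) ^ (-(3/4) : ℝ) := by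
          have hcc : Continuous fun y : ℝ => |y - 1/2| := by fun_prop
          apply (hcc.tendsto (1/2)).eventually_lt_const
          rw [sub_self, abs_zero]
          positivity
        have hn0' : ∀ᶠ y : ℝ in 𝓝 (1/2), 0 < y := lt_mem_nhds (by norm_num)
        have hn1' : ∀ᶠ y : ℝ in 𝓝 (1/2), y < 1 := gt_mem_nhds (by norm_num)
        filter_upwards [hn, hn0', hn1'] with y g1 g2 g3
        rw [Real.norm_eq_abs]
        exact (h2 y g2 g3 g1).1
      · have h3 : ∀ᶠ q in 𝓝 p, q ∈ Set.Ioo 0 1 \ {1/2} :=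
          (isOpen_Ioo.sdiff isClosed_singleton).mem_nhds ⟨hp, hph⟩
        have h4 : ContDiffOn ℝ ∞ (tr x) (Set.Ioo 0 1 \ {1/2}) := fun q hq =>
          (h' q hq.1.1 hq.1.2 hq.2 x hx0).1.contDiffWithinAt
        have h5 := h4.deriv_of_isOpen (isOpen_Ioo.sdiff isClosed_singleton) (m := ∞) (by simp)
        exact (h5.continuousOn).continuousAt h3
  rwa [zero_add] at key

end Pool.Agent.H29.TL
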