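import Pool.Agent.H29.TH.Win

/-!
Finite differences and derivatives.
-/

set_option autoImplicit false

namespace Pool.Agent.H29.TL

open Finset
open scoped ContDiff

/-- The mean value theorem for the difference of order `k`. -/
theorem fd_mean (k : ℕ) : ∀ (f : ℝ → ℝ) (a h u v : ℝ), 0 < h → u < a → a + k * h < v →
    (∀ y ∈ Set.Ioo u v, ContDiffAt ℝ ∞ f y) →
    ∃ ξ, a ≤ ξ ∧ ξ ≤ a + k * h ∧ (fwdDiff h)^[k] f a = h ^ k * iteratedDeriv k f ξ := by
  induction k with
  | zero =>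
    intro f a h u v hh hu hv hf
    refine ⟨a, le_rfl, by simp, ?_⟩
    simp
  | succ k ih =>
    intro f a h u v hh hu hv hf
    push_cast at hv
    have hk0 : (0:ℝ) ≤ k * h := by positivity
    -- the first difference
    obtain ⟨g, hg⟩ : ∃ g : ℝ → ℝ, g = fun y => f (y + h) - f y := ⟨_, rfl⟩
    have hgs : ∀ y ∈ Set.Ioo u (v - h), ContDiffAt ℝ ∞ g y := by
      intro y hy
      rw [hg]
      have h1 : ContDiffAt ℝ ∞ f (y + h) := hf _ ⟨by linarith [hy.1], by linarith [hy.2]⟩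
      have h2 : ContDiffAt ℝ ∞ f y := hf _ ⟨hy.1, by linarith [hy.2]⟩
      exact (ContDiffAt.comp (g := f) (f := fun y : ℝ => y + h) y h1 (by fun_prop)).sub h2
    obtain ⟨ξ, h1, h2, h3⟩ := ih g a h u (v - h) hh hu (by linarith) hgs
    have hξ : ξ ∈ Set.Ioo u v := ⟨by linarith, by linarith⟩
    have hξ2 : ξ + h ∈ Set.Ioo u v := ⟨by linarith, by linarith⟩
    -- the derivative of the difference
    have e1 : iteratedDeriv k g ξ = iteratedDeriv k f (ξ + h) - iteratedDeriv k f ξ := by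
      rw [hg]
      have c1 : ContDiffAt ℝ k (fun y => f (y + h)) ξ := by
        have := ContDiffAt.comp (g := f) (f := fun y : ℝ => y + h) (n := ∞) ξ (hf _ hξ2)
          (by fun_prop)
        exact this.of_le (by exact_mod_cast le_top)
      have c2 : ContDiffAt ℝ k f ξ := (hf _ hξ).of_le (by exact_mod_cast le_top)
      have e2 := iteratedDeriv_sub c1 c2
      have e3 : iteratedDeriv k (fun y => f (y + h)) ξ = iteratedDeriv k f (ξ + h) := by
        rw [iteratedDeriv_comp_add_const]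
      rw [← e3]
      exact e2
    -- the mean value theorem
    have hd : ∀ y ∈ Set.Ioo u v, HasDerivAt (iteratedDeriv k f) (iteratedDeriv (k + 1) f y) y :=
      fun y hy => Pool.Agent.H29.Win.hasDeriv_iter (hf y hy) k
    obtain ⟨η, hη, hs⟩ := exists_hasDerivAt_eq_slope (iteratedDeriv k f)
      (iteratedDeriv (k + 1) f) (a := ξ) (b := ξ + h) (by linarith)
      (fun y hy => (hd y ⟨by linarith [hy.1, hξ.1], by linarith [hy.2, hξ2.2]⟩).continuousAt.continuousWithinAt)
      (fun y hy => hd y ⟨by linarith [hy.1, hξ.1], by linarith [hy.2, hξ2.2]⟩)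
    refine ⟨η, by linarith [hη.1], by push_cast; linarith [hη.2], ?_⟩
    have e4 : iteratedDeriv k f (ξ + h) - iteratedDeriv k f ξ = h * iteratedDeriv (k + 1) f η := by
      rw [hs]
      have : ξ + h - ξ = h := by ring
      rw [this]
      field_simp
    rw [pow_succ, mul_assoc, ← e4, ← e1, ← h3, hg, Function.iterate_succ_apply]
    rfl

/-- A large derivative. -/
theorem fd_low {k : ℕ} {f : ℝ → ℝ} {a h u v m m' : ℝ} (hh : 0 < h) (hu : u < a)
    (hv : a + k * h < v) (hf : ∀ y ∈ Set.Ioo u v, ContDiffAt ℝ ∞ f y)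
    (hm0 : 0 ≤ m) (h1 : 2 * m' ≤ f (a + k * h)) (h2 : ∀ j < k, |f (a + j * h)| ≤ m) (h3 : 2 ^ k * m ≤ m') :
    ∃ ξ, a ≤ ξ ∧ ξ ≤ a + k * h ∧ m' ≤ h ^ k * iteratedDeriv k f ξ := by
  obtain ⟨ξ, k1, k2, k3⟩ := fd_mean k f a h u v hh hu hv hf
  refine ⟨ξ, k1, k2, ?_⟩
  rw [← k3, fwdDiff_iter_eq_sum_shift, Finset.sum_range_succ]
  have e1 : ((-1 : ℤ) ^ (k - k) * (k.choose k : ℤ)) • f (a + k • h) = f (a + k * h) := by
    simp
  rw [e1]
  have e2 : |∑ j ∈ range k, ((-1 : ℤ) ^ (k - j) * (k.choose j : ℤ)) • f (a + j • h)| ≤ m' := by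
    refine (Finset.abs_sum_le_sum_abs _ _).trans (le_trans ?_ h3)
    have e3 : (2:ℝ) ^ k = ∑ j ∈ range (k + 1), (k.choose j : ℝ) := by
      have := Nat.sum_range_choose k
      exact_mod_cast this.symm
    rw [e3, Finset.sum_mul, Finset.sum_range_succ]
    have e4 : 0 ≤ (k.choose k : ℝ) * m := by positivity
    refine le_trans ?_ (le_add_of_nonneg_right e4)
    apply Finset.sum_le_sum
    intro j hj
    rw [mem_range] at hj
    have e5 : ((-1 : ℤ) ^ (k - j) * (k.choose j : ℤ)) • f (a + j • h) =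
        (-1) ^ (k - j) * (k.choose j : ℝ) * f (a + j * h) := by
      simp
    rw [e5, abs_mul, abs_mul, abs_pow, abs_neg, abs_one, one_pow, one_mul, Nat.abs_cast]
    exact mul_le_mul_of_nonneg_left (h2 j hj) (by positivity)
  have := (abs_le.1 e2).1
  linarith

end Pool.Agent.H29.TL
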