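import Pool.Graph.R_pool_sql_team_seeded_3dad9d7b.NH39.W.SecA

/-!
Analytic continuation of a real function with bounds for all its derivatives to a double sector,
nonnegative exponents, with a prefactor.
-/

set_option autoImplicit false

namespace Pool.Agent.H29.SecL

open Set Filter Topology
open Pool.Agent.NH39.W.SecA (co G tay G_diff G_sum norm_sub_re)
open scoped ContDiff Nat

/-- the hypotheses -/
structure Hyp (f : ℝ → ℝ) (C D β b : ℝ) : Prop where
  hC : 1 ≤ C
  hD : 0 < D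
  hβ : 0 ≤ β
  smooth : ∀ p : ℝ, p ≠ 1/2 → |p - 1/2| < b → ContDiffAt ℝ ∞ f p
  der : ∀ p : ℝ, p ≠ 1/2 → |p - 1/2| < b → ∀ k : ℕ,
    |iteratedDeriv k f p| ≤ C ^ (k + 1) * k.factorial * (D * |p - 1/2| ^ (β - k))

section
variable {f : ℝ → ℝ} {C D β b : ℝ}

theorem co_le (H : Hyp f C D β b) {p : ℝ} (h0 : p ≠ 1/2) (h1 : |p - 1/2| < b) (k : ℕ) :
    |co f p k| ≤ (C * D * |p - 1/2| ^ β) * (C / |p - 1/2|) ^ k := by
  have hs : 0 < |p - 1/2| := abs_pos.2 (sub_ne_zero.2 h0)
  have hf : (0 : ℝ) < k ! := by exact_mod_cast Nat.factorial_pos k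
  unfold co
  rw [abs_div, abs_of_pos hf, div_le_iff₀ hf]
  refine (H.der p h0 h1 k).trans (le_of_eq ?_)
  rw [Real.rpow_sub_natCast hs.ne', div_pow, pow_succ]
  obtain ⟨s, hs'⟩ : ∃ s : ℝ, s = |p - 1/2| := ⟨_, rfl⟩
  rw [← hs'] at hs ⊢
  field_simp

/-- `G f p` is holomorphic near `p` -/
theorem G_hol (H : Hyp f C D β b) {p : ℝ} (h0 : p ≠ 1/2) (h1 : |p - 1/2| < b) :
    DifferentiableOn ℂ (G f p) (Metric.ball (p : ℂ) (|p - 1/2| / (4 * C))) := by
  have hs : 0 < |p - 1/2| := abs_pos.2 (sub_ne_zero.2 h0)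
  have hC : 0 < C := lt_of_lt_of_le one_pos H.hC
  refine (G_diff (div_pos hC hs) (co_le H h0 h1)).mono (Metric.ball_subset_ball ?_)
  generalize |p - 1/2| = s at hs
  rw [div_le_div_iff₀ (by positivity) (by positivity)]
  field_simp
  norm_num

/-- `G f p` extends `f` -/
theorem G_real (H : Hyp f C D β b) {p : ℝ} (h0 : p ≠ 1/2) (h1 : |p - 1/2| < b) {x : ℝ}
    (hx1 : |x - 1/2| < b) (hx : |x - p| < |p - 1/2| / (4 * C)) : G f p x = f x := by
  have hs : 0 < |p - 1/2| := abs_pos.2 (sub_ne_zero.2 h0)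
  have hC : 0 < C := lt_of_lt_of_le one_pos H.hC
  have hC1 := H.hC
  have hD := H.hD
  obtain ⟨s, hsdef⟩ : ∃ s, s = |p - 1/2| := ⟨_, rfl⟩
  rw [← hsdef] at hs hx
  have hx4 : |x - p| < s / 4 := by
    refine lt_of_lt_of_le hx ?_
    rw [div_le_div_iff₀ (by positivity) (by norm_num)]
    nlinarith
  -- the points between
  have hbet : ∀ y ∈ uIcc p x, y ≠ 1/2 ∧ |y - 1/2| < b ∧ s / 2 ≤ |y - 1/2| ∧ |y - 1/2| ≤ 2 * s := by
    intro y hy
    have hy1 : |y - p| ≤ |x - p| := abs_sub_left_of_mem_uIcc hy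
    have t1 : |p - 1/2| ≤ |y - 1/2| + |y - p| := by
      have := abs_sub_abs_le_abs_sub (p - 1/2) (y - 1/2)
      have e : p - 1/2 - (y - 1/2) = -(y - p) := by ring
      rw [e, abs_neg] at this
      linarith
    have t2 : |y - 1/2| ≤ |p - 1/2| + |y - p| := by
      have := abs_add_le (p - 1/2) (y - p)
      have e : p - 1/2 + (y - p) = y - 1/2 := by ring
      rw [e] at this
      exact this
    rw [← hsdef] at t1 t2
    have t3 : s / 2 ≤ |y - 1/2| := by linarith
    refine ⟨?_, ?_, t3, by linarith⟩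
    · intro h
      rw [h, sub_self, abs_zero] at t3
      linarith
    · have hsub : uIcc p x ⊆ Ioo (1/2 - b) (1/2 + b) := by
        apply (ordConnected_Ioo).uIcc_subset
        · rw [hsdef] at *
          rw [abs_lt] at h1
          constructor <;> linarith
        · rw [abs_lt] at hx1
          constructor <;> linarith
      have := hsub hy
      rw [abs_lt]
      constructor <;> linarith [this.1, this.2]
  have hcp := co_le H h0 h1
  rw [← hsdef] at hcp
  -- summability
  have hsum : Summable fun k : ℕ => co f p k * (x - p) ^ k := by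
    have h3 := G_sum (z := (x : ℂ)) (div_pos hC hs) hcp (by
      rw [← Complex.ofReal_sub, Complex.norm_real, Real.norm_eq_abs]
      refine hx.le.trans ?_
      rw [div_le_div_iff₀ (by positivity) (by positivity)]
      field_simp
      norm_num)
    rw [← Complex.summable_ofReal]
    refine h3.congr fun k => ?_
    push_cast
    rfl
  have hlim : Tendsto (fun n => ∑ k ∈ Finset.range (n + 1), co f p k * (x - p) ^ k) atTop
      (𝓝 (f x)) := by
    by_cases hpx : p = x
    · subst hpx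
      have : ∀ n, ∑ k ∈ Finset.range (n + 1), co f p k * (p - p) ^ k = f p := by
        intro n
        rw [Finset.sum_range_succ']
        simp [co]
      simp only [this]
      exact tendsto_const_nhds
    · have hbd : ∀ n : ℕ, |∑ k ∈ Finset.range (n + 1), co f p k * (x - p) ^ k - f x| ≤
          (C * D * (2 * s) ^ β) * (1 / 2) ^ (n + 1) := by
        intro n
        obtain ⟨y, hy, h⟩ := tay hpx (fun y hy => H.smooth y (hbet y hy).1 (hbet y hy).2.1) n
        have hyI : y ∈ uIcc p x := uIoo_subset_uIcc_self hy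
        obtain ⟨hy0, hy1, hy2, hy3⟩ := hbet y hyI
        rw [abs_sub_comm, h, abs_mul, abs_pow]
        have h3 := co_le H hy0 hy1 (n + 1)
        have hyp : 0 < |y - 1/2| := by linarith
        have h5 : |y - 1/2| ^ β ≤ (2 * s) ^ β := Real.rpow_le_rpow hyp.le hy3 H.hβ
        have h6 : (C / |y - 1/2|) * |x - p| ≤ 1 / 2 := by
          rw [div_mul_eq_mul_div, div_le_iff₀ hyp]
          have h8 : |x - p| * (4 * C) < s := (lt_div_iff₀ (by positivity)).1 hx
          nlinarith
        calc |co f y (n + 1)| * |x - p| ^ (n + 1)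
            ≤ ((C * D * |y - 1/2| ^ β) * (C / |y - 1/2|) ^ (n + 1)) * |x - p| ^ (n + 1) :=
              mul_le_mul_of_nonneg_right h3 (by positivity)
          _ = (C * D * |y - 1/2| ^ β) * ((C / |y - 1/2|) * |x - p|) ^ (n + 1) := by
              rw [mul_assoc, mul_pow]
          _ ≤ (C * D * (2 * s) ^ β) * (1 / 2) ^ (n + 1) := by
              apply mul_le_mul (mul_le_mul_of_nonneg_left h5 (by positivity))
                (pow_le_pow_left₀ (by positivity) h6 _) (by positivity) (by positivity)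
      rw [tendsto_iff_norm_sub_tendsto_zero]
      refine squeeze_zero (fun n => norm_nonneg _) hbd ?_
      have h3 : Tendsto (fun n : ℕ => ((1 : ℝ) / 2) ^ (n + 1)) atTop (𝓝 0) :=
        (tendsto_pow_atTop_nhds_zero_of_lt_one (by norm_num) (by norm_num)).comp
          (tendsto_add_atTop_nat 1)
      have h4 := h3.const_mul (C * D * (2 * s) ^ β)
      rwa [mul_zero] at h4
  have hval : ∑' k : ℕ, co f p k * (x - p) ^ k = f x := by
    have h3 := hsum.hasSum.tendsto_sum_nat
    have h4 := h3.comp (tendsto_add_atTop_nat 1)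
    exact tendsto_nhds_unique h4 hlim
  unfold G
  rw [← hval, Complex.ofReal_tsum]
  refine tsum_congr fun k => ?_
  push_cast
  rfl

/-- two series agree -/
theorem G_agree (H : Hyp f C D β b) {p q : ℝ} (h0 : p ≠ 1/2) (h1 : |p - 1/2| < b)
    (g0 : q ≠ 1/2) (g1 : |q - 1/2| < b) (hpq : |p - q| < |q - 1/2| / (4 * C)) {z : ℂ}
    (hz : z ∈ Metric.ball (p : ℂ) (|p - 1/2| / (4 * C)))
    (hz' : z ∈ Metric.ball (q : ℂ) (|q - 1/2| / (4 * C))) : G f p z = G f q z := by
  have hs : 0 < |p - 1/2| := abs_pos.2 (sub_ne_zero.2 h0)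
  have hC : 0 < C := lt_of_lt_of_le one_pos H.hC
  set U := Metric.ball (p : ℂ) (|p - 1/2| / (4 * C)) ∩ Metric.ball (q : ℂ) (|q - 1/2| / (4 * C))
    with hU
  have hUo : IsOpen U := Metric.isOpen_ball.inter Metric.isOpen_ball
  have hUc : IsPreconnected U := ((convex_ball _ _).inter (convex_ball _ _)).isPreconnected
  have hpU : (p : ℂ) ∈ U := by
    refine ⟨Metric.mem_ball_self (by positivity), ?_⟩
    rw [Metric.mem_ball, dist_eq_norm, ← Complex.ofReal_sub, Complex.norm_real, Real.norm_eq_abs]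
    exact hpq
  have hA : AnalyticOnNhd ℂ (G f p) U :=
    ((G_hol H h0 h1).mono inter_subset_left).analyticOnNhd hUo
  have hB : AnalyticOnNhd ℂ (G f q) U :=
    ((G_hol H g0 g1).mono inter_subset_right).analyticOnNhd hUo
  refine hA.eqOn_of_preconnected_of_frequently_eq hB hUc hpU ?_ ⟨hz, hz'⟩
  -- frequently equal
  have ht : Tendsto (fun x : ℝ => (x : ℂ)) (𝓝[≠] p) (𝓝[≠] (p : ℂ)) := by
    apply tendsto_nhdsWithin_of_tendsto_nhds_of_eventually_within
    · exact (Complex.continuous_ofReal.tendsto p).mono_left nhdsWithin_le_nhds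
    · filter_upwards [self_mem_nhdsWithin] with x hx
      intro h
      exact hx (Complex.ofReal_injective h)
  refine ht.frequently ?_
  refine Eventually.frequently ?_
  have e1 : ∀ᶠ x : ℝ in 𝓝[≠] p, |x - 1/2| < b := by
    apply nhdsWithin_le_nhds
    have hc : Continuous fun x : ℝ => |x - 1/2| := by fun_prop
    exact (hc.tendsto p).eventually_lt_const h1
  have e2 : ∀ᶠ x : ℝ in 𝓝[≠] p, |x - p| < |p - 1/2| / (4 * C) := by
    apply nhdsWithin_le_nhds
    have hc : Continuous fun x : ℝ => |x - p| := by fun_prop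
    apply (hc.tendsto p).eventually_lt_const
    rw [sub_self, abs_zero]
    positivity
  have e3 : ∀ᶠ x : ℝ in 𝓝[≠] p, |x - q| < |q - 1/2| / (4 * C) := by
    apply nhdsWithin_le_nhds
    have hc : Continuous fun x : ℝ => |x - q| := by fun_prop
    exact (hc.tendsto p).eventually_lt_const hpq
  filter_upwards [e1, e2, e3] with x x1 x2 x3
  rw [G_real H h0 h1 x1 x2, G_real H g0 g1 x1 x3]

/-- the double sector -/
def sct (c b : ℝ) : Set ℂ := {z | |z.re - 1/2| < b ∧ |z.im| < c * |z.re - 1/2|}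

theorem sct_ne {c b : ℝ} (hc : 0 < c) {z : ℂ} (hz : z ∈ sct c b) : z.re ≠ 1/2 := by
  intro h
  have := hz.2
  rw [h, sub_self, abs_zero, mul_zero] at this
  exact absurd this (not_lt.2 (abs_nonneg _))

/-- the continuation -/
noncomputable def K (f : ℝ → ℝ) (z : ℂ) : ℂ := G f z.re z

theorem K_diff (H : Hyp f C D β b) : DifferentiableOn ℂ (K f) (sct (1 / (8 * C)) b) := by
  have hC : 0 < C := lt_of_lt_of_le one_pos H.hC
  intro w hw
  have hne := sct_ne (by positivity) hw
  obtain ⟨hw4, hw1⟩ := hw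
  have hs : 0 < |w.re - 1/2| := abs_pos.2 (sub_ne_zero.2 hne)
  have hlt : (1 / (8 * C)) * |w.re - 1/2| < |w.re - 1/2| / (4 * C) := by
    rw [div_mul_eq_mul_div, one_mul, div_lt_div_iff₀ (by positivity) (by positivity)]
    nlinarith
  have hwb : w ∈ Metric.ball (w.re : ℂ) (|w.re - 1/2| / (4 * C)) := by
    rw [Metric.mem_ball, dist_eq_norm, norm_sub_re]
    exact hw1.trans hlt
  have hd : DifferentiableAt ℂ (G f w.re) w :=
    (G_hol H hne hw4).differentiableAt (Metric.isOpen_ball.mem_nhds hwb)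
  refine DifferentiableAt.differentiableWithinAt (hd.congr_of_eventuallyEq ?_)
  have c1 : Continuous fun z : ℂ => |z.im| := by fun_prop
  have c2 : Continuous fun z : ℂ => (1 / (8 * C)) * |z.re - 1/2| := by fun_prop
  have c3 : Continuous fun z : ℂ => |z.re - 1/2| := by fun_prop
  have e1 : ∀ᶠ z in 𝓝 w, |z.im| < (1 / (8 * C)) * |z.re - 1/2| :=
    (isOpen_lt c1 c2).mem_nhds hw1
  have e3 : ∀ᶠ z in 𝓝 w, |z.re - 1/2| < b := (isOpen_lt c3 continuous_const).mem_nhds hw4
  have e4 : ∀ᶠ z in 𝓝 w, z ∈ Metric.ball (w.re : ℂ) (|w.re - 1/2| / (4 * C)) :=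
    Metric.isOpen_ball.mem_nhds hwb
  have e5 : ∀ᶠ z : ℂ in 𝓝 w, |z.re - w.re| < |w.re - 1/2| / (4 * C) := by
    have hc : Continuous fun z : ℂ => |z.re - w.re| := by fun_prop
    apply (hc.tendsto w).eventually_lt_const
    simp only [sub_self, abs_zero]
    positivity
  filter_upwards [e1, e3, e4, e5] with z z1 z3 z4 z5
  have hzne := sct_ne (c := 1 / (8 * C)) (by positivity) (z := z) (b := b) ⟨z3, z1⟩
  have hsz : 0 < |z.re - 1/2| := abs_pos.2 (sub_ne_zero.2 hzne)
  refine G_agree H hzne z3 hne hw4 z5 ?_ z4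
  rw [Metric.mem_ball, dist_eq_norm, norm_sub_re]
  refine z1.trans ?_
  rw [div_mul_eq_mul_div, one_mul, div_lt_div_iff₀ (by positivity) (by positivity)]
  nlinarith

theorem K_real (H : Hyp f C D β b) {p : ℝ} (h0 : p ≠ 1/2) (h1 : |p - 1/2| < b) : K f p = f p := by
  have hs : 0 < |p - 1/2| := abs_pos.2 (sub_ne_zero.2 h0)
  have hC : 0 < C := lt_of_lt_of_le one_pos H.hC
  unfold K
  rw [Complex.ofReal_re]
  apply G_real H h0 h1 h1
  rw [sub_self, abs_zero]
  positivity

/-- the bound -/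
theorem K_le (H : Hyp f C D β b) {z : ℂ} (hz : z ∈ sct (1 / (8 * C)) b) :
    ‖K f z‖ ≤ 2 * C * (D * ‖z - 1/2‖ ^ β) := by
  have hC : 0 < C := lt_of_lt_of_le one_pos H.hC
  have hC1 := H.hC
  have hD := H.hD
  have hne := sct_ne (by positivity) hz
  obtain ⟨z3, z1⟩ := hz
  obtain ⟨p, hp⟩ : ∃ p, p = z.re := ⟨_, rfl⟩
  have hs : 0 < |p - 1/2| := by rw [hp]; exact abs_pos.2 (sub_ne_zero.2 hne)
  rw [← hp] at z3 z1 hne
  have hco := co_le H hne z3
  obtain ⟨s, hs'⟩ : ∃ s : ℝ, s = |p - 1/2| := ⟨_, rfl⟩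
  rw [← hs'] at hs z3 z1 hco
  have hun : ‖z - p‖ ≤ 1 / (8 * C) * s := by
    rw [hp, norm_sub_re]
    exact z1.le
  have h4 : (C / s) * ‖z - p‖ ≤ 1/2 := by
    rw [div_mul_eq_mul_div, div_le_iff₀ hs]
    have := mul_le_mul_of_nonneg_left hun hC.le
    have e : C * (1 / (8 * C) * s) = s / 8 := by field_simp
    linarith
  have hg : HasSum (fun k : ℕ => (C * D * s ^ β) * (1 / 2 : ℝ) ^ k) ((C * D * s ^ β) * 2) :=
    hasSum_geometric_two.mul_left _
  have h5 : ‖K f z‖ ≤ (C * D * s ^ β) * 2 := by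
    unfold K G
    rw [← hp]
    refine tsum_of_norm_bounded hg (fun k => ?_)
    rw [norm_mul, norm_pow, Complex.norm_real, Real.norm_eq_abs]
    calc |co f p k| * ‖z - p‖ ^ k ≤ ((C * D * s ^ β) * (C / s) ^ k) * ‖z - p‖ ^ k :=
          mul_le_mul_of_nonneg_right (hco k) (by positivity)
      _ = C * D * s ^ β * ((C / s) * ‖z - p‖) ^ k := by rw [mul_assoc, mul_pow]
      _ ≤ C * D * s ^ β * (1 / 2) ^ k := by
          apply mul_le_mul_of_nonneg_left _ (by positivity)
          exact pow_le_pow_left₀ (by positivity) h4 _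
  refine h5.trans ?_
  have e1 : (z - 1/2).re = p - 1/2 := by
    rw [Complex.sub_re, hp]
    norm_num
  have n1 : s ≤ ‖z - 1/2‖ := by
    have h3 := Complex.abs_re_le_norm (z - 1/2)
    rw [e1, ← hs'] at h3
    exact h3
  have n2 : s ^ β ≤ ‖z - 1/2‖ ^ β := Real.rpow_le_rpow hs.le n1 H.hβ
  have := mul_le_mul_of_nonneg_left n2 (by positivity : 0 ≤ 2 * C * D)
  linarith

end

end Pool.Agent.H29.SecL
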