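import Pool.Agent.H29.TL.LowL
import Pool.Agent.H29.TL.SecL

/-!
The continuation of the two-point function to a double sector.
-/

set_option autoImplicit false

namespace Pool.Agent.H29.TL

open H974 hiding WW
open H12S hiding TP
open H389NS Finset Filter Topology MeasureTheory
open H31K (tau)
open scoped ContDiff

/-- The remainder. -/
noncomputable def FR (x : Vtx) (a p : ℝ) : ℝ := tr x p - (tr x (1/2) + a * (p - 1/2))

/-- The half-width of the window. -/
noncomputable def hw (x : Vtx) : ℝ := min (1/2) ((nx x : ℝ) ^ (-(3/4) : ℝ))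

theorem aff_der {a c : ℝ} (k : ℕ) (p : ℝ) :
    iteratedDeriv (k + 2) (fun q : ℝ => c + a * (q - 1/2)) p = 0 := by
  have h1 : deriv (fun q : ℝ => c + a * (q - 1/2)) = fun _ => a := by
    funext q
    have := (((hasDerivAt_id' q).sub_const (1/2)).const_mul a).const_add c
    rw [mul_one] at this
    exact this.deriv
  rw [iteratedDeriv_succ', h1, iteratedDeriv_const]
  simp

theorem hyp_FR : ∃ C : ℝ, 1 ≤ C ∧ ∀ x : Vtx, x ≠ (0, 0) → ∀ a : ℝ, HasDerivAt (tr x) a (1/2) →
    SecL.Hyp (FR x a) C ((nx x : ℝ) ^ (25/24 : ℝ)) (5/3) (hw x) := by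
  obtain ⟨C1, hC1, h1⟩ := der_win
  obtain ⟨C2, hC2, h2⟩ := crit
  refine ⟨C1 + C2, by linarith, ?_⟩
  intro x hx0 a ha
  obtain ⟨a', ha', h3⟩ := h2 x hx0
  have haa : a' = a := ha'.unique ha
  rw [haa] at h3
  have hn1 : (1:ℝ) ≤ nx x := by exact_mod_cast nx_pos hx0
  have hn0 : (0:ℝ) < nx x := by linarith
  have hN : 0 < (nx x : ℝ) ^ (25/24 : ℝ) := by positivity
  have hin : ∀ p : ℝ, |p - 1/2| < hw x →
      0 < p ∧ p < 1 ∧ |p - 1/2| < (nx x : ℝ) ^ (-(3/4) : ℝ) := by
    intro p hp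
    unfold hw at hp
    obtain ⟨q1, q2⟩ := lt_min_iff.1 hp
    rw [abs_lt] at q1
    exact ⟨by linarith, by linarith, q2⟩
  have haff : ∀ p : ℝ, ContDiffAt ℝ ∞ (fun q : ℝ => tr x (1/2) + a * (q - 1/2)) p := by
    intro p
    fun_prop
  refine ⟨by linarith, hN, by norm_num, ?_, ?_⟩
  · intro p hp hpb
    obtain ⟨q1, q2, q3⟩ := hin p hpb
    exact ((h1 x hx0 p q1 q2 hp q3.le).1).sub (haff p)
  · intro p hp hpb k
    obtain ⟨q1, q2, q3⟩ := hin p hpb
    obtain ⟨t1, t2, t3⟩ := h1 x hx0 p q1 q2 hp q3.le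
    obtain ⟨s1, s2⟩ := h3 p q1 q2 q3
    have hs0 : 0 < |p - 1/2| := abs_pos.2 (sub_ne_zero.2 hp)
    match k with
    | 0 =>
      rw [iteratedDeriv_zero]
      unfold FR
      have e1 : tr x p - (tr x (1/2) + a * (p - 1/2)) =
          tr x p - tr x (1/2) - a * (p - 1/2) := by ring
      rw [e1]
      have e2 : ((5:ℝ)/3 - ((0:ℕ):ℝ)) = 5/3 := by norm_num
      rw [e2, zero_add, pow_one, Nat.factorial_zero, Nat.cast_one, mul_one]
      exact s2.trans (mul_le_mul_of_nonneg_right (by linarith) (by positivity))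
    | 1 =>
      rw [iteratedDeriv_one]
      have e1 : deriv (FR x a) p = deriv (tr x) p - a := by
        have g1 : HasDerivAt (tr x) (deriv (tr x) p) p := hd_of t1
        have g2 := (((hasDerivAt_id' p).sub_const (1/2)).const_mul a).const_add (tr x (1/2))
        rw [mul_one] at g2
        exact (g1.sub g2).deriv
      rw [e1]
      have e2 : ((5:ℝ)/3 - ((1:ℕ):ℝ)) = 2/3 := by norm_num
      rw [e2, Nat.factorial_one, Nat.cast_one, mul_one]
      refine s1.trans (mul_le_mul_of_nonneg_right ?_ (by positivity))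
      have e3 : (C1 + C2) ^ (1 + 1) = (C1 + C2) * (C1 + C2) := by ring
      rw [e3]
      nlinarith
    | k + 2 =>
      have hk := aff_der (a := a) (c := tr x (1/2)) k p
      obtain ⟨m, hm⟩ : ∃ m, m = k + 2 := ⟨_, rfl⟩
      rw [← hm] at hk ⊢
      have e1 : iteratedDeriv m (FR x a) p = iteratedDeriv m (tr x) p := by
        have c1 : ContDiffAt ℝ m (tr x) p := t1.of_le (by exact_mod_cast le_top)
        have c2 : ContDiffAt ℝ m (fun q : ℝ => tr x (1/2) + a * (q - 1/2)) p :=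
          (haff p).of_le (by exact_mod_cast le_top)
        have e2 := iteratedDeriv_sub c1 c2
        rw [hk, sub_zero] at e2
        exact e2
      rw [e1]
      refine (t2 m (by omega)).trans ?_
      apply mul_le_mul_of_nonneg_right _ (by positivity)
      apply mul_le_mul_of_nonneg_right _ (by positivity)
      exact pow_le_pow_left₀ (by linarith) (by linarith) _

/-- The double sector. -/
theorem sector : ∃ c C : ℝ, 0 < c ∧ 0 < C ∧ ∀ x : Vtx, x ≠ (0, 0) → ∃ K : ℂ → ℂ,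
    DifferentiableOn ℂ K (SecL.sct c (hw x)) ∧
    (∀ p : ℝ, p ≠ 1/2 → |p - 1/2| < hw x → K p = tr x p) ∧
    ∀ z ∈ SecL.sct c (hw x),
      ‖K z - (tr x (1/2) + deriv (tr x) (1/2) * (z - 1/2))‖ ≤
        C * ((nx x : ℝ) ^ (25/24 : ℝ) * ‖z - 1/2‖ ^ (5/3 : ℝ)) := by
  obtain ⟨C, hC, h⟩ := hyp_FR
  obtain ⟨C2, hC2, h2⟩ := crit
  refine ⟨1 / (8 * C), 2 * C, by positivity, by positivity, ?_⟩
  intro x hx0
  obtain ⟨a, ha, -⟩ := h2 x hx0
  have H := h x hx0 a ha
  rw [ha.deriv]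
  refine ⟨fun z => (tr x (1/2) + a * (z - 1/2)) + SecL.K (FR x a) z, ?_, ?_, ?_⟩
  · apply DifferentiableOn.add _ (SecL.K_diff H)
    fun_prop
  · intro p hp hpb
    show (tr x (1/2) : ℂ) + a * ((p:ℂ) - 1/2) + SecL.K (FR x a) p = tr x p
    rw [SecL.K_real H hp hpb]
    unfold FR
    push_cast
    ring
  · intro z hz
    have := SecL.K_le H hz
    rw [add_sub_cancel_left]
    exact this

end Pool.Agent.H29.TL
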