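import Pool.Agent.H29.TL.NearL

/-!
Derivatives of the two-point function.
-/

set_option autoImplicit false

namespace Pool.Agent.H29.TL

open H974 hiding WW
open H12S hiding TP
open H389NS Finset Filter Topology MeasureTheory
open Pool.Agent.NH39 (dd)
open Pool.Agent.NH39.W (Dl)
open Pool.Agent.H29.TH (oo ps tayU poly_bound Ex_cq)
open Pool.Agent.H29.TG (ro fT fT_eq fT_abs XB mem_XB ro_mem)
open H31K (tau)
open scoped ContDiff

/-- Derivatives of a polynomial of order at least two. -/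
theorem poly_bound2 {ι : Type} (Q : Finset ι) (d : ι → ℕ) (c : ι → ℝ) {R M0 : ℝ} (hR : 0 < R)
    (h : ∑ i ∈ Q.filter (fun i => 2 ≤ d i), R ^ d i * |c i| ≤ M0) (k : ℕ) (hk : 2 ≤ k) {w : ℝ}
    (hw : |w| ≤ R / 2) :
    |iteratedDeriv k (fun w => ∑ i ∈ Q, w ^ d i * c i) w| ≤ k.factorial * (2 / R) ^ k * M0 := by
  have h1 := poly_bound (Q.filter (fun i => 2 ≤ d i)) d c hR h k hw
  have e : iteratedDeriv k (fun w => ∑ i ∈ Q, w ^ d i * c i) w =
      iteratedDeriv k (fun w => ∑ i ∈ Q.filter (fun i => 2 ≤ d i), w ^ d i * c i) w := by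
    rw [iteratedDeriv_fun_sum (fun i _ => by fun_prop),
      iteratedDeriv_fun_sum (fun i _ => by fun_prop),
      ← Finset.sum_filter_add_sum_filter_not Q (fun i => 2 ≤ d i)]
    rw [add_eq_left]
    apply Finset.sum_eq_zero
    intro i hi
    rw [mem_filter] at hi
    rw [iteratedDeriv_mul_const_field, iteratedDeriv_pow,
      Nat.descFactorial_eq_zero_iff_lt.2 (by omega), Nat.cast_zero, zero_mul, zero_mul]
  rw [e]
  exact h1

/-- The coefficients. -/
noncomputable def cf (p : ℝ) (M : ℕ) (x : Vtx) (G : Finset Edg) : ℝ :=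
  Ex (fun _ => p) (boxE (3 * M)) (Dl (fT (3 * M) x) G)

/-- The polynomial. -/
noncomputable def fm (p : ℝ) (M : ℕ) (x : Vtx) (y : ℝ) : ℝ :=
  ∑ G ∈ (boxE M).powerset, (y - p) ^ G.card * cf p M x G

theorem fm_eq (p : ℝ) (M : ℕ) (x : Vtx) (y : ℝ) :
    fm p M x y = Ex (mxp M p y) (boxE (3 * M)) (fT (3 * M) x) := by
  have h := tayU (boxE_mono (by omega : M ≤ 3 * M)) (fT (3 * M) x) p (y - p)
  unfold fm cf
  rw [← h]
  rfl

theorem fm_smooth (p : ℝ) (M : ℕ) (x : Vtx) : ContDiff ℝ ∞ (fm p M x) := by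
  unfold fm
  fun_prop

/-- The norm. -/
def nx (x : Vtx) : ℕ := max x.1.natAbs x.2.natAbs

theorem dd_nx (x : Vtx) : dd oo (ro x) = nx x := by
  unfold dd oo ro nx
  simp

theorem nx_pos {x : Vtx} (hx : x ≠ (0, 0)) : 1 ≤ nx x := by
  rw [← dd_nx]
  exact dd_ro_pos hx

theorem ro_in {x : Vtx} {M : ℕ} (h : nx x + 1 ≤ M) : ro x ∈ boxE M := by
  apply ro_mem h
  rw [mem_XB]
  unfold nx
  omega

theorem fm_near : ∃ C : ℝ, 1 ≤ C ∧ ∀ p y : ℝ, 0 ≤ p → p ≤ 1 → 0 ≤ y → y ≤ 1 →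
    ∀ (M : ℕ) (x : Vtx), nx x + 1 ≤ M →
    |fm p M x y - tr x y| ≤ C * ((nx x : ℝ) + 1) ^ 3 * (M:ℝ) ^ (-(5/4) : ℝ) := by
  obtain ⟨C, hC, h⟩ := mix_tr
  refine ⟨C, hC, ?_⟩
  intro p y hp0 hp1 hy0 hy1 M x hM
  have h1 := h p y hp0 hp1 hy0 hy1 (nx x + 1) M (3 * M) x (by omega) hM (by omega) (by
    unfold nx; push_cast; omega)
  rw [fm_eq]
  push_cast at h1
  exact h1

theorem fm_lim {p y : ℝ} (hp0 : 0 ≤ p) (hp1 : p ≤ 1) (hy0 : 0 ≤ y) (hy1 : y ≤ 1) (x : Vtx) :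
    Tendsto (fun m : ℕ => fm p (m + (nx x + 1)) x y) atTop (𝓝 (tr x y)) := by
  obtain ⟨C, hC, h⟩ := fm_near
  rw [tendsto_iff_norm_sub_tendsto_zero]
  have h2 : Tendsto (fun m : ℕ => ((m + (nx x + 1) : ℕ) : ℝ) ^ (-(5/4) : ℝ)) atTop (𝓝 0) := by
    have h4 : Tendsto (fun m : ℕ => ((m + (nx x + 1) : ℕ) : ℝ)) atTop atTop :=
      tendsto_natCast_atTop_atTop.comp (tendsto_add_atTop_nat _)
    exact (tendsto_rpow_neg_atTop (by norm_num : (0:ℝ) < 5/4)).comp h4
  have h3 := h2.const_mul (C * ((nx x : ℝ) + 1) ^ 3)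
  rw [mul_zero] at h3
  refine squeeze_zero (fun _ => norm_nonneg _) (fun m => ?_) h3
  rw [Real.norm_eq_abs]
  exact h p y hp0 hp1 hy0 hy1 _ x (by omega)

/-- The first derivative of the polynomial at the centre. -/
theorem fm_der1 (p : ℝ) (M : ℕ) (x : Vtx) :
    iteratedDeriv 1 (fm p M x) p =
      ∑ G ∈ (boxE M).powerset.filter (fun G => G.card = 1), cf p M x G := by
  rw [iteratedDeriv_one]
  have h : HasDerivAt (fm p M x) (∑ G ∈ (boxE M).powerset,
      ((G.card : ℝ) * (p - p) ^ (G.card - 1) * 1) * cf p M x G) p := by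
    unfold fm
    apply HasDerivAt.fun_sum
    intro G _
    apply HasDerivAt.mul_const
    exact ((hasDerivAt_id' p).sub_const p).fun_pow G.card
  rw [h.deriv, Finset.sum_filter]
  apply Finset.sum_congr rfl
  intro G _
  split_ifs with h1
  · rw [h1]; simp
  · rw [sub_self, mul_one]
    rcases Nat.lt_or_ge G.card 1 with h2 | h2
    · have : G.card = 0 := by omega
      rw [this]; simp
    · rw [zero_pow (by omega)]; simp

/-- All the derivatives off the critical point. -/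
theorem der_p : ∃ C : ℝ, 1 ≤ C ∧ ∀ p : ℝ, 0 < p → p < 1 → p ≠ 1/2 → ∀ x : Vtx, x ≠ (0, 0) →
    ContDiffAt ℝ ∞ (tr x) p ∧
    (∀ k : ℕ, 2 ≤ k → |iteratedDeriv k (tr x) p| ≤
      C ^ (k + 1) * k.factorial * (Vp p x * |p - 1/2| ^ ((5:ℝ)/3 - k))) ∧
    |deriv (tr x) p| ≤ C * Vp p x * (nx x : ℝ) ^ (-(1/2) : ℝ) := by
  obtain ⟨B, hB, hm⟩ := coef
  have hB0 : 0 < B := by linarith
  refine ⟨2 * B, by linarith, ?_⟩
  intro p hp0 hp1 hph x hx0
  obtain ⟨s, hs⟩ : ∃ s : ℝ, s = |p - 1/2| := ⟨_, rfl⟩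
  have hs0 : 0 < s := by rw [hs]; exact abs_pos.2 (sub_ne_zero.2 hph)
  obtain ⟨R, hR⟩ : ∃ R : ℝ, R = s / B := ⟨_, rfl⟩
  have hR0 : 0 < R := by rw [hR]; positivity
  have hV := Vp_pos p hx0
  obtain ⟨V, hV'⟩ : ∃ V : ℝ, V = Vp p x := ⟨_, rfl⟩
  rw [← hV'] at hV ⊢
  -- the bounds for the coefficients
  have hcf : ∀ M : ℕ, nx x + 1 ≤ M →
      (∑ G ∈ (boxE M).powerset.filter (fun G => 2 ≤ G.card), R ^ G.card * |cf p M x G| ≤
        B * V * R ^ (5/3 : ℝ)) ∧
      ∑ G ∈ (boxE M).powerset.filter (fun G => G.card = 1), |cf p M x G| ≤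
        B * V * (nx x : ℝ) ^ (-(1/2) : ℝ) := by
    intro M hM
    have hM1 : 1 ≤ M := by omega
    obtain ⟨h1, h2⟩ := hm p hp0.le hp1.le M (3 * M) hM1 le_rfl x hx0 (ro_in hM)
    rw [Vx_eq p hM1 hx0 (ro_in hM), ← hV'] at h1 h2
    rw [dd_nx] at h2
    refine ⟨h1 R hR0 ?_, h2⟩
    rw [hR, mul_div_cancel₀ _ hB0.ne', hs]
    exact le_max_left _ _
  obtain ⟨u, hu⟩ : ∃ u : ℝ, u = max 0 (p - R / 2) := ⟨_, rfl⟩
  obtain ⟨v, hv⟩ : ∃ v : ℝ, v = min 1 (p + R / 2) := ⟨_, rfl⟩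
  have hu0 : 0 ≤ u := by rw [hu]; exact le_max_left _ _
  have hu1 : p - R / 2 ≤ u := by rw [hu]; exact le_max_right _ _
  have hu2 : u < p := by rw [hu]; exact max_lt hp0 (by linarith)
  have hv0 : v ≤ 1 := by rw [hv]; exact min_le_left _ _
  have hv1 : v ≤ p + R / 2 := by rw [hv]; exact min_le_right _ _
  have hv2 : p < v := by rw [hv]; exact lt_min hp1 (by linarith)
  obtain ⟨f, hf⟩ : ∃ f : ℕ → ℝ → ℝ, f = fun m y => fm p (m + (nx x + 1)) x y := ⟨_, rfl⟩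
  have hfs : ∀ m, ContDiff ℝ ∞ (f m) := by
    intro m
    rw [hf]
    exact fm_smooth _ _ _
  have hfl : ∀ y ∈ Set.Ioo u v, Tendsto (fun m => f m y) atTop (𝓝 (tr x y)) := by
    intro y hy
    rw [hf]
    exact fm_lim hp0.le hp1.le (by linarith [hy.1]) (by linarith [hy.2]) x
  have hfb : ∀ k, 2 ≤ k → ∀ m, ∀ y ∈ Set.Ioo u v, |iteratedDeriv k (f m) y| ≤
      k.factorial * (2 / R) ^ k * (B * V * R ^ (5/3 : ℝ)) := by
    intro k hk m y hy
    have h2 := poly_bound2 (boxE (m + (nx x + 1))).powerset (fun G => G.card)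
      (fun G => cf p (m + (nx x + 1)) x G) hR0 (hcf _ (by omega)).1 k hk
      (w := y - p) (by rw [abs_le]; constructor <;> linarith [hy.1, hy.2])
    have h3 : iteratedDeriv k (f m) y = iteratedDeriv k (fun w =>
        ∑ G ∈ (boxE (m + (nx x + 1))).powerset, w ^ G.card * cf p (m + (nx x + 1)) x G)
          (y - p) := by
      rw [hf]
      unfold fm
      exact congrFun (iteratedDeriv_comp_sub_const k (fun w =>
        ∑ G ∈ (boxE (m + (nx x + 1))).powerset, w ^ G.card * cf p (m + (nx x + 1)) x G) p) y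
    rw [h3]
    exact h2
  have hlim := Pool.Agent.NH39.W.lim f (tr x) u v
    (fun k => k.factorial * (2 / R) ^ k * (B * V * R ^ (5/3 : ℝ))) (hu2.trans hv2) hfs hfl
    (fun k hk m y hy => hfb k hk m y hy)
  have hpI : p ∈ Set.Ioo u v := ⟨hu2, hv2⟩
  refine ⟨hlim.1.contDiffAt (Ioo_mem_nhds hu2 hv2), ?_, ?_⟩
  · intro k hk
    have t1 := (hlim.2 k p hpI).abs
    have t2 := le_of_tendsto' t1 (fun m => hfb k hk m p hpI)
    refine t2.trans ?_
    rw [← hs, Real.rpow_sub_natCast hs0.ne']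
    have e1 : (2 / R) ^ k = (2 * B) ^ k / s ^ k := by
      rw [hR, div_div_eq_mul_div, div_pow]
    have e2 : R ^ (5/3 : ℝ) ≤ s ^ (5/3 : ℝ) := by
      apply Real.rpow_le_rpow hR0.le _ (by norm_num)
      rw [hR]
      exact div_le_self hs0.le hB
    rw [e1]
    calc (k.factorial : ℝ) * ((2 * B) ^ k / s ^ k) * (B * V * R ^ (5/3 : ℝ))
        ≤ (k.factorial : ℝ) * ((2 * B) ^ k / s ^ k) * (2 * B * V * s ^ (5/3 : ℝ)) := by
          apply mul_le_mul_of_nonneg_left _ (by positivity)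
          apply mul_le_mul _ e2 (by positivity) (by positivity)
          nlinarith
      _ = _ := by rw [pow_succ]; ring
  · have t1 := (hlim.2 1 p hpI).abs
    rw [iteratedDeriv_one] at t1
    refine le_of_tendsto' t1 (fun m => ?_)
    rw [hf]
    show |iteratedDeriv 1 (fm p (m + (nx x + 1)) x) p| ≤ _
    rw [fm_der1]
    refine (Finset.abs_sum_le_sum_abs _ _).trans ((hcf _ (by omega)).2.trans ?_)
    apply mul_le_mul_of_nonneg_right _ (by positivity)
    nlinarith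

/-- The two-point function is continuous. -/
theorem tr_cont (x : Vtx) : ContinuousOn (tr x) (Set.Icc 0 1) := by
  obtain ⟨C, hC, h⟩ := fm_near
  have h1 : TendstoUniformlyOn (fun m : ℕ => fm (1/2) (m + (nx x + 1)) x) (tr x) atTop
      (Set.Icc 0 1) := by
    rw [Metric.tendstoUniformlyOn_iff]
    intro ε hε
    have h2 : Tendsto (fun m : ℕ => ((m + (nx x + 1) : ℕ) : ℝ) ^ (-(5/4) : ℝ)) atTop (𝓝 0) := by
      have h4 : Tendsto (fun m : ℕ => ((m + (nx x + 1) : ℕ) : ℝ)) atTop atTop :=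
        tendsto_natCast_atTop_atTop.comp (tendsto_add_atTop_nat _)
      exact (tendsto_rpow_neg_atTop (by norm_num : (0:ℝ) < 5/4)).comp h4
    have h3 := h2.const_mul (C * ((nx x : ℝ) + 1) ^ 3)
    rw [mul_zero] at h3
    filter_upwards [h3.eventually_lt_const hε] with m hm y hy
    rw [dist_comm, Real.dist_eq]
    exact (h (1/2) y (by norm_num) (by norm_num) hy.1 hy.2 _ x (by omega)).trans_lt hm
  refine h1.continuousOn (Eventually.of_forall (fun m => ?_)).frequently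
  exact (fm_smooth _ _ _).continuous.continuousOn

/-- The symmetric difference at the critical point. -/
theorem sym_diff (x : Vtx) (hx0 : x ≠ (0, 0)) : ∃ (K : ℝ) (h : ℕ → ℝ), 0 ≤ K ∧
    Tendsto h atTop (𝓝 0) ∧ (∀ n, 0 < h n) ∧ (∀ n, h n ≤ 1/2) ∧
    ∀ n, |tr x (1/2 + h n) + tr x (1/2 - h n) - 2 * tr x (1/2)| ≤ K * h n ^ (5/3 : ℝ) := by
  obtain ⟨C, hC, hn⟩ := fm_near
  obtain ⟨B0, hB0, hm0⟩ := coef
  obtain ⟨B, hB⟩ : ∃ B : ℝ, B = 2 * B0 := ⟨_, rfl⟩
  have hB2 : 2 ≤ B := by linarith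
  have hBp : 0 < B := by linarith
  obtain ⟨V, hV⟩ : ∃ V : ℝ, V = Vp (1/2) x := ⟨_, rfl⟩
  have hV0 : 0 < V := by rw [hV]; exact Vp_pos _ hx0
  obtain ⟨N, hN⟩ : ∃ N : ℕ → ℕ, N = fun n => n + (nx x + 1) := ⟨_, rfl⟩
  have hN1 : ∀ n, nx x + 1 ≤ N n := by intro n; rw [hN]; simp
  obtain ⟨h, hh⟩ : ∃ h : ℕ → ℝ, h = fun n => (2 * (N n : ℝ)) ^ (-(3/4) : ℝ) / B := ⟨_, rfl⟩
  have hNr : ∀ n, (1:ℝ) ≤ N n := by
    intro n
    exact_mod_cast (by have := hN1 n; omega : 1 ≤ N n)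
  have hh0 : ∀ n, 0 < h n := by
    intro n
    rw [hh]
    have := hNr n
    positivity
  have hhB : ∀ n, B * h n = (2 * (N n : ℝ)) ^ (-(3/4) : ℝ) := by
    intro n
    rw [hh]
    field_simp
  have hh1 : ∀ n, h n ≤ 1/2 := by
    intro n
    have h1 : (2 * (N n : ℝ)) ^ (-(3/4) : ℝ) ≤ 1 :=
      Real.rpow_le_one_of_one_le_of_nonpos (by have := hNr n; linarith) (by norm_num)
    rw [← hhB] at h1
    have := hh0 n
    nlinarith
  obtain ⟨r, hr⟩ : ∃ r : ℝ, r = C * ((nx x : ℝ) + 1) ^ 3 := ⟨_, rfl⟩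
  have hr0 : 0 < r := by rw [hr]; positivity
  refine ⟨2 * (B0 * V) + 4 * (r * (4 * B ^ 2)), h, by positivity, ?_, hh0, hh1, ?_⟩
  · rw [hh]
    have h2 : Tendsto (fun n : ℕ => 2 * (N n : ℝ)) atTop atTop := by
      apply Tendsto.const_mul_atTop (by norm_num)
      rw [hN]
      exact tendsto_natCast_atTop_atTop.comp (tendsto_add_atTop_nat _)
    have h3 := ((tendsto_rpow_neg_atTop (by norm_num : (0:ℝ) < 3/4)).comp h2).div_const B
    rw [zero_div] at h3
    exact h3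
  · intro n
    obtain ⟨M, hM⟩ : ∃ M, M = N n := ⟨_, rfl⟩
    have hM1 := hN1 n
    have hM3 := hNr n
    have g0 := hh0 n
    have g1 := hh1 n
    have g2 := hhB n
    rw [← hM] at hM1 hM3 g2
    have hM2 : 1 ≤ M := by omega
    obtain ⟨t, ht⟩ : ∃ t, t = h n := ⟨_, rfl⟩
    rw [← ht] at g0 g1 g2 ⊢
    obtain ⟨k1, k2⟩ := hm0 (1/2) (by norm_num) (by norm_num) M (3 * M) hM2 le_rfl x hx0 (ro_in hM1)
    rw [Vx_eq _ hM2 hx0 (ro_in hM1), ← hV] at k1
    have k3 := k1 t g0 (by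
      unfold xq
      refine le_trans ?_ (le_max_right _ _)
      rw [← g2]
      nlinarith)
    -- the polynomial
    have e1 : fm (1/2) M x (1/2 + t) + fm (1/2) M x (1/2 - t) - 2 * fm (1/2) M x (1/2) =
        ∑ G ∈ (boxE M).powerset, (t ^ G.card + (-t) ^ G.card - 2 * 0 ^ G.card) *
          cf (1/2) M x G := by
      unfold fm
      rw [Finset.mul_sum, ← Finset.sum_add_distrib, ← Finset.sum_sub_distrib]
      apply Finset.sum_congr rfl
      intro G _
      rw [sub_self]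
      have a1 : (1/2 + t - 1/2 : ℝ) = t := by ring
      have a2 : (1/2 - t - 1/2 : ℝ) = -t := by ring
      rw [a1, a2]
      ring
    have e2 : |fm (1/2) M x (1/2 + t) + fm (1/2) M x (1/2 - t) - 2 * fm (1/2) M x (1/2)| ≤
        2 * (B0 * V * t ^ (5/3 : ℝ)) := by
      rw [e1, ← Finset.sum_filter_add_sum_filter_not _ (fun G => 2 ≤ G.card)]
      have e3 : ∑ G ∈ (boxE M).powerset.filter (fun G => ¬ 2 ≤ G.card),
          (t ^ G.card + (-t) ^ G.card - 2 * 0 ^ G.card) * cf (1/2) M x G = 0 := by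
        apply Finset.sum_eq_zero
        intro G hG
        rw [mem_filter] at hG
        have h3 : G.card = 0 ∨ G.card = 1 := by omega
        rcases h3 with h3 | h3
        · rw [h3]; ring
        · rw [h3]; ring
      rw [e3, add_zero]
      refine (Finset.abs_sum_le_sum_abs _ _).trans ?_
      refine le_trans ?_ (mul_le_mul_of_nonneg_left k3 (by norm_num))
      rw [Finset.mul_sum]
      apply Finset.sum_le_sum
      intro G hG
      rw [mem_filter] at hG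
      rw [zero_pow (by omega), mul_zero, sub_zero, abs_mul, ← mul_assoc]
      apply mul_le_mul_of_nonneg_right _ (abs_nonneg _)
      refine (abs_add_le _ _).trans (le_of_eq ?_)
      rw [abs_pow, abs_pow, abs_neg, abs_of_pos g0]
      ring
    have n1 := hn (1/2) (1/2 + t) (by norm_num) (by norm_num) (by linarith) (by linarith) M x hM1
    have n2 := hn (1/2) (1/2 - t) (by norm_num) (by norm_num) (by linarith) (by linarith) M x hM1
    have n3 := hn (1/2) (1/2) (by norm_num) (by norm_num) (by norm_num) (by norm_num) M x hM1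
    rw [← hr] at n1 n2 n3
    have e4 : (M:ℝ) ^ (-(5/4) : ℝ) ≤ 4 * B ^ 2 * t ^ (5/3 : ℝ) := by
      have f1 : (2 * (M:ℝ)) ^ (-(5/4) : ℝ) = (B * t) ^ (5/3 : ℝ) := by
        rw [g2, ← Real.rpow_mul (by positivity)]
        norm_num
      rw [Real.mul_rpow (by norm_num) (by positivity), Real.mul_rpow hBp.le g0.le] at f1
      have f2 : (1/4 : ℝ) ≤ (2:ℝ) ^ (-(5/4) : ℝ) := by
        have := Real.rpow_le_rpow_of_exponent_le (show (1:ℝ) ≤ 2 by norm_num)
          (show (-2 : ℝ) ≤ -(5/4) by norm_num)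
        refine le_trans (le_of_eq ?_) this
        rw [Real.rpow_neg (by norm_num)]
        norm_num
      have f3 : B ^ (5/3 : ℝ) ≤ B ^ 2 := by
        rw [← Real.rpow_natCast]
        exact Real.rpow_le_rpow_of_exponent_le (by linarith) (by norm_num)
      have f4 : 0 < (M:ℝ) ^ (-(5/4) : ℝ) := by positivity
      have f5 : 0 < t ^ (5/3 : ℝ) := by positivity
      have f6 := mul_le_mul_of_nonneg_right f2 f4.le
      have f7 := mul_le_mul_of_nonneg_right f3 f5.le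
      linarith
    have e5 : r * (M:ℝ) ^ (-(5/4) : ℝ) ≤ r * (4 * B ^ 2) * t ^ (5/3 : ℝ) := by
      have := mul_le_mul_of_nonneg_left e4 hr0.le
      linarith
    rw [abs_le] at n1 n2 n3 e2 ⊢
    constructor <;> linarith [n1.1, n1.2, n2.1, n2.2, n3.1, n3.2, e2.1, e2.2]

end Pool.Agent.H29.TL
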