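import Pool.Agent.H29.TL.WinL

/-!
Large derivatives of the two-point function near the correlation length.
-/

set_option autoImplicit false

namespace Pool.Agent.H29.TL

open H974 hiding WW
open H12S hiding TP
open H389NS Finset Filter Topology MeasureTheory
open H31K (tau)
open scoped ContDiff

theorem low : ∀ k : ℕ, ∃ c L : ℝ, 0 < c ∧ 1 < L ∧ ∀ x : Vtx, L ≤ nx x →
    ∃ p : ℝ, 0 < p ∧ 1/2 - L * (nx x : ℝ) ^ (-(3/4) : ℝ) ≤ p ∧
      p ≤ 1/2 - (nx x : ℝ) ^ (-(3/4) : ℝ) ∧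
      c * (nx x : ℝ) ^ (3/4 * k - 5/24 : ℝ) ≤ iteratedDeriv k (tr x) p := by
  obtain ⟨c1, C1, hc1, hC1, h1⟩ := Pool.Agent.W424.NC.tau_upper
  obtain ⟨c2, C2, hc2, hC2, h2⟩ := Pool.Agent.W424.NC.tau_lower
  obtain ⟨Cp, hCp, hder⟩ := der_p
  intro k
  -- the spacing
  obtain ⟨E, hE⟩ : ∃ E : ℝ, E = c2 * Real.exp (-C2) := ⟨_, rfl⟩
  have hE0 : 0 < E := by rw [hE]; positivity
  obtain ⟨M, hM1, hM2⟩ : ∃ M : ℝ, 1 ≤ M ∧ 2 ^ k * (C1 * Real.exp (-(c1 * M))) ≤ E / 2 := by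
    have t1 : Tendsto (fun M : ℝ => 2 ^ k * (C1 * Real.exp (-(c1 * M)))) atTop (𝓝 0) := by
      have t2 : Tendsto (fun M : ℝ => Real.exp (-(c1 * M))) atTop (𝓝 0) :=
        Real.tendsto_exp_neg_atTop_nhds_zero.comp (tendsto_id.const_mul_atTop hc1)
      have t3 := (t2.const_mul C1).const_mul (2 ^ k)
      rwa [mul_zero, mul_zero] at t3
    obtain ⟨M0, hM0⟩ := eventually_atTop.1 (t1.eventually_lt_const (by positivity : 0 < E / 2))
    exact ⟨max M0 1, le_max_right _ _, (hM0 _ (le_max_left _ _)).le⟩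
  have hM0 : 0 < M := by linarith
  -- the constants
  obtain ⟨A, hA⟩ : ∃ A : ℝ, A = 1 + k * M := ⟨_, rfl⟩
  have hA1 : 1 ≤ A := by
    rw [hA]
    have : 0 ≤ (k:ℝ) * M := by positivity
    linarith
  obtain ⟨L, hL⟩ : ∃ L : ℝ, L = (8 * A) ^ 2 := ⟨_, rfl⟩
  have hLA : A ≤ L := by rw [hL]; nlinarith
  have hL1 : 1 < L := by rw [hL]; nlinarith
  refine ⟨E / 4 / M ^ k, L, by positivity, hL1, ?_⟩
  intro x hx
  obtain ⟨n, hn⟩ : ∃ n : ℝ, n = nx x := ⟨_, rfl⟩
  rw [← hn] at hx ⊢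
  have hn1 : 1 < n := lt_of_lt_of_le hL1 hx
  have hn0 : 0 < n := by linarith
  have hx0 : x ≠ (0, 0) := by
    intro h
    rw [h] at hn
    unfold nx at hn
    simp at hn
    linarith
  obtain ⟨t, ht⟩ : ∃ t : ℝ, t = n ^ (-(3/4) : ℝ) := ⟨_, rfl⟩
  have ht0 : 0 < t := by rw [ht]; positivity
  have hAt : A * t ≤ 1/8 := by
    have e1 : t ≤ n ^ (-(1/2) : ℝ) := by
      rw [ht]
      exact Real.rpow_le_rpow_of_exponent_le hn1.le (by norm_num)
    have e2 : n ^ (-(1/2) : ℝ) ≤ L ^ (-(1/2) : ℝ) :=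
      Real.rpow_le_rpow_of_nonpos (by linarith) hx (by norm_num)
    have e3 : L ^ (-(1/2) : ℝ) = (8 * A)⁻¹ := by
      rw [hL, ← Real.rpow_natCast, ← Real.rpow_mul (by linarith)]
      norm_num
      rw [Real.rpow_neg_one]
      rw [mul_inv, mul_comm]
      norm_num
    rw [e3] at e2
    have e4 := mul_le_mul_of_nonneg_left (e1.trans e2) (by linarith : 0 ≤ A)
    refine e4.trans (le_of_eq ?_)
    field_simp
  rw [← ht]
  have hnt : n * t ^ (4/3 : ℝ) = 1 := by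
    rw [ht, ← Real.rpow_mul hn0.le]
    norm_num
    rw [Real.rpow_neg_one]
    exact mul_inv_cancel₀ hn0.ne'
  -- the nodes
  obtain ⟨h, hh⟩ : ∃ h : ℝ, h = M * t := ⟨_, rfl⟩
  have hh0 : 0 < h := by rw [hh]; positivity
  obtain ⟨a, ha⟩ : ∃ a : ℝ, a = 1/2 - t - k * h := ⟨_, rfl⟩
  have hA' : A * t = t + k * h := by rw [hA, hh]; ring
  have ha0 : 1/4 < a := by rw [ha]; linarith
  obtain ⟨b, hb⟩ : ∃ b : ℝ, b = (n + 1) ^ (-(5/24) : ℝ) := ⟨_, rfl⟩
  have hb0 : 0 < b := by rw [hb]; positivity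
  have hval : ∀ q : ℝ, 1/4 ≤ q → q ≤ 1/2 →
      c2 * b * Real.exp (-(C2 * (n * (1/2 - q) ^ (4/3 : ℝ)))) ≤ tr x q ∧
      tr x q ≤ C1 * b * Real.exp (-(c1 * (n * (1/2 - q) ^ (4/3 : ℝ)))) := by
    intro q hq1 hq2
    obtain ⟨P, hP⟩ : ∃ P : unitInterval, (P : ℝ) = q := ⟨⟨q, by linarith, by linarith⟩, rfl⟩
    have k1 := h2 P (by rw [hP]; exact hq1) (by rw [hP]; exact hq2) x
    have k2 := h1 P (by rw [hP]; exact hq2) x
    rw [nrm_nx, ← hn, ← hb, hP, ← tr_of, hP] at k1 k2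
    exact ⟨k1, k2⟩
  have top : 2 * (E * b / 2) ≤ tr x (a + k * h) := by
    have e1 : a + k * h = 1/2 - t := by rw [ha]; ring
    rw [e1]
    have k1 := (hval (1/2 - t) (by linarith [mul_nonneg (Nat.cast_nonneg (α := ℝ) k) hh0.le])
      (by linarith)).1
    have e2 : (1/2 - (1/2 - t) : ℝ) = t := by ring
    rw [e2, hnt, mul_one] at k1
    refine le_trans (le_of_eq ?_) k1
    rw [hE]
    ring
  have oth : ∀ j < k, |tr x (a + j * h)| ≤ C1 * b * Real.exp (-(c1 * M)) := by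
    intro j hj
    have hj1 : (j:ℝ) + 1 ≤ k := by exact_mod_cast hj
    have hj2 : (j:ℝ) * h + h ≤ k * h := by nlinarith
    have hj3 : 0 ≤ (j:ℝ) * h := by positivity
    have k1 := (hval (a + j * h) (by linarith) (by linarith)).2
    have k0 := (hval (a + j * h) (by linarith) (by linarith)).1
    rw [abs_of_nonneg (le_trans (by positivity) k0)]
    refine k1.trans ?_
    apply mul_le_mul_of_nonneg_left _ (by positivity)
    apply Real.exp_le_exp.2
    have e1 : h ≤ 1/2 - (a + j * h) := by rw [ha]; linarith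
    have e2 : M ≤ n * (1/2 - (a + j * h)) ^ (4/3 : ℝ) := by
      have e3 : h ^ (4/3 : ℝ) ≤ (1/2 - (a + j * h)) ^ (4/3 : ℝ) :=
        Real.rpow_le_rpow hh0.le e1 (by norm_num)
      have e4 : M ≤ M ^ (4/3 : ℝ) := by
        have := Real.rpow_le_rpow_of_exponent_le hM1 (show (1:ℝ) ≤ 4/3 by norm_num)
        rwa [Real.rpow_one] at this
      calc M ≤ M ^ (4/3 : ℝ) := e4
        _ = n * h ^ (4/3 : ℝ) := by
            rw [hh, Real.mul_rpow hM0.le ht0.le, mul_left_comm, hnt, mul_one]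
        _ ≤ _ := mul_le_mul_of_nonneg_left e3 hn0.le
    have := mul_le_mul_of_nonneg_left e2 hc1.le
    linarith
  obtain ⟨ξ, k1, k2, k3⟩ := fd_low (k := k) (f := tr x) (a := a) (h := h) (u := 0) (v := 1/2)
    (m := C1 * b * Real.exp (-(c1 * M))) (m' := E * b / 2) hh0 (by linarith)
    (by rw [ha]; linarith)
    (fun y hy => (hder y hy.1 (by linarith [hy.2]) (by linarith [hy.2]) x hx0).1)
    (by positivity) top oth (by
      have := mul_le_mul_of_nonneg_right hM2 hb0.le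
      linarith)
  refine ⟨ξ, by linarith, ?_, ?_, ?_⟩
  · refine le_trans ?_ k1
    rw [ha]
    have : A * t ≤ L * t := mul_le_mul_of_nonneg_right hLA ht0.le
    linarith
  · refine k2.trans ?_
    rw [ha]
    linarith
  · -- the size
    have e1 : n ^ (-(5/24) : ℝ) / 2 ≤ b := by
      rw [hb]
      have e2 : (2 * n) ^ (-(5/24) : ℝ) ≤ (n + 1) ^ (-(5/24) : ℝ) :=
        Real.rpow_le_rpow_of_nonpos (by linarith) (by linarith) (by norm_num)
      refine le_trans ?_ e2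
      rw [Real.mul_rpow (by norm_num) hn0.le]
      have e3 : (1/2 : ℝ) ≤ 2 ^ (-(5/24) : ℝ) := by
        have := Real.rpow_le_rpow_of_exponent_le (show (1:ℝ) ≤ 2 by norm_num)
          (show (-1 : ℝ) ≤ -(5/24) by norm_num)
        rw [Real.rpow_neg_one] at this
        linarith
      have e4 : 0 < n ^ (-(5/24) : ℝ) := by positivity
      nlinarith
    have e5 : n ^ (3/4 * k - 5/24 : ℝ) * h ^ k = M ^ k * n ^ (-(5/24) : ℝ) := by
      rw [hh, mul_pow, ht, ← Real.rpow_natCast (n ^ (-(3/4) : ℝ)), ← Real.rpow_mul hn0.le,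
        mul_left_comm, ← Real.rpow_add hn0]
      congr 2
      ring
    have hhk : 0 < h ^ k := by positivity
    rw [← mul_le_mul_iff_right₀ hhk]
    refine le_trans (le_of_eq ?_) (le_trans (mul_le_mul_of_nonneg_left e1
      (by positivity : 0 ≤ E / 2)) ((le_of_eq ?_ : E / 2 * b ≤ E * b / 2).trans k3))
    · calc h ^ k * (E / 4 / M ^ k * n ^ (3/4 * k - 5/24 : ℝ))
          = E / 4 / M ^ k * (n ^ (3/4 * k - 5/24 : ℝ) * h ^ k) := by ring
        _ = _ := by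
            rw [e5]
            field_simp
            ring
    · ring

end Pool.Agent.H29.TL
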