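import Pool.Agent.H29.TL.CoefL
import Pool.Agent.H29.TG.LimT

/-!
The two-point function in a large box, with other parameters outside of a smaller box.
-/

set_option autoImplicit false

namespace Pool.Agent.H29.TL

open H974 hiding WW
open H12S hiding TP
open H389NS Finset Filter Topology MeasureTheory
open Pool.Agent.NH39 (dd InB OutB ann_cross A4a_congr)
open Pool.Agent.NH39.W (Dl wt wt_pos wt_anti psi psi_nn lam_nonneg lam_le_one)
open Pool.Agent.H29.TH (oo ps tayU Ex_cq blk_sub_box)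
open Pool.Agent.H29.TG (ro fT fT_eq exit_or tau_lim pr_tp_mono)
open H31K (tau)

/-- A path of the large box between two points of the small box stays in the box, or there are
four arms. -/
theorem in_or {M r : ℕ} {x : Vtx} {F : Finset Edg} (hrM : r ≤ M) (hx : |x.1| ≤ r ∧ |x.2| ≤ r)
    (h : TP x F) : TP x (F ∩ boxE M) ∨ A4a (0, 0) r M (↑F : Set Edg) := by
  by_cases hin : TP x (F ∩ boxE M)
  · exact Or.inl hin
  right
  have hrM' : (r:ℤ) ≤ M := by exact_mod_cast hrM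
  obtain ⟨H, hH⟩ : ∃ H : Set Edg, H = (↑F : Set Edg) ∩ ↑(RE (-(M:ℤ)) M (-M) M) := ⟨_, rfl⟩
  have hin' : ¬ Reach H (0, 0) x := by
    intro hc
    apply hin
    unfold TP
    rw [Finset.coe_inter]
    rw [hH] at hc
    exact hc
  have hR : Reach (↑F : Set Edg) (0, 0) x := h
  have hxi : InB (0, 0) r x := by unfold InB; simpa using hx
  have h0i : InB (0, 0) r (0, 0) := by unfold InB; simp
  have hout : ∀ w : Vtx, (w.1 = -(M:ℤ) ∨ w.1 = M ∨ w.2 = -(M:ℤ) ∨ w.2 = M) →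
      OutB (0, 0) M w := by
    intro w hw
    unfold OutB
    simp only [sub_zero]
    rcases hw with h | h | h | h
    · left; rw [h, abs_neg]; exact le_abs_self _
    · left; rw [h]; exact le_abs_self _
    · right; rw [h, abs_neg]; exact le_abs_self _
    · right; rw [h]; exact le_abs_self _
  rw [abs_le, abs_le] at hx
  obtain ⟨w, -, k2, k3⟩ : ∃ w, inR (-(M:ℤ)) M (-M) M w ∧
      (w.1 = -(M:ℤ) ∨ w.1 = M ∨ w.2 = -(M:ℤ) ∨ w.2 = M) ∧ Reach H (0, 0) w := by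
    rcases exit_or (G := (↑F : Set Edg)) (a := -M) (b := M) (c := -M) (d := M) (u := (0, 0))
      (v := x) (by unfold inR; simp) hR with h1 | h1
    · rw [hH]; exact h1
    · rw [← hH] at h1
      exact absurd h1 hin'
  obtain ⟨w', -, k2', k3'⟩ : ∃ w, inR (-(M:ℤ)) M (-M) M w ∧
      (w.1 = -(M:ℤ) ∨ w.1 = M ∨ w.2 = -(M:ℤ) ∨ w.2 = M) ∧ Reach H x w := by
    rcases exit_or (G := (↑F : Set Edg)) (a := -M) (b := M) (c := -M) (d := M) (u := x)
      (v := (0, 0)) (by unfold inR; omega) hR.symm with h1 | h1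
    · rw [hH]; exact h1
    · rw [← hH] at h1
      exact absurd h1.symm hin'
  obtain ⟨u1, hu1, w1, hw1, p1, p2⟩ := ann_cross hrM h0i (hout w k2) k3
  obtain ⟨u2, hu2, w2, hw2, p3, p4⟩ := ann_cross hrM hxi (hout w' k2') k3'
  have hsub : H ∩ ↑(blk (0, 0) M \ blk (0, 0) r) ⊆
      (↑F : Set Edg) ∩ ↑(blk (0, 0) M \ blk (0, 0) r) := by
    rw [hH]
    rintro e ⟨⟨j1, -⟩, j2⟩
    exact ⟨j1, j2⟩
  have hsub2 : (↑F : Set Edg) ∩ ↑(blk (0, 0) M \ blk (0, 0) r) ⊆ H := by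
    rw [hH]
    rintro e ⟨j1, j2⟩
    refine ⟨j1, ?_⟩
    rw [Finset.mem_coe, Finset.mem_sdiff] at j2
    have j3 := j2.1
    rw [S4C_blk0] at j3
    exact j3
  refine ⟨u1, hu1, u2, hu2, ⟨w1, hw1, p1.mono hsub⟩, ⟨w2, hw2, p3.mono hsub⟩, ?_⟩
  intro hc
  apply hin'
  have q1 : Reach H u1 w1 := p1.mono Set.inter_subset_left
  have q2 : Reach H u2 w2 := p3.mono Set.inter_subset_left
  have q3 : Reach H u1 u2 := hc.mono hsub2
  exact (((p2.trans q1.symm).trans q3).trans q2).trans p4.symm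

/-- The mixture of two parameters. -/
noncomputable def mxp (M : ℕ) (p y : ℝ) (e : Edg) : ℝ := if e ∈ boxE M then p + (y - p) else p

theorem mxp_ok {M : ℕ} {p y : ℝ} (hp0 : 0 ≤ p) (hp1 : p ≤ 1) (hy0 : 0 ≤ y) (hy1 : y ≤ 1) :
    Ok (mxp M p y) := by
  intro e
  unfold mxp
  split_ifs
  · exact ⟨by linarith, by linarith⟩
  · exact ⟨hp0, hp1⟩

/-- The mixture is close to the two-point function of the small box. -/
theorem mix_near : ∃ C : ℝ, 1 ≤ C ∧ ∀ p y : ℝ, 0 ≤ p → p ≤ 1 → 0 ≤ y → y ≤ 1 →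
    ∀ (r M L : ℕ) (x : Vtx), 1 ≤ r → r ≤ M → M ≤ L → |x.1| ≤ r ∧ |x.2| ≤ r →
    Pr (fun _ => y) (boxE M) (TP x) ≤ Ex (mxp M p y) (boxE L) (fT L x) ∧
    Ex (mxp M p y) (boxE L) (fT L x) ≤
      Pr (fun _ => y) (boxE M) (TP x) + C * (wt y M / wt y r) := by
  obtain ⟨C, hC, hpl⟩ := Pool.Agent.NH39.W.pl
  refine ⟨C, hC, ?_⟩
  intro p y hp0 hp1 hy0 hy1 r M L x hr hrM hML hx
  have hok := mxp_ok (M := M) hp0 hp1 hy0 hy1
  have oky := okq hy0 hy1
  have e1 : Ex (mxp M p y) (boxE L) (fT L x) = Pr (mxp M p y) (boxE L) (TP x) :=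
    Ex_congr (fun F hF => fT_eq hF)
  rw [e1]
  have h3 : Pr (mxp M p y) (boxE L) (fun F => TP x (F ∩ boxE M)) =
      Pr (fun _ => y) (boxE M) (TP x) := by
    have e2 : Pr (mxp M p y) (boxE L) (fun F => TP x (F ∩ boxE M)) =
        Pr (mxp M p y) (boxE M) (fun F => TP x (F ∩ boxE M)) :=
      Pr_local (S := boxE L) (S' := boxE M) (boxE_mono hML) (fun F _ => by
        rw [Finset.inter_assoc, Finset.inter_self])
    have e3 : Pr (mxp M p y) (boxE M) (fun F => TP x (F ∩ boxE M)) =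
        Pr (fun _ => y) (boxE M) (fun F => TP x (F ∩ boxE M)) :=
      Ex_cq (fun e he => by unfold mxp; rw [if_pos he]; ring) _
    rw [e2, e3]
    exact Pr_congr (fun F hF => by rw [Finset.inter_eq_left.2 hF])
  have h4 : Pr (mxp M p y) (boxE L) (fun F => A4a (0, 0) r M (↑F : Set Edg)) ≤
      C * (wt y M / wt y r) := by
    have e2 : Pr (mxp M p y) (boxE L) (fun F => A4a (0, 0) r M (↑F : Set Edg)) =
        Pr (mxp M p y) (boxE M) (fun F => A4a (0, 0) r M (↑F : Set Edg)) :=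
      Pr_local (S := boxE L) (S' := boxE M) (boxE_mono hML) (fun F _ => by
        apply A4a_congr
        ext e
        simp only [Set.mem_inter_iff, Finset.coe_inter, Finset.mem_coe]
        constructor
        · rintro ⟨j1, j2⟩
          refine ⟨⟨j1, ?_⟩, j2⟩
          rw [Finset.mem_sdiff, S4C_blk0] at j2
          exact j2.1
        · rintro ⟨⟨j1, -⟩, j2⟩
          exact ⟨j1, j2⟩)
    have e3 : Pr (mxp M p y) (boxE M) (fun F => A4a (0, 0) r M (↑F : Set Edg)) =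
        Pr (fun _ => y) (boxE M) (fun F => A4a (0, 0) r M (↑F : Set Edg)) :=
      Ex_cq (fun e he => by unfold mxp; rw [if_pos he]; ring) _
    rw [e2, e3]
    have h1 := Pool.Agent.NH39.NC.le_hQ (q := y) (c := (0, 0)) (d := r) (k := M) (S := boxE M) oky
      (by rw [S4C_blk0])
    exact h1.trans (hpl y hy0 hy1 r M hr hrM)
  constructor
  · rw [← h3]
    apply Pr_mono hok
    intro F _ hF
    exact Reach.mono (by rw [Finset.coe_inter]; exact Set.inter_subset_left) hF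
  · calc Pr (mxp M p y) (boxE L) (TP x) ≤ Pr (mxp M p y) (boxE L)
          (fun F => TP x (F ∩ boxE M) ∨ A4a (0, 0) r M (↑F : Set Edg)) :=
          Pr_mono hok (fun F _ hF => in_or hrM hx hF)
      _ ≤ _ := Pr_or_le hok _ _ _
      _ ≤ _ := add_le_add (le_of_eq h3) h4

/-- The decay of the bound. -/
theorem wt_quot {y : ℝ} (hy0 : 0 ≤ y) (hy1 : y ≤ 1) {r M : ℕ} (hr : 1 ≤ r) (hM : 1 ≤ M) :
    wt y M / wt y r ≤ 4 * (r:ℝ) ^ 3 * (M:ℝ) ^ (-(5/4) : ℝ) := by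
  have hl := lam_nonneg y
  have hl1 := lam_le_one hy0 hy1
  obtain ⟨l, hl'⟩ : ∃ l : ℝ, l = |y - 1/2| ^ (4/3 : ℝ) := ⟨_, rfl⟩
  rw [← hl'] at hl hl1
  have hr1 : (1:ℝ) ≤ r := by exact_mod_cast hr
  have hM1 : (1:ℝ) ≤ M := by exact_mod_cast hM
  have hr0 : (0:ℝ) < r := by linarith
  have hM0 : (0:ℝ) < M := by linarith
  have h1 : wt y M ≤ (M:ℝ) ^ (-(5/4) : ℝ) := by
    unfold wt
    rw [← hl']
    apply mul_le_of_le_one_right (by positivity)
    rw [div_le_one (by positivity)]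
    nlinarith
  have h2 : 1 / (2 * (r:ℝ) ^ 3) ≤ wt y r := by
    unfold wt
    rw [← hl']
    have e1 : 1 / (r:ℝ) ^ 2 ≤ (r:ℝ) ^ (-(5/4) : ℝ) := by
      have := Real.rpow_le_rpow_of_exponent_le hr1 (show (-2 : ℝ) ≤ -(5/4) by norm_num)
      refine le_trans (le_of_eq ?_) this
      rw [Real.rpow_neg hr0.le, one_div]
      norm_num
    have e2 : 1 / (2 * (r:ℝ)) ≤ (1 + l) / (1 + l * r) := by
      rw [div_le_div_iff₀ (by positivity) (by positivity)]
      nlinarith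
    calc 1 / (2 * (r:ℝ) ^ 3) = 1 / (r:ℝ) ^ 2 * (1 / (2 * (r:ℝ))) := by field_simp
      _ ≤ _ := mul_le_mul e1 e2 (by positivity) (by positivity)
  have h3 : 0 < 1 / (2 * (r:ℝ) ^ 3) := by positivity
  calc wt y M / wt y r ≤ (M:ℝ) ^ (-(5/4) : ℝ) / (1 / (2 * (r:ℝ) ^ 3)) :=
        div_le_div₀ (by positivity) h1 h3 h2
    _ = 2 * (r:ℝ) ^ 3 * (M:ℝ) ^ (-(5/4) : ℝ) := by field_simp
    _ ≤ _ := by
        have : 0 < (r:ℝ) ^ 3 * (M:ℝ) ^ (-(5/4) : ℝ) := by positivity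
        linarith

/-- The two-point function as a function of a real parameter. -/
noncomputable def tr (x : Vtx) (p : ℝ) : ℝ := tau (Set.projIcc 0 1 zero_le_one p) x

theorem tr_lim (x : Vtx) {y : ℝ} (hy0 : 0 ≤ y) (hy1 : y ≤ 1) :
    Tendsto (fun n => Pr (fun _ => y) (boxE n) (TP x)) atTop (𝓝 (tr x y)) := by
  obtain ⟨P, hP⟩ : ∃ P : unitInterval, (P : ℝ) = y := ⟨⟨y, hy0, hy1⟩, rfl⟩
  have h := tau_lim P x
  have e : tr x y = tau P x := by
    unfold tr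
    rw [← hP, Set.projIcc_val]
  rw [e, ← hP]
  exact h

/-- The mixture is close to the two-point function of the plane. -/
theorem mix_tr : ∃ C : ℝ, 1 ≤ C ∧ ∀ p y : ℝ, 0 ≤ p → p ≤ 1 → 0 ≤ y → y ≤ 1 →
    ∀ (r M L : ℕ) (x : Vtx), 1 ≤ r → r ≤ M → M ≤ L → |x.1| ≤ r ∧ |x.2| ≤ r →
    |Ex (mxp M p y) (boxE L) (fT L x) - tr x y| ≤ C * (r:ℝ) ^ 3 * (M:ℝ) ^ (-(5/4) : ℝ) := by
  obtain ⟨C, hC, hn⟩ := mix_near
  refine ⟨4 * C, by linarith, ?_⟩
  intro p y hp0 hp1 hy0 hy1 r M L x hr hrM hML hx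
  have hM : 1 ≤ M := hr.trans hrM
  obtain ⟨P, hP⟩ : ∃ P : unitInterval, (P : ℝ) = y := ⟨⟨y, hy0, hy1⟩, rfl⟩
  obtain ⟨E, hE⟩ : ∃ E : ℝ, E = C * (wt y M / wt y r) := ⟨_, rfl⟩
  obtain ⟨h1, h2⟩ := hn p y hp0 hp1 hy0 hy1 r M L x hr hrM hML hx
  rw [← hE] at h2
  have h3 : Pr (fun _ => y) (boxE M) (TP x) ≤ tr x y := by
    apply ge_of_tendsto (tr_lim x hy0 hy1)
    filter_upwards [eventually_ge_atTop M] with n hn'
    have := pr_tp_mono P (boxE_mono hn') x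
    rwa [hP] at this
  have h4 : tr x y ≤ Pr (fun _ => y) (boxE M) (TP x) + E := by
    apply le_of_tendsto (tr_lim x hy0 hy1)
    filter_upwards [eventually_ge_atTop M] with n hn'
    have h5 := (hn y y hy0 hy1 hy0 hy1 r M n x hr hrM hn' hx).2
    rw [← hE] at h5
    refine le_trans (le_of_eq ?_) h5
    have e1 : Ex (mxp M y y) (boxE n) (fT n x) = Pr (mxp M y y) (boxE n) (TP x) :=
      Ex_congr (fun F hF => fT_eq hF)
    rw [e1]
    exact (Ex_cq (fun e _ => by unfold mxp; split_ifs <;> ring) _).symm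
  have h5 : E ≤ 4 * C * (r:ℝ) ^ 3 * (M:ℝ) ^ (-(5/4) : ℝ) := by
    rw [hE]
    refine (mul_le_mul_of_nonneg_left (wt_quot hy0 hy1 hr hM) (by linarith)).trans
      (le_of_eq (by ring))
  rw [abs_le]
  constructor <;> linarith

end Pool.Agent.H29.TL
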