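import Pool.Agent.H29.TL.AnnL
import Pool.Graph.R_pool_sql_team_seeded_3dad9d7b.NH39.W.Sum2

/-!
The sum over the sets of edges which matter together for the connection of two points, on both
sides of the critical point.
-/

set_option autoImplicit false

namespace Pool.Agent.H29.TL

open H974 hiding WW
open H12S H389NS Finset
open Pool.Agent.NH39 (dd sum_dist)
open Pool.Agent.NH39.W (Dl wt WW WW_one wt_one wt_pos wt_anti wt_doub wt_ratio psi psi_le psi_nn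
  sum1d lam_nonneg lam_le_one dm geo_sum term_le)
open Pool.Agent.H29.TH (oo ps dd_self dd_comm dd_tri Wf vt vt_one vt_pos vt_anti vt_doub vt_rel
  mem_boxE_dd dd_box oo_mem Ex_Dl_le dm_le_of' ds_le_dm')
open Pool.Agent.H29.TG (ro fT Dsr fT_abs W3 W3_one sum_out)

/-- The inverse of the scale of the sums. -/
noncomputable def xq (p : ℝ) (M : ℕ) : ℝ := max |p - 1/2| ((2 * M : ℝ) ^ (-(3/4) : ℝ))

theorem xq_pos (p : ℝ) {M : ℕ} (hM : 1 ≤ M) : 0 < xq p M := by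
  have : (0:ℝ) < M := by exact_mod_cast hM
  exact lt_of_lt_of_le (by positivity) (le_max_right _ _)

theorem xq_le {p : ℝ} (h1 : 0 ≤ p) (h2 : p ≤ 1) {M : ℕ} (hM : 1 ≤ M) : xq p M ≤ 1 := by
  have hM1 : (1:ℝ) ≤ M := by exact_mod_cast hM
  apply max_le
  · rw [abs_le]; constructor <;> linarith
  · exact Real.rpow_le_one_of_one_le_of_nonpos (by linarith) (by norm_num)

/-- Sum of the truncated kernel. -/
theorem kern_scale {p : ℝ} (h1 : 0 ≤ p) (h2 : p ≤ 1) {M : ℕ} (hM : 1 ≤ M) {z : Edg}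
    (hz : z ∈ boxE M) (j : ℕ) :
    ∑ y ∈ boxE M, (if dd y z < 2 ^ (j + 1) then psi (wt p) (2 * M) (dd y z) else 0) ≤
      400 * WW * min (((2:ℝ) ^ j) ^ (3/4 : ℝ)) (xq p M)⁻¹ := by
  have hW := WW_one
  have hl := lam_nonneg p
  have hl1 := lam_le_one (q := p) h1 h2
  obtain ⟨l, hl'⟩ : ∃ l : ℝ, l = |p - 1/2| ^ (4/3 : ℝ) := ⟨_, rfl⟩
  rw [← hl'] at hl hl1
  obtain ⟨R, hR⟩ : ∃ R : ℕ, R = min (2 ^ (j + 1)) (2 * M) := ⟨_, rfl⟩
  have hM1 : (1:ℝ) ≤ M := by exact_mod_cast hM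
  have s1 : ∑ y ∈ boxE M, (if dd y z < 2 ^ (j + 1) then psi (wt p) (2 * M) (dd y z) else 0) ≤
      18 * ∑ b ∈ range (R + 1), ((b:ℝ) + 1) * psi (wt p) (2 * M) b := by
    rw [← Finset.sum_filter]
    have h := sum_dist z R ((boxE M).filter (fun y => dd y z < 2 ^ (j + 1))) (fun f hf => by
      rw [mem_filter] at hf
      rw [hR, dd_comm]
      exact le_min hf.2.le (dd_box hf.1 hz))
      (fun b => psi (wt p) (2 * M) b) (fun b => psi_nn p _ b)
    refine le_trans (le_of_eq ?_) h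
    exact Finset.sum_congr rfl (fun y _ => by rw [dd_comm])
  have s2 : ∀ b ∈ range (R + 1), ((b:ℝ) + 1) * psi (wt p) (2 * M) b ≤
      2 * WW * (((b:ℝ) + 1) ^ (-(1/4) : ℝ) / (1 + l * ((b:ℝ) + 1))) := by
    intro b hb
    rw [Finset.mem_range] at hb
    have hbM : b ≤ 2 * M := by omega
    have h3 := psi_le (q := p) h1 h2 (N := 2 * M) (s := b) (t := b + 1) (by omega)
      (by omega)
    rw [← hl'] at h3
    push_cast at h3
    have hb0 : (0:ℝ) < (b:ℝ) + 1 := by positivity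
    have e : ((b:ℝ) + 1) * (((b:ℝ) + 1) ^ (-(5/4) : ℝ)) = ((b:ℝ) + 1) ^ (-(1/4) : ℝ) := by
      nth_rewrite 1 [← Real.rpow_one ((b:ℝ) + 1)]
      rw [← Real.rpow_add hb0]
      norm_num
    calc ((b:ℝ) + 1) * psi (wt p) (2 * M) b ≤ ((b:ℝ) + 1) *
        (2 * WW * (((b:ℝ) + 1) ^ (-(5/4) : ℝ) / (1 + l * ((b:ℝ) + 1)))) :=
          mul_le_mul_of_nonneg_left h3 hb0.le
      _ = 2 * WW * ((((b:ℝ) + 1) * (((b:ℝ) + 1) ^ (-(5/4) : ℝ))) / (1 + l * ((b:ℝ) + 1))) := by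
          ring
      _ = _ := by rw [e]
  have s3 : ∑ b ∈ range (R + 1), ((b:ℝ) + 1) ^ (-(1/4) : ℝ) / (1 + l * ((b:ℝ) + 1)) ≤
      10 * min (((2:ℝ) ^ j) ^ (3/4 : ℝ)) (xq p M)⁻¹ := by
    obtain ⟨t1, t2⟩ := sum1d hl hl1 (R + 1)
    have f4 : (4:ℝ) ^ (3/4 : ℝ) ≤ 4 := by
      have := Real.rpow_le_rpow_of_exponent_le (show (1:ℝ) ≤ 4 by norm_num)
        (show (3/4 : ℝ) ≤ 1 by norm_num)
      rwa [Real.rpow_one] at this
    have f2 : (2:ℝ) ^ (3/4 : ℝ) ≤ 2 := by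
      have := Real.rpow_le_rpow_of_exponent_le (show (1:ℝ) ≤ 2 by norm_num)
        (show (3/4 : ℝ) ≤ 1 by norm_num)
      rwa [Real.rpow_one] at this
    rw [mul_min_of_nonneg _ _ (by norm_num : (0:ℝ) ≤ 10)]
    apply le_min
    · refine t1.trans ?_
      have h3 : ((R + 1 : ℕ) : ℝ) ≤ 4 * 2 ^ j := by
        have : R + 1 ≤ 4 * 2 ^ j := by
          have h5 : R ≤ 2 ^ (j + 1) := by rw [hR]; exact min_le_left _ _
          have h6 : 1 ≤ 2 ^ j := Nat.one_le_two_pow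
          rw [pow_succ] at h5
          omega
        exact_mod_cast this
      have h4 : ((R + 1 : ℕ) : ℝ) ^ (3/4 : ℝ) ≤ 4 * ((2:ℝ) ^ j) ^ (3/4 : ℝ) := by
        refine (Real.rpow_le_rpow (by positivity) h3 (by norm_num)).trans ?_
        rw [Real.mul_rpow (by norm_num) (by positivity)]
        exact mul_le_mul_of_nonneg_right f4 (by positivity)
      have h5 : 0 < ((2:ℝ) ^ j) ^ (3/4 : ℝ) := by positivity
      linarith
    · rcases le_total |p - 1/2| ((2 * M : ℝ) ^ (-(3/4) : ℝ)) with hc | hc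
      · have e1 : xq p M = (2 * M : ℝ) ^ (-(3/4) : ℝ) := max_eq_right hc
        rw [e1, ← Real.rpow_neg (by positivity), neg_neg]
        refine t1.trans ?_
        have h3 : ((R + 1 : ℕ) : ℝ) ≤ 2 * (2 * M) := by
          have : R + 1 ≤ 2 * (2 * M) := by
            have h5 : R ≤ 2 * M := by rw [hR]; exact min_le_right _ _
            omega
          exact_mod_cast this
        have h4 : ((R + 1 : ℕ) : ℝ) ^ (3/4 : ℝ) ≤ 2 * (2 * M : ℝ) ^ (3/4 : ℝ) := by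
          refine (Real.rpow_le_rpow (by positivity) h3 (by norm_num)).trans ?_
          rw [Real.mul_rpow (by norm_num) (by positivity)]
          exact mul_le_mul_of_nonneg_right f2 (by positivity)
        have h5 : 0 < (2 * M : ℝ) ^ (3/4 : ℝ) := by positivity
        linarith
      · have e1 : xq p M = |p - 1/2| := max_eq_left hc
        have hpos : 0 < |p - 1/2| := lt_of_lt_of_le (by positivity) hc
        have hlp : 0 < l := by rw [hl']; positivity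
        have e2 : l ^ (3/4 : ℝ) = |p - 1/2| := by
          rw [hl', ← Real.rpow_mul (abs_nonneg _)]; norm_num
        have := t2 hlp
        rw [e2] at this
        rw [e1]
        exact this
  have hmin : 0 ≤ min (((2:ℝ) ^ j) ^ (3/4 : ℝ)) (xq p M)⁻¹ :=
    le_min (by positivity) (inv_nonneg.2 (xq_pos p hM).le)
  have s4 : ∑ b ∈ range (R + 1), ((b:ℝ) + 1) * psi (wt p) (2 * M) b ≤
      2 * WW * (10 * min (((2:ℝ) ^ j) ^ (3/4 : ℝ)) (xq p M)⁻¹) := by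
    refine (Finset.sum_le_sum s2).trans ?_
    rw [← Finset.mul_sum]
    exact mul_le_mul_of_nonneg_left s3 (by positivity)
  refine (s1.trans (mul_le_mul_of_nonneg_left s4 (by norm_num))).trans ?_
  have : 0 ≤ WW * min (((2:ℝ) ^ j) ^ (3/4 : ℝ)) (xq p M)⁻¹ := by positivity
  nlinarith

theorem wt_poly (q : ℝ) {r s m : ℕ} (hr : 1 ≤ r) (hs : r ≤ s) (hm : 1 ≤ m) (h : s ≤ m * r) :
    wt q r ≤ (m:ℝ) ^ 3 * wt q s := by
  have hl := lam_nonneg q
  have hr0 : (0:ℝ) < r := by exact_mod_cast hr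
  have hs0 : (0:ℝ) < s := by exact_mod_cast (by omega : 0 < s)
  have hM0 : (0:ℝ) < m := by exact_mod_cast hm
  have hM1 : (1:ℝ) ≤ m := by exact_mod_cast hm
  have hrs : (r:ℝ) ≤ s := by exact_mod_cast hs
  have hMr : (s:ℝ) ≤ m * r := by exact_mod_cast h
  have h1 := wt_ratio (q := q) hr hs
  have v1 := wt_pos q hr
  have e2 : 1 / (m:ℝ) ≤ r / s := by rw [div_le_div_iff₀ hM0 hs0]; linarith
  have e1 : (1 / (m:ℝ)) ^ 2 ≤ ((r:ℝ) / s) ^ (5/4 : ℝ) := by
    have e3 : ((r:ℝ) / s) ^ (2:ℝ) ≤ (r / s) ^ (5/4 : ℝ) :=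
      Real.rpow_le_rpow_of_exponent_ge (x := (r:ℝ) / s) (by positivity)
        ((div_le_one hs0).2 hrs) (show (5/4 : ℝ) ≤ 2 by norm_num)
    have e4 : ((r:ℝ) / s) ^ (2:ℝ) = (r / s) ^ 2 := by
      rw [← Real.rpow_natCast]; norm_num
    rw [e4] at e3
    exact (pow_le_pow_left₀ (by positivity) e2 2).trans e3
  have e4 : 1 / (m:ℝ) ≤ (1 + |q - 1/2| ^ (4/3 : ℝ) * r) / (1 + |q - 1/2| ^ (4/3 : ℝ) * s) := by
    rw [div_le_div_iff₀ hM0 (by positivity)]
    have := mul_le_mul_of_nonneg_left hMr hl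
    nlinarith
  have e6 : (1 / (m:ℝ)) ^ 2 * (1 / (m:ℝ)) ≤ wt q s / wt q r := by
    rw [h1]
    exact mul_le_mul e1 e4 (by positivity) (by positivity)
  rw [le_div_iff₀ v1] at e6
  have e7 : (m:ℝ) ^ 3 * ((1 / (m:ℝ)) ^ 2 * (1 / (m:ℝ)) * wt q r) = wt q r := by
    field_simp
  rw [← e7]
  exact mul_le_mul_of_nonneg_left e6 (by positivity)

/-- The prefactor. -/
noncomputable def Vx (p : ℝ) (M : ℕ) (x : Vtx) : ℝ :=
  vt (qm p) (dd oo (ro x)) ^ 2 / psi (wt p) (2 * M) (dd oo (ro x))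

theorem five_pow_le (n : ℕ) : (n:ℝ) ^ 5 ≤ 32 ^ n := by
  have h1 : (n:ℝ) ≤ 2 ^ n := by exact_mod_cast Nat.lt_two_pow_self.le
  calc (n:ℝ) ^ 5 ≤ ((2:ℝ) ^ n) ^ 5 := pow_le_pow_left₀ (by positivity) h1 5
    _ = 32 ^ n := by rw [← pow_mul, mul_comm, pow_mul]; norm_num

/-- KEY for one set. -/
theorem key_set : ∃ K : ℝ, 1 ≤ K ∧ ∀ p : ℝ, 0 ≤ p → p ≤ 1 → ∀ M L : ℕ, 1 ≤ M → 3 * M ≤ L →
    ∀ x : Vtx, x ≠ (0, 0) → ro x ∈ boxE M → ∀ A ⊆ boxE M \ {oo, ro x},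
    ∃ (par : Edg → Edg) (rk : Edg → ℕ),
      (∀ y ∈ A, (par y ∈ A ∧ rk (par y) < rk y) ∨ par y ∈ ({oo, ro x} : Finset Edg)) ∧
      Pr (fun _ => p) (boxE L) (Dsr L x (A ∪ {oo, ro x})) ≤
        K ^ 2 * Vx p M x * ((K ^ A.card * ∏ y ∈ A, psi (wt p) (2 * M) (dd y (par y))) *
          psi (wt p) (2 * M) (dm dd (A ∪ {oo, ro x}))) := by
  obtain ⟨C, hC, hk⟩ := kset4
  have hW := WW_one
  have hW3 := W3_one
  obtain ⟨a, ha⟩ : ∃ a : ℝ, a = C * W3 ^ 2 := ⟨_, rfl⟩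
  have ha1 : 1 ≤ a := by
    rw [ha]
    have : 1 ≤ W3 ^ 2 := by nlinarith
    nlinarith
  obtain ⟨K, hK⟩ : ∃ K : ℝ, K = 32 * a ^ 4 := ⟨_, rfl⟩
  have hK1 : 1 ≤ K := by
    rw [hK]
    have : 1 ≤ a ^ 4 := one_le_pow₀ ha1
    linarith
  refine ⟨K, hK1, ?_⟩
  intro p hp0 hp2 M L hM hL x hx0 hx A hA
  have ok := okq hp0 hp2
  have H := hk p hp0 hp2 M L hM hL x hx0 hx
  obtain ⟨d, hd⟩ : ∃ d, d = dd oo (ro x) := ⟨_, rfl⟩
  have hd1 : 1 ≤ d := by rw [hd]; exact dd_ro_pos hx0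
  have hdN : d ≤ 2 * M := by rw [hd]; exact dd_box (oo_mem hM) hx
  obtain ⟨P, hP⟩ : ∃ P : Finset Edg, P = {oo, ro x} := ⟨_, rfl⟩
  have hPc : P.card ≤ 2 := by rw [hP]; exact Finset.card_le_two
  have hPM : P ⊆ boxE M := by
    rw [hP]
    intro e he
    rw [mem_insert, mem_singleton] at he
    rcases he with rfl | rfl
    · exact oo_mem hM
    · exact hx
  have hV : Vx p M x = vt (qm p) d ^ 2 / psi (wt p) (2 * M) d := by unfold Vx; rw [← hd]
  rw [← hP] at hA ⊢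
  have hAM : A ⊆ boxE M := hA.trans sdiff_subset
  have hAP : Disjoint A P := by
    rw [Finset.disjoint_left]
    intro e he he'
    exact (mem_sdiff.1 (hA he)).2 he'
  have hTM : A ∪ P ⊆ boxE M := union_subset hAM hPM
  have hoT : oo ∈ A ∪ P := mem_union_right _ (by rw [hP]; exact mem_insert_self _ _)
  have hzT : ro x ∈ A ∪ P := mem_union_right _ (by
    rw [hP]; exact mem_insert_of_mem (mem_singleton_self _))
  obtain ⟨m, hm⟩ : ∃ m, m = (A ∪ P).card := ⟨_, rfl⟩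
  have hm1 : 1 ≤ m := by rw [hm]; exact Finset.card_pos.2 ⟨oo, hoT⟩
  have hmR : (1:ℝ) ≤ m := by exact_mod_cast hm1
  obtain ⟨v, hv⟩ : ∃ v : ℝ, v = vt (qm p) d := ⟨_, rfl⟩
  obtain ⟨Z, hZ⟩ : ∃ Z : ℝ, Z = psi (wt p) (2 * M) d := ⟨_, rfl⟩
  have hv0 : 0 < v := by rw [hv]; exact vt_pos hd1
  have hZ0 : 0 < Z := by rw [hZ]; unfold psi; exact wt_pos p (le_max_left _ _)
  rw [← hv, ← hZ] at hV
  have hV0 : 0 < Vx p M x := by rw [hV]; positivity
  obtain ⟨V, hVV⟩ : ∃ V, V = Vx p M x := ⟨_, rfl⟩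
  rw [← hVV] at hV hV0 ⊢
  have hT0 : (0:ℝ) ≤ (m:ℝ) ^ 5 * V := by positivity
  obtain ⟨par, rk, t1, t2⟩ := key4 H (T0 := (m:ℝ) ^ 5 * V) hT0 ha1 (le_of_eq ha.symm)
    (fun x hx y hy => dd_box hx hy) hTM hoT hzT (by
      intro t s ht1 ht2 hs
      rw [← hd] at ht1 ht2
      rw [← hm] at ht2 hs
      have h1 : psi (vt (qm p)) (2 * M) (t + 1) ≤ m * v := by
        unfold psi
        rw [min_eq_left (by omega), max_eq_right (by omega : 1 ≤ t + 1), hv]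
        exact vt_doub (qm_half p) (by omega) (by omega) hm1 ht2
      have h1' : 0 ≤ psi (vt (qm p)) (2 * M) (t + 1) := by
        unfold psi
        exact (vt_pos (le_max_left _ _)).le
      have h2 : psi (vt (qm p)) (2 * M) (t + 1) ^ 2 ≤ (m * v) ^ 2 := pow_le_pow_left₀ h1' h1 2
      have h3 : Z ≤ (m:ℝ) ^ 3 * psi (wt p) (2 * M) s := by
        rw [hZ]
        unfold psi
        rw [min_eq_left hdN, max_eq_right hd1]
        have hm2 : max (t + 1) (m * (t + 1)) = m * (t + 1) :=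
          max_eq_right (Nat.le_mul_of_pos_left _ hm1)
        rw [hm2] at hs
        have h4 : s ≤ m * d := hs.trans (Nat.mul_le_mul_left _ (by omega))
        rcases le_total (max 1 (min s (2 * M))) d with h5 | h5
        · have h6 := wt_anti p (le_max_left _ _) h5
          have h7 : 1 ≤ (m:ℝ) ^ 3 := one_le_pow₀ hmR
          have h8 := wt_pos p (r := max 1 (min s (2 * M))) (le_max_left _ _)
          nlinarith
        · apply wt_poly p hd1 h5 hm1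
          apply max_le
          · nlinarith
          · exact (min_le_left _ _).trans h4
      have h5 : V * Z = v ^ 2 := by rw [hV]; field_simp
      calc psi (vt (qm p)) (2 * M) (t + 1) ^ 2 ≤ (m * v) ^ 2 := h2
        _ = (m:ℝ) ^ 2 * (V * Z) := by rw [h5]; ring
        _ ≤ (m:ℝ) ^ 2 * (V * ((m:ℝ) ^ 3 * psi (wt p) (2 * M) s)) := by
            apply mul_le_mul_of_nonneg_left _ (by positivity)
            exact mul_le_mul_of_nonneg_left h3 hV0.le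
        _ = _ := by ring)
  have hSP : (A ∪ P) \ {oo, ro x} = A := by
    rw [← hP, union_sdiff_right]
    exact sdiff_eq_self_of_disjoint hAP
  rw [hSP] at t1 t2
  rw [← hm] at t2
  refine ⟨par, rk, ?_, ?_⟩
  · intro y hy
    obtain ⟨j1, j2⟩ := t1 y hy
    rcases mem_union.1 j1 with j1 | j1
    · exact Or.inl ⟨j1, j2⟩
    · exact Or.inr j1
  · refine t2.trans ?_
    obtain ⟨Q, hQ⟩ : ∃ Q : ℝ, Q = (∏ y ∈ A, psi (wt p) (2 * M) (dd y (par y))) *
      psi (wt p) (2 * M) (dm dd (A ∪ P)) := ⟨_, rfl⟩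
    have hQ0 : 0 ≤ Q := by
      rw [hQ]
      exact mul_nonneg (Finset.prod_nonneg fun y _ => psi_nn p _ _) (psi_nn p _ _)
    have f3 : (m:ℝ) ^ 5 * a ^ (4 * m) ≤ K ^ m := by
      rw [hK, mul_pow, pow_mul]
      exact mul_le_mul_of_nonneg_right (five_pow_le m) (by positivity)
    have f4 : m ≤ A.card + 2 := by
      rw [hm]
      exact (Finset.card_union_le _ _).trans (by omega)
    have f5 : K ^ m ≤ K ^ 2 * K ^ A.card := by
      rw [← pow_add, add_comm]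
      exact pow_le_pow_right₀ hK1 f4
    calc (m:ℝ) ^ 5 * V * (a ^ (4 * m) * (∏ y ∈ A, psi (wt p) (2 * M) (dd y (par y))) *
          psi (wt p) (2 * M) (dm dd (A ∪ P))) = V * (((m:ℝ) ^ 5 * a ^ (4 * m)) * Q) := by
          rw [hQ]; ring
      _ ≤ V * ((K ^ 2 * K ^ A.card) * Q) := by
          apply mul_le_mul_of_nonneg_left _ hV0.le
          exact mul_le_mul_of_nonneg_right (f3.trans f5) hQ0
      _ = _ := by rw [hQ]; ring

end Pool.Agent.H29.TL
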