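import Pool.Agent.H29.TL.SetL

/-!
The sum over the sets of edges, according to their diameter.
-/

set_option autoImplicit false

namespace Pool.Agent.H29.TL

open H974 hiding WW
open H12S H389NS Finset
open Pool.Agent.NH39 (dd sum_dist)
open Pool.Agent.NH39.W (Dl wt WW WW_one wt_one wt_pos wt_anti wt_doub wt_ratio psi psi_le psi_nn
  sum1d lam_nonneg lam_le_one dm geo_sum term_le)
open Pool.Agent.H29.TH (oo ps dd_self dd_comm dd_tri Wf vt vt_one vt_pos vt_anti vt_doub vt_rel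
  mem_boxE_dd dd_box oo_mem Ex_Dl_le dm_le_of' ds_le_dm')
open Pool.Agent.H29.TG (ro fT Dsr fT_abs W3 W3_one sum_out)
open Pool.Agent.Y21.NE (FA FA_nonneg FA_lower FA_upper)

/-- The kernel at the scale `j`. -/
noncomputable def kj (K p : ℝ) (M j : ℕ) (y z : Edg) : ℝ :=
  if dd y z < 2 ^ (j + 1) then K * psi (wt p) (2 * M) (dd y z) else 0

theorem kj_nn {K p : ℝ} (hK : 0 ≤ K) (M j : ℕ) (y z : Edg) : 0 ≤ kj K p M j y z := by
  unfold kj
  split_ifs
  · exact mul_nonneg hK (psi_nn p _ _)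
  · exact le_rfl

/-- The scale `j` as a number. -/
noncomputable def uj (j : ℕ) : ℝ := ((2:ℝ) ^ j) ^ (3/4 : ℝ)

theorem uj_pos (j : ℕ) : 0 < uj j := by unfold uj; positivity

theorem kj_sum {K p : ℝ} (hK : 0 ≤ K) (h1 : 0 ≤ p) (h2 : p ≤ 1) {M : ℕ} (hM : 1 ≤ M) (j : ℕ) :
    ∀ z ∈ boxE M, ∑ y ∈ boxE M, kj K p M j y z ≤
      400 * K * WW * min (uj j) (xq p M)⁻¹ := by
  intro z hz
  have h := kern_scale h1 h2 hM hz j
  have e : ∑ y ∈ boxE M, kj K p M j y z =
      K * ∑ y ∈ boxE M, (if dd y z < 2 ^ (j + 1) then psi (wt p) (2 * M) (dd y z) else 0) := by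
    rw [Finset.mul_sum]
    apply Finset.sum_congr rfl
    intro y _
    unfold kj
    split_ifs
    · rfl
    · rw [mul_zero]
  rw [e]
  refine (mul_le_mul_of_nonneg_left h hK).trans (le_of_eq ?_)
  unfold uj
  ring

/-- The sum of the forests at the scale `j`. -/
theorem sum_scale {K p : ℝ} (hK : 1 ≤ K) (h1 : 0 ≤ p) (h2 : p ≤ 1) {M : ℕ} (hM : 1 ≤ M)
    {x : Vtx} (hx : ro x ∈ boxE M) {Y : ℝ} (hY : 0 < Y) (i j n : ℕ)
    (h3 : 3 * (400 * K * WW * min (uj j) (xq p M)⁻¹) * Y ≤ 1) :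
    ∑ A ∈ (boxE M \ {oo, ro x}).powerset.filter (fun A => i ≤ A.card),
      Y ^ A.card * FA (kj K p M j) n {oo, ro x} A ≤
      9 * (3 * (400 * K * WW * min (uj j) (xq p M)⁻¹) * Y) ^ i := by
  have hW := WW_one
  have hK0 : 0 ≤ K := by linarith
  obtain ⟨P, hP⟩ : ∃ P : Finset Edg, P = {oo, ro x} := ⟨_, rfl⟩
  rw [← hP]
  have hPc : P.card ≤ 2 := by rw [hP]; exact Finset.card_le_two
  have hPM : P ⊆ boxE M := by
    rw [hP]
    intro e he
    rw [mem_insert, mem_singleton] at he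
    rcases he with rfl | rfl
    · exact oo_mem hM
    · exact hx
  obtain ⟨m, hm⟩ : ∃ m : ℝ, m = 400 * K * WW * min (uj j) (xq p M)⁻¹ := ⟨_, rfl⟩
  have hm0 : 0 < m := by
    rw [hm]
    have := lt_min (uj_pos j) (inv_pos.2 (xq_pos p hM))
    positivity
  rw [← hm] at h3 ⊢
  obtain ⟨Yj, hYj⟩ : ∃ Yj : ℝ, Yj = (3 * m)⁻¹ := ⟨_, rfl⟩
  have hYj0 : 0 < Yj := by rw [hYj]; positivity
  have hup := FA_upper (boxE M) (kj K p M j) m Yj (kj_nn hK0 M j)
    (fun z hz => by rw [hm]; exact kj_sum hK0 h1 h2 hM j z hz) hYj0.le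
    (by rw [hYj, mul_inv_cancel₀ (by positivity)]) n P (boxE M \ P) hPM sdiff_subset
  have hexp : Real.exp (P.card : ℝ) ≤ 9 := by
    have h1 : (P.card : ℝ) ≤ 2 := by exact_mod_cast hPc
    have h2 : Real.exp (P.card : ℝ) ≤ Real.exp 2 := Real.exp_le_exp.2 h1
    have h3 : Real.exp 2 = Real.exp 1 ^ 2 := by rw [← Real.exp_nat_mul]; norm_num
    have h4 := Real.exp_one_lt_three
    have h5 := Real.exp_pos 1
    rw [h3] at h2
    nlinarith
  have hr : 3 * m * Y = Y / Yj := by rw [hYj]; field_simp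
  rw [hr] at h3 ⊢
  have hr0 : 0 ≤ Y / Yj := by positivity
  have hterm : ∀ A ∈ (boxE M \ P).powerset.filter (fun A => i ≤ A.card),
      Y ^ A.card * FA (kj K p M j) n P A ≤
        (Y / Yj) ^ i * (Yj ^ A.card * FA (kj K p M j) n P A) := by
    intro A hA
    rw [mem_filter] at hA
    rw [← mul_assoc]
    apply mul_le_mul_of_nonneg_right _ (FA_nonneg _ (kj_nn hK0 M j) _ _ _)
    have e : Y ^ A.card = (Y / Yj) ^ A.card * Yj ^ A.card := by
      rw [← mul_pow, div_mul_cancel₀ _ hYj0.ne']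
    rw [e]
    apply mul_le_mul_of_nonneg_right _ (by positivity)
    exact pow_le_pow_of_le_one hr0 h3 hA.2
  refine (Finset.sum_le_sum hterm).trans ?_
  rw [← Finset.mul_sum, mul_comm]
  apply mul_le_mul_of_nonneg_right _ (by positivity)
  refine le_trans ?_ (hup.trans hexp)
  apply Finset.sum_le_sum_of_subset_of_nonneg (filter_subset _ _)
  intro A _ _
  exact mul_nonneg (by positivity) (FA_nonneg _ (kj_nn hK0 M j) _ _ _)

/-- The sum over the sets, over all scales. -/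
theorem sum_gen : ∃ K : ℝ, 1 ≤ K ∧ ∀ p : ℝ, 0 ≤ p → p ≤ 1 → ∀ M L : ℕ, 1 ≤ M → 3 * M ≤ L →
    ∀ x : Vtx, x ≠ (0, 0) → ro x ∈ boxE M → ∀ Y : ℝ, 0 < Y → K * Y ≤ xq p M → ∀ i : ℕ,
    ∑ A ∈ (boxE M \ {oo, ro x}).powerset.filter (fun A => i ≤ A.card),
      Y ^ A.card * Pr (fun _ => p) (boxE L) (Dsr L x (A ∪ {oo, ro x})) ≤
      K * Vx p M x * ∑ j ∈ (range (Nat.log 2 (2 * M) + 1)).filter
          (fun j => dd oo (ro x) < 2 ^ (j + 1)),
        (uj j) ^ (-(5/3) : ℝ) * (K * Y * min (uj j) (xq p M)⁻¹) ^ i := by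
  obtain ⟨K, hK, hkey⟩ := key_set
  have hW := WW_one
  refine ⟨1200 * K ^ 2 * WW, ?_, ?_⟩
  · have : 1 ≤ K ^ 2 := one_le_pow₀ hK
    nlinarith
  intro p hp0 hp2 M L hM hL x hx0 hx Y hY hYx i
  have ok := okq hp0 hp2
  have hK0 : 0 ≤ K := by linarith
  have hxq := xq_pos p hM
  obtain ⟨P, hP⟩ : ∃ P : Finset Edg, P = {oo, ro x} := ⟨_, rfl⟩
  rw [← hP]
  obtain ⟨d, hd⟩ : ∃ d, d = dd oo (ro x) := ⟨_, rfl⟩
  have hd1 : 1 ≤ d := by rw [hd]; exact dd_ro_pos hx0
  rw [← hd]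
  have hPM : P ⊆ boxE M := by
    rw [hP]
    intro e he
    rw [mem_insert, mem_singleton] at he
    rcases he with rfl | rfl
    · exact oo_mem hM
    · exact hx
  have hV0 : 0 ≤ Vx p M x := by
    unfold Vx
    exact div_nonneg (sq_nonneg _) (psi_nn p _ _)
  obtain ⟨J, hJ⟩ : ∃ J, J = Nat.log 2 (2 * M) := ⟨_, rfl⟩
  rw [← hJ]
  obtain ⟨n, hn⟩ : ∃ n, n = (boxE M).card := ⟨_, rfl⟩
  have hKK : 1200 * K * WW ≤ 1200 * K ^ 2 * WW := by
    have : K ≤ K ^ 2 := by nlinarith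
    nlinarith
  have hm3 : ∀ j, 3 * (400 * K * WW * min (uj j) (xq p M)⁻¹) * Y ≤ 1 := by
    intro j
    have h1 : min (uj j) (xq p M)⁻¹ ≤ (xq p M)⁻¹ := min_le_right _ _
    have h2 : 3 * (400 * K * WW * min (uj j) (xq p M)⁻¹) * Y ≤
        3 * (400 * K * WW * (xq p M)⁻¹) * Y := by
      apply mul_le_mul_of_nonneg_right _ hY.le
      apply mul_le_mul_of_nonneg_left _ (by norm_num)
      exact mul_le_mul_of_nonneg_left h1 (by positivity)
    refine h2.trans ?_
    have h3 : 3 * (400 * K * WW * (xq p M)⁻¹) * Y = (1200 * K * WW * Y) / xq p M := by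
      field_simp; norm_num
    rw [h3, div_le_one hxq]
    exact (mul_le_mul_of_nonneg_right hKK hY.le).trans hYx
  -- the fibers
  have hmaps : ∀ A ∈ (boxE M \ P).powerset.filter (fun A => i ≤ A.card),
      Nat.log 2 (max 1 (dm dd (A ∪ P))) ∈
        (range (J + 1)).filter (fun j => d < 2 ^ (j + 1)) := by
    intro A hA
    rw [mem_filter, mem_powerset] at hA
    have hTM : A ∪ P ⊆ boxE M := union_subset (hA.1.trans sdiff_subset) hPM
    have h1 : dm dd (A ∪ P) ≤ 2 * M :=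
      dm_le_of' (fun a ha b hb => dd_box (hTM ha) (hTM hb))
    have h2 : d ≤ dm dd (A ∪ P) := by
      rw [hd]
      apply ds_le_dm'
      · exact mem_union_right _ (by rw [hP]; exact mem_insert_self _ _)
      · exact mem_union_right _ (by rw [hP]; exact mem_insert_of_mem (mem_singleton_self _))
    rw [mem_filter, mem_range]
    constructor
    · have : Nat.log 2 (max 1 (dm dd (A ∪ P))) ≤ J := by
        rw [hJ]
        exact Nat.log_mono_right (max_le (by omega) h1)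
      omega
    · have h3 := Nat.lt_pow_succ_log_self (b := 2) (by norm_num) (max 1 (dm dd (A ∪ P)))
      have h4 : dm dd (A ∪ P) ≤ max 1 (dm dd (A ∪ P)) := le_max_right _ _
      exact lt_of_le_of_lt (h2.trans h4) h3
  rw [← Finset.sum_fiberwise_of_maps_to hmaps, Finset.mul_sum]
  apply Finset.sum_le_sum
  intro j hj
  rw [mem_filter, mem_range] at hj
  have hj2 : 2 ^ j ≤ 2 * M := by
    calc 2 ^ j ≤ 2 ^ J := Nat.pow_le_pow_right (by norm_num) (by omega)
      _ ≤ 2 * M := by rw [hJ]; exact Nat.pow_log_le_self 2 (by omega)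
  have hj1 : 1 ≤ 2 ^ j := Nat.one_le_two_pow
  -- one term
  have hone : ∀ A ∈ ((boxE M \ P).powerset.filter (fun A => i ≤ A.card)).filter
      (fun A => Nat.log 2 (max 1 (dm dd (A ∪ P))) = j),
      Y ^ A.card * Pr (fun _ => p) (boxE L) (Dsr L x (A ∪ P)) ≤
        (K ^ 2 * Vx p M x * (2 * WW * (uj j) ^ (-(5/3) : ℝ))) *
          (Y ^ A.card * FA (kj K p M j) n P A) := by
    intro A hA
    rw [mem_filter, mem_filter, mem_powerset] at hA
    obtain ⟨⟨hA1, hA2⟩, hA3⟩ := hA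
    have hAM : A ⊆ boxE M := hA1.trans sdiff_subset
    have hAP : Disjoint A P := by
      rw [Finset.disjoint_left]
      intro e he he'
      exact (mem_sdiff.1 (hA1 he)).2 he'
    have hlt : max 1 (dm dd (A ∪ P)) < 2 ^ (j + 1) := by
      rw [← hA3]
      exact Nat.lt_pow_succ_log_self (by norm_num) _
    have hge : 2 ^ j ≤ max 1 (dm dd (A ∪ P)) := by
      rw [← hA3]
      exact Nat.pow_log_le_self 2 (by omega)
    obtain ⟨par, rk, t1, t2⟩ := hkey p hp0 hp2 M L hM hL x hx0 hx A (by rw [← hP]; exact hA1)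
    rw [← hP] at t1 t2
    have f1 : K ^ A.card * ∏ y ∈ A, psi (wt p) (2 * M) (dd y (par y)) ≤
        FA (kj K p M j) n P A := by
      have e : K ^ A.card * ∏ y ∈ A, psi (wt p) (2 * M) (dd y (par y)) =
          ∏ y ∈ A, kj K p M j y (par y) := by
        rw [← Finset.prod_const, ← Finset.prod_mul_distrib]
        apply Finset.prod_congr rfl
        intro y hy
        unfold kj
        rw [if_pos]
        have h1 : par y ∈ A ∪ P := by
          rcases t1 y hy with h | h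
          · exact mem_union_left _ h.1
          · exact mem_union_right _ h
        have h2 : dd y (par y) ≤ dm dd (A ∪ P) := ds_le_dm' (mem_union_left _ hy) h1
        have h4 : dm dd (A ∪ P) ≤ max 1 (dm dd (A ∪ P)) := le_max_right _ _
        omega
      rw [e]
      refine FA_lower (kj K p M j) (kj_nn hK0 M j) n P A par rk ?_ hAP t1
      rw [hn]; exact Finset.card_le_card hAM
    have f2 : psi (wt p) (2 * M) (dm dd (A ∪ P)) ≤ 2 * WW * (uj j) ^ (-(5/3) : ℝ) := by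
      have h2 : psi (wt p) (2 * M) (dm dd (A ∪ P)) ≤ psi (wt p) (2 * M) (2 ^ j) := by
        unfold psi
        apply wt_anti p (le_max_left _ _)
        omega
      refine h2.trans ?_
      have h3 := psi_le hp0 hp2 (N := 2 * M) (s := 2 ^ j) (t := 2 ^ j) (by omega) (by omega)
      refine h3.trans ?_
      apply mul_le_mul_of_nonneg_left _ (by positivity)
      push_cast
      have e : (uj j) ^ (-(5/3) : ℝ) = ((2:ℝ) ^ j) ^ (-(5/4) : ℝ) := by
        unfold uj
        rw [← Real.rpow_mul (by positivity)]; norm_num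
      rw [e]
      apply div_le_self (by positivity)
      have := lam_nonneg p
      have : 0 ≤ |p - 1/2| ^ (4/3 : ℝ) * 2 ^ j := by positivity
      linarith
    have hF0 := FA_nonneg (kj K p M j) (kj_nn hK0 M j) n P A
    have f3 : (K ^ A.card * ∏ y ∈ A, psi (wt p) (2 * M) (dd y (par y))) *
        psi (wt p) (2 * M) (dm dd (A ∪ P)) ≤
        FA (kj K p M j) n P A * (2 * WW * (uj j) ^ (-(5/3) : ℝ)) :=
      mul_le_mul f1 f2 (psi_nn p _ _) hF0
    have f4 := mul_le_mul_of_nonneg_left f3 (by positivity : 0 ≤ K ^ 2 * Vx p M x)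
    have f5 := mul_le_mul_of_nonneg_left (t2.trans f4) (by positivity : 0 ≤ Y ^ A.card)
    refine f5.trans (le_of_eq ?_)
    ring
  refine (Finset.sum_le_sum hone).trans ?_
  rw [← Finset.mul_sum]
  have hs := sum_scale hK hp0 hp2 hM hx hY i j n (hm3 j)
  rw [← hP] at hs
  have hs2 : ∑ A ∈ ((boxE M \ P).powerset.filter (fun A => i ≤ A.card)).filter
      (fun A => Nat.log 2 (max 1 (dm dd (A ∪ P))) = j),
      Y ^ A.card * FA (kj K p M j) n P A ≤
      9 * (3 * (400 * K * WW * min (uj j) (xq p M)⁻¹) * Y) ^ i := by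
    refine le_trans ?_ hs
    apply Finset.sum_le_sum_of_subset_of_nonneg (filter_subset _ _)
    intro A _ _
    exact mul_nonneg (by positivity) (FA_nonneg _ (kj_nn hK0 M j) _ _ _)
  have hu : 0 < (uj j) ^ (-(5/3) : ℝ) := by
    have := uj_pos j
    positivity
  have hmin : 0 ≤ min (uj j) (xq p M)⁻¹ := le_min (uj_pos j).le (inv_pos.2 hxq).le
  refine (mul_le_mul_of_nonneg_left hs2 (by positivity)).trans ?_
  have g1 : (3 * (400 * K * WW * min (uj j) (xq p M)⁻¹) * Y) ^ i ≤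
      (1200 * K ^ 2 * WW * Y * min (uj j) (xq p M)⁻¹) ^ i := by
    apply pow_le_pow_left₀ (by positivity)
    have : 1200 * K * WW * (Y * min (uj j) (xq p M)⁻¹) ≤
        1200 * K ^ 2 * WW * (Y * min (uj j) (xq p M)⁻¹) :=
      mul_le_mul_of_nonneg_right hKK (by positivity)
    linarith
  calc K ^ 2 * Vx p M x * (2 * WW * (uj j) ^ (-(5/3) : ℝ)) *
        (9 * (3 * (400 * K * WW * min (uj j) (xq p M)⁻¹) * Y) ^ i)
      ≤ K ^ 2 * Vx p M x * (2 * WW * (uj j) ^ (-(5/3) : ℝ)) *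
        (9 * (1200 * K ^ 2 * WW * Y * min (uj j) (xq p M)⁻¹) ^ i) := by
        apply mul_le_mul_of_nonneg_left _ (by positivity)
        exact mul_le_mul_of_nonneg_left g1 (by norm_num)
    _ = (18 * K ^ 2 * WW) * (Vx p M x * ((uj j) ^ (-(5/3) : ℝ) *
        (1200 * K ^ 2 * WW * Y * min (uj j) (xq p M)⁻¹) ^ i)) := by ring
    _ ≤ (1200 * K ^ 2 * WW) * (Vx p M x * ((uj j) ^ (-(5/3) : ℝ) *
        (1200 * K ^ 2 * WW * Y * min (uj j) (xq p M)⁻¹) ^ i)) := by
        apply mul_le_mul_of_nonneg_right _ (by positivity)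
        have : 0 ≤ K ^ 2 * WW := by positivity
        linarith
    _ = _ := by ring

end Pool.Agent.H29.TL
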