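import Pool.Agent.H29.TL.SumL

/-!
The sums of the coefficients of the expansion of the two-point function in the parameter.
-/

set_option autoImplicit false

namespace Pool.Agent.H29.TL

open H974 hiding WW
open H12S H389NS Finset
open Pool.Agent.NH39 (dd sum_dist)
open Pool.Agent.NH39.W (Dl wt WW WW_one wt_one wt_pos wt_anti wt_doub wt_ratio psi psi_le psi_nn
  sum1d lam_nonneg lam_le_one dm geo_sum term_le)
open Pool.Agent.H29.TH (oo ps dd_self dd_comm dd_tri Wf vt vt_one vt_pos vt_anti vt_doub vt_rel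
  mem_boxE_dd dd_box oo_mem Ex_Dl_le dm_le_of' ds_le_dm')
open Pool.Agent.H29.TG (ro fT Dsr fT_abs W3 W3_one sum_out)

theorem uj_eq (j : ℕ) (a : ℝ) : (uj j) ^ a = ((2:ℝ) ^ (3/4 * a)) ^ j := by
  unfold uj
  rw [← Real.rpow_mul (by positivity), ← Real.rpow_natCast 2 j, ← Real.rpow_mul (by norm_num),
    ← Real.rpow_natCast _ j, ← Real.rpow_mul (by norm_num)]
  congr 1
  ring

theorem uj_one (j : ℕ) : 1 ≤ uj j := by
  unfold uj
  exact Real.one_le_rpow (one_le_pow₀ (by norm_num)) (by norm_num)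

/-- The sum over the scales, two edges at least. -/
theorem geo2 : ∃ B : ℝ, 1 ≤ B ∧ ∀ (X : ℝ) (m : ℕ), 0 < X →
    ∑ j ∈ range m, (uj j) ^ (-(5/3) : ℝ) * (min (uj j) X⁻¹) ^ 2 ≤ B * X ^ (-(1/3) : ℝ) := by
  have hρ : (1:ℝ) < 2 ^ (1/4 : ℝ) := Real.one_lt_rpow (by norm_num) (by norm_num)
  obtain ⟨B, hB, hgeo⟩ := geo_sum hρ
  refine ⟨B, hB, ?_⟩
  intro X m hX
  have h1 : ∀ j ∈ range m, (uj j) ^ (-(5/3) : ℝ) * (min (uj j) X⁻¹) ^ 2 ≤
      X ^ (-(1/3) : ℝ) * min (((2:ℝ) ^ (1/4 : ℝ)) ^ j * X ^ (1/3 : ℝ))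
        (((2:ℝ) ^ (1/4 : ℝ)) ^ j * X ^ (1/3 : ℝ))⁻¹ := by
    intro j _
    have h2 := term_le (uj_pos j) hX (k := 3) le_rfl
    have e1 : (uj j * X) ^ (1/3 : ℝ) = ((2:ℝ) ^ (1/4 : ℝ)) ^ j * X ^ (1/3 : ℝ) := by
      rw [Real.mul_rpow (uj_pos j).le hX.le, uj_eq]
      norm_num
    rw [e1] at h2
    have e2 : ((8:ℝ)/3 - (3:ℕ)) = (-(1/3) : ℝ) := by push_cast; norm_num
    rw [e2] at h2
    rw [mul_comm]
    exact h2
  refine (Finset.sum_le_sum h1).trans ?_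
  rw [← Finset.mul_sum, mul_comm]
  exact mul_le_mul_of_nonneg_right (hgeo _ m (by positivity)) (by positivity)

/-- The sum over the scales, one edge. -/
theorem geo1 : ∃ B : ℝ, 1 ≤ B ∧ ∀ (d m : ℕ), 1 ≤ d →
    ∑ j ∈ (range m).filter (fun j => d < 2 ^ (j + 1)), (uj j) ^ (-(2/3) : ℝ) ≤
      B * (d:ℝ) ^ (-(1/2) : ℝ) := by
  have hρ : (1:ℝ) < 2 ^ (1/2 : ℝ) := Real.one_lt_rpow (by norm_num) (by norm_num)
  obtain ⟨B, hB, hgeo⟩ := geo_sum hρ
  refine ⟨2 * B, by linarith, ?_⟩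
  intro d m hd
  have hd0 : (0:ℝ) < d := by exact_mod_cast hd
  obtain ⟨v, hv⟩ : ∃ v : ℝ, v = (d:ℝ) ^ (-(1/2) : ℝ) := ⟨_, rfl⟩
  have hv0 : 0 < v := by rw [hv]; positivity
  rw [← hv]
  have h1 : ∀ j ∈ (range m).filter (fun j => d < 2 ^ (j + 1)), (uj j) ^ (-(2/3) : ℝ) ≤
      2 * v * min (((2:ℝ) ^ (1/2 : ℝ)) ^ j * v) (((2:ℝ) ^ (1/2 : ℝ)) ^ j * v)⁻¹ := by
    intro j hj
    rw [mem_filter] at hj
    have hj2 : (d:ℝ) < 2 ^ (j + 1) := by exact_mod_cast hj.2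
    obtain ⟨w, hw⟩ : ∃ w : ℝ, w = ((2:ℝ) ^ (1/2 : ℝ)) ^ j := ⟨_, rfl⟩
    have hw0 : 0 < w := by rw [hw]; positivity
    have e1 : (uj j) ^ (-(2/3) : ℝ) = w⁻¹ := by
      rw [uj_eq, hw, ← inv_pow, ← Real.rpow_neg (by norm_num)]
      norm_num
    rw [e1, ← hw]
    -- `w ^ 2 = 2 ^ j`, `v ^ 2 = 1 / d`
    have e2 : w ^ 2 = 2 ^ j := by
      rw [hw, ← pow_mul, mul_comm, pow_mul, ← Real.rpow_natCast ((2:ℝ) ^ (1/2 : ℝ)) 2,
        ← Real.rpow_mul (by norm_num)]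
      norm_num
    have e3 : v ^ 2 = 1 / d := by
      rw [hv, ← Real.rpow_natCast, ← Real.rpow_mul hd0.le]
      norm_num
      rw [Real.rpow_neg_one]
    have e4 : 1 ≤ 2 * (w * v) ^ 2 := by
      rw [mul_pow, e2, e3, ← mul_assoc, mul_one_div, le_div_iff₀ hd0]
      rw [pow_succ] at hj2
      linarith
    have hwv : 0 < w * v := by positivity
    have e5 : (w * v)⁻¹ ≤ 2 * min (w * v) (w * v)⁻¹ := by
      rw [mul_min_of_nonneg _ _ (by norm_num : (0:ℝ) ≤ 2)]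
      apply le_min
      · rw [inv_eq_one_div, div_le_iff₀ hwv]
        nlinarith
      · have : 0 < (w * v)⁻¹ := by positivity
        linarith
    have e6 : w⁻¹ = v * (w * v)⁻¹ := by field_simp
    rw [e6]
    have := mul_le_mul_of_nonneg_left e5 hv0.le
    linarith
  refine (Finset.sum_le_sum h1).trans ?_
  rw [← Finset.mul_sum]
  have h2 : ∑ j ∈ (range m).filter (fun j => d < 2 ^ (j + 1)),
      min (((2:ℝ) ^ (1/2 : ℝ)) ^ j * v) (((2:ℝ) ^ (1/2 : ℝ)) ^ j * v)⁻¹ ≤ B := by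
    refine le_trans ?_ (hgeo v m hv0)
    apply Finset.sum_le_sum_of_subset_of_nonneg (filter_subset _ _)
    intro j _ _
    exact le_min (by positivity) (by positivity)
  have := mul_le_mul_of_nonneg_left h2 (by positivity : 0 ≤ 2 * v)
  linarith

/-- The bounds for the events. -/
theorem tot : ∃ K : ℝ, 1 ≤ K ∧ ∀ p : ℝ, 0 ≤ p → p ≤ 1 → ∀ M L : ℕ, 1 ≤ M → 3 * M ≤ L →
    ∀ x : Vtx, x ≠ (0, 0) → ro x ∈ boxE M →
    (∀ Y : ℝ, 0 < Y → K * Y ≤ xq p M →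
      ∑ A ∈ (boxE M \ {oo, ro x}).powerset.filter (fun A => 2 ≤ A.card),
        Y ^ A.card * Pr (fun _ => p) (boxE L) (Dsr L x (A ∪ {oo, ro x})) ≤
        K * Vx p M x * Y ^ (5/3 : ℝ)) ∧
    ∑ A ∈ (boxE M \ {oo, ro x}).powerset.filter (fun A => A.card ≤ 1),
      Pr (fun _ => p) (boxE L) (Dsr L x (A ∪ {oo, ro x})) ≤
        K * Vx p M x * (dd oo (ro x) : ℝ) ^ (-(1/2) : ℝ) := by
  obtain ⟨K, hK, hg⟩ := sum_gen
  obtain ⟨B2, hB2, hgeo2⟩ := geo2
  obtain ⟨B1, hB1, hgeo1⟩ := geo1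
  refine ⟨K ^ 3 * B2 + 2 * K ^ 2 * B1, ?_, ?_⟩
  · have h1 : 1 ≤ K ^ 3 := one_le_pow₀ hK
    have h2 : 0 < K ^ 2 * B1 := by positivity
    nlinarith
  intro p hp0 hp2 M L hM hL x hx0 hx
  have ok := okq hp0 hp2
  have hK0 : 0 < K := by linarith
  have hxq := xq_pos p hM
  have hV0 : 0 ≤ Vx p M x := by
    unfold Vx
    exact div_nonneg (sq_nonneg _) (psi_nn p _ _)
  obtain ⟨V, hV⟩ : ∃ V, V = Vx p M x := ⟨_, rfl⟩
  rw [← hV] at hV0 ⊢
  obtain ⟨d, hd⟩ : ∃ d, d = dd oo (ro x) := ⟨_, rfl⟩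
  have hd1 : 1 ≤ d := by rw [hd]; exact dd_ro_pos hx0
  have hd0 : (0:ℝ) < d := by exact_mod_cast hd1
  rw [← hd]
  have hKB : K ≤ K ^ 3 * B2 + 2 * K ^ 2 * B1 := by
    have h1 : 1 ≤ K ^ 2 := one_le_pow₀ hK
    have h2 : K * 1 ≤ K * (K ^ 2 * B2) :=
      mul_le_mul_of_nonneg_left (by nlinarith) hK0.le
    have h3 : 0 < K ^ 2 * B1 := by positivity
    nlinarith
  constructor
  · intro Y hY hYx
    have hKY : K * Y ≤ xq p M := (mul_le_mul_of_nonneg_right hKB hY.le).trans hYx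
    have h1 := hg p hp0 hp2 M L hM hL x hx0 hx Y hY hKY 2
    rw [← hV, ← hd] at h1
    have hX : 0 < K * Y := by positivity
    have h2 : ∑ j ∈ (range (Nat.log 2 (2 * M) + 1)).filter (fun j => d < 2 ^ (j + 1)),
        (uj j) ^ (-(5/3) : ℝ) * (K * Y * min (uj j) (xq p M)⁻¹) ^ 2 ≤
        (K * Y) ^ 2 * (B2 * (K * Y) ^ (-(1/3) : ℝ)) := by
      have h3 := hgeo2 (K * Y) (Nat.log 2 (2 * M) + 1) hX
      refine le_trans ?_ (mul_le_mul_of_nonneg_left h3 (by positivity))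
      rw [Finset.mul_sum]
      have h4 : ∑ j ∈ (range (Nat.log 2 (2 * M) + 1)).filter (fun j => d < 2 ^ (j + 1)),
          (K * Y) ^ 2 * ((uj j) ^ (-(5/3) : ℝ) * (min (uj j) (K * Y)⁻¹) ^ 2) ≤
          ∑ j ∈ range (Nat.log 2 (2 * M) + 1),
          (K * Y) ^ 2 * ((uj j) ^ (-(5/3) : ℝ) * (min (uj j) (K * Y)⁻¹) ^ 2) := by
        apply Finset.sum_le_sum_of_subset_of_nonneg (filter_subset _ _)
        intro j _ _
        have := uj_pos j
        positivity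
      refine le_trans ?_ h4
      apply Finset.sum_le_sum
      intro j _
      have hu := uj_pos j
      have h5 : min (uj j) (xq p M)⁻¹ ≤ min (uj j) (K * Y)⁻¹ :=
        min_le_min le_rfl (inv_anti₀ hX hKY)
      have h6 : 0 ≤ min (uj j) (xq p M)⁻¹ := le_min hu.le (inv_pos.2 hxq).le
      have h7 : (min (uj j) (xq p M)⁻¹) ^ 2 ≤ (min (uj j) (K * Y)⁻¹) ^ 2 :=
        pow_le_pow_left₀ h6 h5 2
      rw [mul_pow]
      have h8 : 0 < (uj j) ^ (-(5/3) : ℝ) := by positivity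
      have h9 := mul_le_mul_of_nonneg_left h7 (by positivity : 0 ≤ (K * Y) ^ 2 * (uj j) ^ (-(5/3) : ℝ))
      linarith
    refine h1.trans ((mul_le_mul_of_nonneg_left h2 (by positivity)).trans ?_)
    have e1 : (K * Y) ^ 2 * (K * Y) ^ (-(1/3) : ℝ) = (K * Y) ^ (5/3 : ℝ) := by
      rw [← Real.rpow_natCast, ← Real.rpow_add hX]
      norm_num
    have e2 : (K * Y) ^ (5/3 : ℝ) ≤ K ^ 2 * Y ^ (5/3 : ℝ) := by
      rw [Real.mul_rpow hK0.le hY.le]
      apply mul_le_mul_of_nonneg_right _ (by positivity)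
      rw [← Real.rpow_natCast]
      exact Real.rpow_le_rpow_of_exponent_le hK (by norm_num)
    calc K * V * ((K * Y) ^ 2 * (B2 * (K * Y) ^ (-(1/3) : ℝ)))
        = K * V * B2 * ((K * Y) ^ 2 * (K * Y) ^ (-(1/3) : ℝ)) := by ring
      _ ≤ K * V * B2 * (K ^ 2 * Y ^ (5/3 : ℝ)) := by
          rw [e1]
          exact mul_le_mul_of_nonneg_left e2 (by positivity)
      _ = K ^ 3 * B2 * (V * Y ^ (5/3 : ℝ)) := by ring
      _ ≤ (K ^ 3 * B2 + 2 * K ^ 2 * B1) * (V * Y ^ (5/3 : ℝ)) := by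
          apply mul_le_mul_of_nonneg_right _ (by positivity)
          have : 0 ≤ K ^ 2 * B1 := by positivity
          linarith
      _ = _ := by ring
  · obtain ⟨Y, hY⟩ : ∃ Y : ℝ, Y = xq p M / K := ⟨_, rfl⟩
    have hY0 : 0 < Y := by rw [hY]; positivity
    have hKY : K * Y ≤ xq p M := by rw [hY, mul_div_cancel₀ _ hK0.ne']
    have hg0 : ∀ A : Finset Edg, 0 ≤ Pr (fun _ => p) (boxE L) (Dsr L x (A ∪ {oo, ro x})) :=
      fun A => Pr_nonneg ok _ _
    have hS := hgeo1 d (Nat.log 2 (2 * M) + 1) hd1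
    -- one edge
    have h1 := hg p hp0 hp2 M L hM hL x hx0 hx Y hY0 hKY 1
    rw [← hV, ← hd] at h1
    have h2 : ∑ j ∈ (range (Nat.log 2 (2 * M) + 1)).filter (fun j => d < 2 ^ (j + 1)),
        (uj j) ^ (-(5/3) : ℝ) * (K * Y * min (uj j) (xq p M)⁻¹) ^ 1 ≤
        K * Y * (B1 * (d:ℝ) ^ (-(1/2) : ℝ)) := by
      refine le_trans ?_ (mul_le_mul_of_nonneg_left hS (by positivity))
      rw [Finset.mul_sum]
      apply Finset.sum_le_sum
      intro j _
      have hu := uj_pos j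
      have e : (uj j) ^ (-(2/3) : ℝ) = (uj j) ^ (-(5/3) : ℝ) * uj j := by
        nth_rewrite 3 [← Real.rpow_one (uj j)]
        rw [← Real.rpow_add hu]
        norm_num
      rw [pow_one, e]
      have h3 : min (uj j) (xq p M)⁻¹ ≤ uj j := min_le_left _ _
      have h4 : 0 < (uj j) ^ (-(5/3) : ℝ) := by positivity
      have h5 := mul_le_mul_of_nonneg_left h3 (by positivity : 0 ≤ K * Y * (uj j) ^ (-(5/3) : ℝ))
      linarith
    have h3 : ∑ A ∈ (boxE M \ {oo, ro x}).powerset.filter (fun A => A.card = 1),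
        Pr (fun _ => p) (boxE L) (Dsr L x (A ∪ {oo, ro x})) ≤
        K ^ 2 * V * (B1 * (d:ℝ) ^ (-(1/2) : ℝ)) := by
      have h4 : ∑ A ∈ (boxE M \ {oo, ro x}).powerset.filter (fun A => A.card = 1),
          Y * Pr (fun _ => p) (boxE L) (Dsr L x (A ∪ {oo, ro x})) ≤
          K * V * (K * Y * (B1 * (d:ℝ) ^ (-(1/2) : ℝ))) := by
        refine le_trans ?_ (h1.trans (mul_le_mul_of_nonneg_left h2 (by positivity)))
        have h5 : ∀ A ∈ (boxE M \ {oo, ro x}).powerset.filter (fun A => A.card = 1),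
            Y * Pr (fun _ => p) (boxE L) (Dsr L x (A ∪ {oo, ro x})) =
            Y ^ A.card * Pr (fun _ => p) (boxE L) (Dsr L x (A ∪ {oo, ro x})) := by
          intro A hA
          rw [mem_filter] at hA
          rw [hA.2, pow_one]
        rw [Finset.sum_congr rfl h5]
        apply Finset.sum_le_sum_of_subset_of_nonneg
        · intro A hA
          rw [mem_filter] at hA ⊢
          exact ⟨hA.1, by omega⟩
        · intro A _ _
          exact mul_nonneg (by positivity) (hg0 A)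
      rw [← Finset.mul_sum] at h4
      have h6 : Y * ∑ A ∈ (boxE M \ {oo, ro x}).powerset.filter (fun A => A.card = 1),
          Pr (fun _ => p) (boxE L) (Dsr L x (A ∪ {oo, ro x})) ≤
          Y * (K ^ 2 * V * (B1 * (d:ℝ) ^ (-(1/2) : ℝ))) := by
        refine h4.trans (le_of_eq ?_)
        ring
      exact le_of_mul_le_mul_left h6 hY0
    -- no edge
    have h0 := hg p hp0 hp2 M L hM hL x hx0 hx Y hY0 hKY 0
    rw [← hV, ← hd] at h0
    have h4 : ∑ j ∈ (range (Nat.log 2 (2 * M) + 1)).filter (fun j => d < 2 ^ (j + 1)),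
        (uj j) ^ (-(5/3) : ℝ) * (K * Y * min (uj j) (xq p M)⁻¹) ^ 0 ≤
        B1 * (d:ℝ) ^ (-(1/2) : ℝ) := by
      refine le_trans ?_ hS
      apply Finset.sum_le_sum
      intro j _
      rw [pow_zero, mul_one]
      exact Real.rpow_le_rpow_of_exponent_le (uj_one j) (by norm_num)
    have h5 : Pr (fun _ => p) (boxE L) (Dsr L x (∅ ∪ {oo, ro x})) ≤
        K * V * (B1 * (d:ℝ) ^ (-(1/2) : ℝ)) := by
      refine le_trans ?_ (h0.trans (mul_le_mul_of_nonneg_left h4 (by positivity)))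
      have h6 := Finset.single_le_sum (f := fun A : Finset Edg =>
        Y ^ A.card * Pr (fun _ => p) (boxE L) (Dsr L x (A ∪ {oo, ro x})))
        (s := (boxE M \ {oo, ro x}).powerset.filter (fun A => 0 ≤ A.card))
        (fun A _ => mul_nonneg (by positivity) (hg0 A)) (a := ∅) (by simp)
      simpa using h6
    have hsplit : (boxE M \ {oo, ro x}).powerset.filter (fun A => A.card ≤ 1) ⊆
        (boxE M \ {oo, ro x}).powerset.filter (fun A => A.card = 1) ∪ {∅} := by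
      intro A hA
      rw [mem_filter] at hA
      rw [mem_union, mem_filter, mem_singleton]
      rcases Nat.lt_or_ge A.card 1 with h | h
      · right
        exact Finset.card_eq_zero.1 (by omega)
      · left
        exact ⟨hA.1, by omega⟩
    have hdr : 0 < (d:ℝ) ^ (-(1/2) : ℝ) := by positivity
    have h7 : ∑ A ∈ (boxE M \ {oo, ro x}).powerset.filter (fun A => A.card ≤ 1),
        Pr (fun _ => p) (boxE L) (Dsr L x (A ∪ {oo, ro x})) ≤
        K ^ 2 * V * (B1 * (d:ℝ) ^ (-(1/2) : ℝ)) + K * V * (B1 * (d:ℝ) ^ (-(1/2) : ℝ)) := by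
      refine (Finset.sum_le_sum_of_subset_of_nonneg hsplit (fun A _ _ => hg0 A)).trans ?_
      rw [Finset.sum_union, Finset.sum_singleton]
      · exact add_le_add h3 h5
      · rw [Finset.disjoint_singleton_right, mem_filter]
        rintro ⟨-, h⟩
        simp at h
    refine h7.trans ?_
    have h8 : K * V * (B1 * (d:ℝ) ^ (-(1/2) : ℝ)) ≤ K ^ 2 * V * (B1 * (d:ℝ) ^ (-(1/2) : ℝ)) := by
      apply mul_le_mul_of_nonneg_right _ (by positivity)
      apply mul_le_mul_of_nonneg_right _ hV0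
      nlinarith
    have h9 : 0 ≤ K ^ 3 * B2 * (V * (d:ℝ) ^ (-(1/2) : ℝ)) := by positivity
    have h10 : (K ^ 3 * B2 + 2 * K ^ 2 * B1) * V * (d:ℝ) ^ (-(1/2) : ℝ) =
        K ^ 3 * B2 * (V * (d:ℝ) ^ (-(1/2) : ℝ)) +
          2 * (K ^ 2 * V * (B1 * (d:ℝ) ^ (-(1/2) : ℝ))) := by ring
    rw [h10]
    linarith

end Pool.Agent.H29.TL
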