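import Pool.Agent.H29.TL.CritL
import Pool.Agent.H29.TL.Fd
import Pool.Graph.R_seed8.W424.NC.TwoLow
import Pool.Graph.R_pool_sql_team_seeded_3997aac3.Q291.TT.Bd

/-!
Bounds for all parameters, and large derivatives.
-/

set_option autoImplicit false

namespace Pool.Agent.H29.TL

open H974 hiding WW
open H12S hiding TP
open H389NS Finset Filter Topology MeasureTheory
open Pool.Agent.NH39.W (Dl wt wt_pos wt_anti psi psi_nn lam_nonneg lam_le_one)
open Pool.Agent.NH39 (dd)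
open Pool.Agent.H29.TH (oo vt vt_pos)
open Pool.Agent.H29.TG (ro)
open H31K (tau)
open scoped ContDiff

/-- The scaling variable. -/
noncomputable def sv (p : ℝ) (x : Vtx) : ℝ := 1 + nx x * |p - 1/2| ^ (4/3 : ℝ)

theorem sv_one (p : ℝ) (x : Vtx) : 1 ≤ sv p x := by
  unfold sv
  have : 0 ≤ (nx x : ℝ) * |p - 1/2| ^ (4/3 : ℝ) := by positivity
  linarith

/-- The prefactor for all parameters. -/
theorem Vp_le_sv {p : ℝ} {x : Vtx} (hx0 : x ≠ (0, 0)) :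
    Vp p x ≤ (nx x : ℝ) ^ (25/24 : ℝ) * sv p x ^ 2 := by
  have hd1 : 1 ≤ nx x := nx_pos hx0
  obtain ⟨d, hd⟩ : ∃ d : ℕ, d = nx x := ⟨_, rfl⟩
  unfold Vp sv
  rw [dd_nx, ← hd]
  rw [← hd] at hd1
  have hd0 : (0:ℝ) < d := by exact_mod_cast hd1
  have hl := lam_nonneg p
  obtain ⟨l, hl'⟩ : ∃ l : ℝ, l = |p - 1/2| ^ (4/3 : ℝ) := ⟨_, rfl⟩
  rw [← hl'] at hl ⊢
  have hv1 : 1 ≤ 1 + (d:ℝ) * l := by
    have : 0 ≤ (d:ℝ) * l := by positivity
    linarith
  -- the one-arm weight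
  have e1 : vt (qm p) d ≤ (d:ℝ) ^ (-(5/48) : ℝ) * (1 + (d:ℝ) * l) ^ (5/48 : ℝ) := by
    unfold vt
    apply max_le
    · apply le_mul_of_one_le_right (by positivity)
      exact Real.one_le_rpow hv1 (by norm_num)
    · have h1 : 0 ≤ qm p - 1/2 := by have := qm_half p; linarith
      have h2 : qm p - 1/2 ≤ |p - 1/2| := by
        unfold qm
        rcases le_total p (1/2) with h3 | h3
        · rw [max_eq_right h3, sub_self]; positivity
        · rw [max_eq_left h3]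
          exact le_abs_self _
      have h3 : (qm p - 1/2) ^ (5/36 : ℝ) ≤ l ^ (5/48 : ℝ) := by
        rw [hl', ← Real.rpow_mul (abs_nonneg _)]
        refine (Real.rpow_le_rpow h1 h2 (by norm_num)).trans (le_of_eq ?_)
        norm_num
      refine h3.trans ?_
      have h4 : l ^ (5/48 : ℝ) = (d:ℝ) ^ (-(5/48) : ℝ) * ((d:ℝ) * l) ^ (5/48 : ℝ) := by
        rw [Real.mul_rpow hd0.le hl, ← mul_assoc, ← Real.rpow_add hd0]
        norm_num
      rw [h4]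
      apply mul_le_mul_of_nonneg_left _ (by positivity)
      exact Real.rpow_le_rpow (by positivity) (by linarith) (by norm_num)
  have e1' : vt (qm p) d ^ 2 ≤ (d:ℝ) ^ (-(5/24) : ℝ) * (1 + (d:ℝ) * l) := by
    have h0 := (vt_pos (p := qm p) hd1).le
    refine (pow_le_pow_left₀ h0 e1 2).trans ?_
    rw [mul_pow]
    have e5 : ((d:ℝ) ^ (-(5/48) : ℝ)) ^ 2 = (d:ℝ) ^ (-(5/24) : ℝ) := by
      rw [← Real.rpow_natCast, ← Real.rpow_mul hd0.le]
      norm_num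
    rw [e5]
    apply mul_le_mul_of_nonneg_left _ (by positivity)
    rw [← Real.rpow_natCast, ← Real.rpow_mul (by linarith)]
    have := Real.rpow_le_rpow_of_exponent_le hv1 (show (5/48 * ((2:ℕ):ℝ) : ℝ) ≤ 1 by
      push_cast; norm_num)
    rwa [Real.rpow_one] at this
  have e3 : (d:ℝ) ^ (-(5/4) : ℝ) / (1 + (d:ℝ) * l) ≤ wt p d := by
    unfold wt
    rw [← hl', div_eq_mul_inv]
    apply mul_le_mul_of_nonneg_left _ (by positivity)
    rw [inv_eq_one_div, div_le_div_iff₀ (by linarith) (by positivity)]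
    nlinarith [mul_nonneg hl (by linarith : 0 ≤ 1 + (d:ℝ) * l)]
  have e4 : 0 < (d:ℝ) ^ (-(5/4) : ℝ) / (1 + (d:ℝ) * l) := by positivity
  refine (div_le_div₀ (by positivity) e1' e4 e3).trans (le_of_eq ?_)
  have e6 : (d:ℝ) ^ (-(5/24) : ℝ) = (d:ℝ) ^ (25/24 : ℝ) * (d:ℝ) ^ (-(5/4) : ℝ) := by
    rw [← Real.rpow_add hd0]
    norm_num
  rw [e6]
  field_simp

/-- The bounds for all parameters. -/
theorem der_all : ∃ C : ℝ, 1 ≤ C ∧ ∀ x : Vtx, x ≠ (0, 0) → ∀ p : ℝ, 0 < p → p < 1 → p ≠ 1/2 →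
    (∀ k : ℕ, 2 ≤ k → |iteratedDeriv k (tr x) p| ≤
      C ^ (k + 1) * k.factorial * ((nx x : ℝ) ^ (25/24 : ℝ) * sv p x ^ 2 *
        |p - 1/2| ^ ((5:ℝ)/3 - k))) ∧
    |deriv (tr x) p| ≤ C * ((nx x : ℝ) ^ (3/4 - 5/24 : ℝ) * sv p x ^ 2) := by
  obtain ⟨C, hC, h⟩ := der_p
  refine ⟨C, hC, ?_⟩
  intro x hx0 p hp0 hp1 hph
  obtain ⟨h1, h2, h3⟩ := h p hp0 hp1 hph x hx0
  have hV := Vp_le_sv (p := p) hx0
  have hn1 : (1:ℝ) ≤ nx x := by exact_mod_cast nx_pos hx0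
  have hn0 : (0:ℝ) < nx x := by linarith
  have hs0 : 0 < |p - 1/2| := abs_pos.2 (sub_ne_zero.2 hph)
  have hv := sv_one p x
  have hV0 := (Vp_pos p hx0).le
  refine ⟨fun k hk => (h2 k hk).trans ?_, h3.trans ?_⟩
  · apply mul_le_mul_of_nonneg_left _ (by positivity)
    exact mul_le_mul_of_nonneg_right hV (by positivity)
  · have e1 : (nx x : ℝ) ^ (3/4 - 5/24 : ℝ) =
        (nx x : ℝ) ^ (25/24 : ℝ) * (nx x : ℝ) ^ (-(1/2) : ℝ) := by
      rw [← Real.rpow_add hn0]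
      norm_num
    rw [e1]
    calc C * Vp p x * (nx x : ℝ) ^ (-(1/2) : ℝ)
        ≤ C * ((nx x : ℝ) ^ (25/24 : ℝ) * sv p x ^ 2) * (nx x : ℝ) ^ (-(1/2) : ℝ) := by
          apply mul_le_mul_of_nonneg_right _ (by positivity)
          exact mul_le_mul_of_nonneg_left hV (by linarith)
      _ = _ := by ring

theorem nrm_nx (x : Vtx) : Pool.Agent.W424.NC.nrm x = nx x := rfl

theorem nv_nx (x : Vtx) : Pool.Agent.H160R2.CV.nv x = nx x := rfl

theorem tr_of (x : Vtx) (P : unitInterval) : tr x P = tau P x := by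
  unfold tr
  rw [Set.projIcc_val]

/-- The two-point function for all parameters. -/
theorem tr_up : ∃ C : ℝ, 1 ≤ C ∧ ∀ x : Vtx, x ≠ (0, 0) → ∀ p : ℝ, 0 ≤ p → p ≤ 1 →
    0 ≤ tr x p ∧ tr x p ≤ C * ((nx x : ℝ) ^ (-(5/24) : ℝ) + |p - 1/2| ^ (5/18 : ℝ)) := by
  obtain ⟨c1, C1, hc1, hC1, h1⟩ := Pool.Agent.W424.NC.tau_upper
  obtain ⟨c2, C2, hc2, hC2, h2⟩ := Q291.TT.up_tau
  obtain ⟨C3, hC3, h3⟩ := Q291.TT.theta_up
  refine ⟨C1 + C2 + C3 ^ 2 + 1, by nlinarith [sq_nonneg C3], ?_⟩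
  intro x hx0 p hp0 hp1
  have hn1 : (1:ℝ) ≤ nx x := by exact_mod_cast nx_pos hx0
  have hn0 : (0:ℝ) < nx x := by linarith
  obtain ⟨P, hP⟩ : ∃ P : unitInterval, (P : ℝ) = p := ⟨⟨p, hp0, hp1⟩, rfl⟩
  have e : tr x p = tau P x := by rw [← hP, tr_of]
  rw [e]
  refine ⟨measureReal_nonneg, ?_⟩
  have hle : ((nx x : ℝ) + 1) ^ (-(5/24) : ℝ) ≤ (nx x : ℝ) ^ (-(5/24) : ℝ) :=
    Real.rpow_le_rpow_of_nonpos hn0 (by linarith) (by norm_num)
  obtain ⟨a, ha⟩ : ∃ a : ℝ, a = (nx x : ℝ) ^ (-(5/24) : ℝ) := ⟨_, rfl⟩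
  have ha0 : 0 < a := by rw [ha]; positivity
  obtain ⟨a', ha'⟩ : ∃ a' : ℝ, a' = ((nx x : ℝ) + 1) ^ (-(5/24) : ℝ) := ⟨_, rfl⟩
  have ha0' : 0 < a' := by rw [ha']; positivity
  rw [← ha, ← ha'] at hle
  rw [← ha]
  obtain ⟨b, hb⟩ : ∃ b : ℝ, b = |p - 1/2| ^ (5/18 : ℝ) := ⟨_, rfl⟩
  have hb0 : 0 ≤ b := by rw [hb]; positivity
  rw [← hb]
  have hC3' : 0 ≤ C3 ^ 2 := sq_nonneg _
  rcases le_total p (1/2) with hp | hp
  · have k1 := h1 P (by rw [hP]; exact hp) x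
    rw [nrm_nx, ← ha'] at k1
    have k2 : Real.exp (-(c1 * (nx x * (1/2 - (P:ℝ)) ^ (4/3 : ℝ)))) ≤ 1 := by
      apply Real.exp_le_one_iff.2
      have : 0 ≤ (1/2 - (P:ℝ)) ^ (4/3 : ℝ) := Real.rpow_nonneg (by rw [hP]; linarith) _
      have : 0 ≤ c1 * (nx x * (1/2 - (P:ℝ)) ^ (4/3 : ℝ)) := by positivity
      linarith
    have k3 := mul_le_mul_of_nonneg_left k2 (by positivity : 0 ≤ C1 * a')
    have k4 := mul_le_mul_of_nonneg_left hle hC1.le
    have k5 : 0 ≤ (C2 + C3 ^ 2 + 1) * a := by positivity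
    have k6 : 0 ≤ (C1 + C2 + C3 ^ 2 + 1) * b := by positivity
    linarith
  · have k1 := h2 P (by rw [hP]; exact hp) x
    rw [nv_nx, ← ha'] at k1
    have k2 : Real.exp (-(c2 * (nx x * ((P:ℝ) - 1/2) ^ (4/3 : ℝ)))) ≤ 1 := by
      apply Real.exp_le_one_iff.2
      have : 0 ≤ ((P:ℝ) - 1/2) ^ (4/3 : ℝ) := Real.rpow_nonneg (by rw [hP]; linarith) _
      have : 0 ≤ c2 * (nx x * ((P:ℝ) - 1/2) ^ (4/3 : ℝ)) := by positivity
      linarith
    have k3 := mul_le_mul_of_nonneg_left k2 (by positivity : 0 ≤ C2 * a')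
    have k4 := mul_le_mul_of_nonneg_left hle hC2.le
    have k5 := h3 P (by rw [hP]; exact hp)
    have k6 : theta P ^ 2 ≤ C3 ^ 2 * b := by
      have h0 : 0 ≤ theta P := theta_nonneg P
      refine (pow_le_pow_left₀ h0 k5 2).trans (le_of_eq ?_)
      have e5 : ((p - 1/2) ^ (5/36 : ℝ)) ^ 2 = (p - 1/2) ^ (5/18 : ℝ) := by
        rw [← Real.rpow_natCast, ← Real.rpow_mul (by linarith)]
        norm_num
      rw [mul_pow, hb, hP, abs_of_nonneg (by linarith : 0 ≤ p - 1/2), e5]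
    have k7 : 0 ≤ (C1 + C3 ^ 2 + 1) * a := by positivity
    have k8 : 0 ≤ (C1 + C2 + 1) * b := by positivity
    linarith

/-- The expansion for all parameters. -/
theorem rem_all : ∃ C : ℝ, 1 ≤ C ∧ ∀ x : Vtx, x ≠ (0, 0) → ∃ a : ℝ, HasDerivAt (tr x) a (1/2) ∧
    |a| ≤ C * (nx x : ℝ) ^ (3/4 - 5/24 : ℝ) ∧
    ∀ p : ℝ, 0 < p → p < 1 →
      |deriv (tr x) p - a| ≤ C * ((nx x : ℝ) ^ (25/24 : ℝ) * sv p x ^ 2 *
        |p - 1/2| ^ (2/3 : ℝ)) ∧
      |tr x p - tr x (1/2) - a * (p - 1/2)| ≤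
        C * ((nx x : ℝ) ^ (25/24 : ℝ) * |p - 1/2| ^ (5/3 : ℝ)) := by
  obtain ⟨C1, hC1, h1⟩ := crit
  obtain ⟨C2, hC2, h2⟩ := der_all
  obtain ⟨C3, hC3, h3⟩ := der_win
  obtain ⟨C4, hC4, h4⟩ := tr_up
  refine ⟨C1 + C2 + C3 + 4 * C4, by linarith, ?_⟩
  intro x hx0
  obtain ⟨a, ha, hx⟩ := h1 x hx0
  have hn1 : (1:ℝ) ≤ nx x := by exact_mod_cast nx_pos hx0
  have hn0 : (0:ℝ) < nx x := by linarith
  obtain ⟨n, hn⟩ : ∃ n : ℝ, n = nx x := ⟨_, rfl⟩
  rw [← hn] at hn1 hn0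
  have e0 : n ^ (25/24 : ℝ) * (n ^ (-(3/4) : ℝ)) ^ (2/3 : ℝ) = n ^ (3/4 - 5/24 : ℝ) := by
    rw [← Real.rpow_mul hn0.le, ← Real.rpow_add hn0]
    norm_num
  -- the slope
  have ha' : |a| ≤ (C1 + C3) * n ^ (3/4 - 5/24 : ℝ) := by
    obtain ⟨t, ht⟩ : ∃ t : ℝ, t = n ^ (-(3/4) : ℝ) := ⟨_, rfl⟩
    have ht0 : 0 < t := by rw [ht]; positivity
    have ht1 : t ≤ 1 := by
      rw [ht]; exact Real.rpow_le_one_of_one_le_of_nonpos hn1 (by norm_num)
    have q1 : |1/2 + t / 4 - 1/2| = t / 4 := by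
      rw [add_sub_cancel_left, abs_of_pos (by linarith)]
    have k1 := (hx (1/2 + t / 4) (by linarith) (by linarith) (by
      rw [q1, ← hn, ← ht]; linarith)).1
    have k2 := (h3 x hx0 (1/2 + t / 4) (by linarith) (by linarith) (by linarith) (by
      rw [q1, ← hn, ← ht]; linarith)).2.2
    rw [q1, ← hn] at k1
    rw [← hn] at k2
    have k3 : (t / 4) ^ (2/3 : ℝ) ≤ t ^ (2/3 : ℝ) :=
      Real.rpow_le_rpow (by linarith) (by linarith) (by norm_num)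
    have k4 : n ^ (25/24 : ℝ) * (t / 4) ^ (2/3 : ℝ) ≤ n ^ (3/4 - 5/24 : ℝ) := by
      rw [← e0, ← ht]
      exact mul_le_mul_of_nonneg_left k3 (by positivity)
    have k5 := mul_le_mul_of_nonneg_left k4 (by linarith : 0 ≤ C1)
    have k6 : |a| ≤ |deriv (tr x) (1/2 + t / 4)| + |deriv (tr x) (1/2 + t / 4) - a| := by
      have := abs_sub (deriv (tr x) (1/2 + t / 4)) (deriv (tr x) (1/2 + t / 4) - a)
      rwa [sub_sub_cancel] at this
    linarith
  have hnp : 0 < n ^ (3/4 - 5/24 : ℝ) := by positivity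
  refine ⟨a, ha, ?_, ?_⟩
  · rw [← hn]
    refine ha'.trans (mul_le_mul_of_nonneg_right (by linarith) hnp.le)
  intro p hp0 hp1
  rw [← hn]
  obtain ⟨s, hs⟩ : ∃ s : ℝ, s = |p - 1/2| := ⟨_, rfl⟩
  have hs0 : 0 ≤ s := by rw [hs]; positivity
  rw [← hs]
  have hN : 0 < n ^ (25/24 : ℝ) := by positivity
  have hv := sv_one p x
  have hv2 : 1 ≤ sv p x ^ 2 := one_le_pow₀ hv
  rcases lt_or_ge s (n ^ (-(3/4) : ℝ)) with hw | hw
  · obtain ⟨k1, k2⟩ := hx p hp0 hp1 (by rw [← hs, ← hn]; exact hw)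
    rw [← hs, ← hn] at k1 k2
    constructor
    · refine k1.trans ?_
      have e1 : n ^ (25/24 : ℝ) * s ^ (2/3 : ℝ) ≤
          n ^ (25/24 : ℝ) * sv p x ^ 2 * s ^ (2/3 : ℝ) := by
        apply mul_le_mul_of_nonneg_right _ (by positivity)
        exact le_mul_of_one_le_right hN.le hv2
      apply mul_le_mul (by linarith) e1 (by positivity) (by linarith)
    · refine k2.trans ?_
      apply mul_le_mul_of_nonneg_right (by linarith) (by positivity)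
  · -- outside of the window
    have hph : p ≠ 1/2 := by
      intro h
      rw [h, sub_self, abs_zero] at hs
      rw [hs] at hw
      have : 0 < n ^ (-(3/4) : ℝ) := by positivity
      linarith
    have hs1 : 0 < s := lt_of_lt_of_le (by positivity) hw
    have f1 : n ^ (3/4 - 5/24 : ℝ) ≤ n ^ (25/24 : ℝ) * s ^ (2/3 : ℝ) := by
      rw [← e0]
      apply mul_le_mul_of_nonneg_left _ hN.le
      exact Real.rpow_le_rpow (by positivity) hw (by norm_num)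
    have f2 : s ^ (5/3 : ℝ) = s ^ (2/3 : ℝ) * s := by
      have := Real.rpow_add_one hs1.ne' (2/3)
      rw [← this]
      norm_num
    constructor
    · have k1 := (h2 x hx0 p hp0 hp1 hph).2
      rw [← hn] at k1
      refine (abs_sub _ _).trans ?_
      have g1 : C2 * (n ^ (3/4 - 5/24 : ℝ) * sv p x ^ 2) ≤
          C2 * (n ^ (25/24 : ℝ) * sv p x ^ 2 * s ^ (2/3 : ℝ)) := by
        apply mul_le_mul_of_nonneg_left _ (by linarith)
        have := mul_le_mul_of_nonneg_right f1 (by positivity : 0 ≤ sv p x ^ 2)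
        linarith
      have g2 : (C1 + C3) * n ^ (3/4 - 5/24 : ℝ) ≤
          (C1 + C3) * (n ^ (25/24 : ℝ) * sv p x ^ 2 * s ^ (2/3 : ℝ)) := by
        apply mul_le_mul_of_nonneg_left _ (by linarith)
        refine f1.trans ?_
        apply mul_le_mul_of_nonneg_right _ (by positivity)
        exact le_mul_of_one_le_right hN.le hv2
      have g3 : 0 ≤ 4 * C4 * (n ^ (25/24 : ℝ) * sv p x ^ 2 * s ^ (2/3 : ℝ)) := by positivity
      linarith
    · have t1 := h4 x hx0 p hp0.le hp1.le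
      have t2 := h4 x hx0 (1/2) (by norm_num) (by norm_num)
      rw [sub_self, abs_zero, Real.zero_rpow (by norm_num), add_zero, ← hn] at t2
      rw [← hs, ← hn] at t1
      obtain ⟨w, hw'⟩ : ∃ w : ℝ, w = n ^ (25/24 : ℝ) * s ^ (5/3 : ℝ) := ⟨_, rfl⟩
      have hw0 : 0 ≤ w := by rw [hw']; positivity
      -- the terms
      have u1 : n ^ (-(5/24) : ℝ) ≤ w := by
        have e1 : n ^ (-(5/24) : ℝ) = n ^ (25/24 : ℝ) * (n ^ (-(3/4) : ℝ)) ^ (5/3 : ℝ) := by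
          rw [← Real.rpow_mul hn0.le, ← Real.rpow_add hn0]
          norm_num
        rw [e1, hw']
        apply mul_le_mul_of_nonneg_left _ hN.le
        exact Real.rpow_le_rpow (by positivity) hw (by norm_num)
      have u2 : s ^ (5/18 : ℝ) ≤ w := by
        have e1 : s ^ (5/3 : ℝ) = s ^ (5/18 : ℝ) * s ^ (25/18 : ℝ) := by
          rw [← Real.rpow_add hs1]
          norm_num
        have e2 : n ^ (-(25/24) : ℝ) ≤ s ^ (25/18 : ℝ) := by
          have e3 : n ^ (-(25/24) : ℝ) = (n ^ (-(3/4) : ℝ)) ^ (25/18 : ℝ) := by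
            rw [← Real.rpow_mul hn0.le]
            norm_num
          rw [e3]
          exact Real.rpow_le_rpow (by positivity) hw (by norm_num)
        have e4 := mul_le_mul_of_nonneg_left e2 (by positivity : 0 ≤ n ^ (25/24 : ℝ) *
          s ^ (5/18 : ℝ))
        have e5 : n ^ (25/24 : ℝ) * s ^ (5/18 : ℝ) * n ^ (-(25/24) : ℝ) = s ^ (5/18 : ℝ) := by
          rw [mul_right_comm, ← Real.rpow_add hn0]
          norm_num
        rw [e5] at e4
        rw [hw', e1]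
        refine e4.trans (le_of_eq ?_)
        ring
      have u3 : |a * (p - 1/2)| ≤ (C1 + C3) * w := by
        rw [abs_mul, ← hs, hw', f2]
        have := mul_le_mul_of_nonneg_right (ha'.trans
          (mul_le_mul_of_nonneg_left f1 (by linarith))) hs0
        refine this.trans (le_of_eq (by ring))
      rw [← hw']
      have v1 : C4 * (n ^ (-(5/24) : ℝ) + s ^ (5/18 : ℝ)) ≤ 2 * C4 * w := by
        have := mul_le_mul_of_nonneg_left (add_le_add u1 u2) (by linarith : 0 ≤ C4)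
        linarith
      have v2 : C4 * n ^ (-(5/24) : ℝ) ≤ C4 * w := mul_le_mul_of_nonneg_left u1 (by linarith)
      have v3 : 0 ≤ C2 * w := by positivity
      have v4 : 0 ≤ C4 * w := by positivity
      rw [abs_le] at u3 ⊢
      constructor <;> linarith [u3.1, u3.2, t1.1, t1.2, t2.1, t2.2]

end Pool.Agent.H29.TL
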